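import Mathlib
import Pool.Agent.Y503.RB.All

/-!
Upper total curvature of surfaces in Euclidean four-space: definitions, frames.
-/

set_option autoImplicit false

namespace Pool.Agent.N503.ML

open scoped ContDiff RealInnerProductSpace ENNReal Topology
open MeasureTheory Set Metric
open Pool.Agent.Y503.RB

/-- Immersed surface patch over the open set `U`. -/
structure IPatch (φ : ℂ → E4) (U : Set ℂ) : Prop where
  isOpen : IsOpen U
  smooth : ContDiffOn ℝ ∞ φ U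
  imm : ∀ z ∈ U, Function.Injective (fderiv ℝ φ z)

/-- Determinant of the second fundamental form with respect to `n`. -/
noncomputable def kdet (φ : ℂ → E4) (n : E4) (z : ℂ) : ℝ :=
  sff φ n 1 1 z * sff φ n Complex.I Complex.I z - sff φ n 1 Complex.I z ^ 2

/-- The normal vector `n` at `φ z` points upwards and the second fundamental form with respect to
`n` is negative definite. -/
def Cap (φ : ℂ → E4) (n : E4) (z : ℂ) : Prop := 0 < n 3 ∧ sff φ n 1 1 z < 0 ∧ 0 < kdet φ n z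

open Classical in
/-- Density of the upper curvature. -/
noncomputable def densE (φ : ℂ → E4) (n : E4) (z : ℂ) : ℝ :=
  if Cap φ n z then kdet φ n z / √(fffDet φ z) else 0

/-- Integral of the density over the circle of unit normal vectors at `φ z`. (All `L` in the
supremum give the same value.) -/
noncomputable def curvE (φ : ℂ → E4) (z : ℂ) : ℝ≥0∞ :=
  ⨆ (L : ℂ →ₗᵢ[ℝ] E4) (_ : ∀ w v : ℂ, ⟪L w, d1 φ v z⟫ = 0),
    ∫⁻ θ in Ico 0 (2 * Real.pi),
      ENNReal.ofReal (densE φ (L ⟨Real.cos θ, Real.sin θ⟩) z)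

theorem d1_smul (φ : ℂ → E4) (c : ℝ) (v z : ℂ) : d1 (fun w => c • φ w) v z = c • d1 φ v z := by
  unfold d1
  have h : (fun w => c • φ w) = c • φ := rfl
  rw [h, fderiv_const_smul_field]
  rfl

/-- A multiple of an immersed patch is, locally, a patch in the unit ball. -/
theorem exists_patch {φ : ℂ → E4} {U : Set ℂ} (hP : IPatch φ U) {z : ℂ} (hz : z ∈ U) :
    ∃ (c : ℝ) (V : Set ℂ), 0 < c ∧ V ⊆ U ∧ z ∈ V ∧ IsOpen V ∧ Patch (fun w => c • φ w) V := by
  have hc : 0 < (‖φ z‖ + 1)⁻¹ := by positivity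
  have hV : IsOpen (U ∩ (fun w => ‖φ w‖) ⁻¹' Iio (‖φ z‖ + 1)) :=
    hP.smooth.continuousOn.norm.isOpen_inter_preimage hP.isOpen isOpen_Iio
  refine ⟨(‖φ z‖ + 1)⁻¹, U ∩ (fun w => ‖φ w‖) ⁻¹' Iio (‖φ z‖ + 1), hc, inter_subset_left,
    ⟨hz, by simp⟩, hV, hV, ?_, ?_, ?_⟩
  · exact (contDiffOn_const (c := (‖φ z‖ + 1)⁻¹)).smul (hP.smooth.mono inter_subset_left)
  · intro w hw a b hab
    apply hP.imm w hw.1
    have h1 := d1_smul φ (‖φ z‖ + 1)⁻¹ a w
    have h2 := d1_smul φ (‖φ z‖ + 1)⁻¹ b w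
    have h3 : (‖φ z‖ + 1)⁻¹ • d1 φ a w = (‖φ z‖ + 1)⁻¹ • d1 φ b w := by
      rw [← h1, ← h2]; exact hab
    exact smul_right_injective E4 hc.ne' h3
  · intro w hw
    rw [norm_smul, Real.norm_eq_abs, abs_of_pos hc, inv_mul_lt_one₀ (by positivity)]
    exact hw.2

/-- Local normal frames. -/
theorem local_frame {φ : ℂ → E4} {U : Set ℂ} (hP : IPatch φ U) {z : ℂ} (hz : z ∈ U) :
    ∃ U' ⊆ U, z ∈ U' ∧ IsOpen U' ∧ ∃ N₁ N₂ : ℂ → E4, Frame φ N₁ N₂ U' := by
  obtain ⟨c, V, hc, hVU, hzV, hV, hp⟩ := exists_patch hP hz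
  obtain ⟨U', hU', hz', ho, N₁, N₂, hF⟩ := Pool.Agent.Y297.RB.lf _ V hp z hzV
  refine ⟨U', hU'.trans hVU, hz', ho, N₁, N₂, hF.smooth₁, hF.smooth₂, hF.unit₁, hF.unit₂,
    hF.orth, ?_, ?_⟩
  · intro w hw v
    have := hF.norm₁ w hw v
    rw [d1_smul, real_inner_smul_right] at this
    exact (mul_eq_zero.1 this).resolve_left hc.ne'
  · intro w hw v
    have := hF.norm₂ w hw v
    rw [d1_smul, real_inner_smul_right] at this
    exact (mul_eq_zero.1 this).resolve_left hc.ne'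

/-- Unit normal vectors in terms of the frame. -/
theorem frame_unit {φ N₁ N₂ : ℂ → E4} {U : Set ℂ} (hP : IPatch φ U) (hF : Frame φ N₁ N₂ U)
    {z : ℂ} (hz : z ∈ U) {n : E4} (hn : ‖n‖ = 1) (hno : ∀ v : ℂ, ⟪n, d1 φ v z⟫ = 0) :
    ∃ θ ∈ Ico 0 (2 * Real.pi), n = nor N₁ N₂ θ z := by
  obtain ⟨c, V, hc, hVU, hzV, hV, hp⟩ := exists_patch hP hz
  refine Pool.Agent.Y977.RB.frame _ N₁ N₂ V hp ⟨hF.smooth₁.mono hVU, hF.smooth₂.mono hVU,
    fun w hw => hF.unit₁ w (hVU hw), fun w hw => hF.unit₂ w (hVU hw),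
    fun w hw => hF.orth w (hVU hw), ?_, ?_⟩ z hzV n hn ?_
  · intro w hw v
    rw [d1_smul, real_inner_smul_right, hF.norm₁ w (hVU hw), mul_zero]
  · intro w hw v
    rw [d1_smul, real_inner_smul_right, hF.norm₂ w (hVU hw), mul_zero]
  · intro v
    rw [d1_smul, real_inner_smul_right, hno, mul_zero]

/-- The integral over the circle of unit normal vectors does not depend on the frame. -/
theorem ind {φ N₁ N₂ : ℂ → E4} {U : Set ℂ} (hP : IPatch φ U) (hF : Frame φ N₁ N₂ U)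
    {z : ℂ} (hz : z ∈ U) :
    ∫⁻ θ in Ico 0 (2 * Real.pi), ENNReal.ofReal (densE φ (nor N₁ N₂ θ z) z) = curvE φ z := by
  have u1 := hF.unit₁ z hz
  have u2 := hF.unit₂ z hz
  have o := hF.orth z hz
  have o1 := hF.norm₁ z hz
  have o2 := hF.norm₂ z hz
  have i11 : ⟪N₁ z, N₁ z⟫ = (1 : ℝ) := by rw [real_inner_self_eq_norm_sq, u1]; norm_num
  have i22 : ⟪N₂ z, N₂ z⟫ = (1 : ℝ) := by rw [real_inner_self_eq_norm_sq, u2]; norm_num
  have o' : ⟪N₂ z, N₁ z⟫ = (0 : ℝ) := by rw [real_inner_comm]; exact o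
  apply le_antisymm
  · let L0 : ℂ →ₗᵢ[ℝ] E4 :=
      { toFun := fun w => w.re • N₁ z + w.im • N₂ z
        map_add' := by
          intro a b
          simp only [Complex.add_re, Complex.add_im, add_smul]
          abel
        map_smul' := by
          intro r a
          simp only [Complex.real_smul, Complex.mul_re, Complex.mul_im, Complex.ofReal_re,
            Complex.ofReal_im, zero_mul, sub_zero, add_zero, RingHom.id_apply, smul_add,
            smul_smul]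
        norm_map' := by
          intro w
          have h1 : ‖w.re • N₁ z + w.im • N₂ z‖ ^ 2 = ‖w‖ ^ 2 := by
            rw [← real_inner_self_eq_norm_sq, ← Complex.normSq_eq_norm_sq, Complex.normSq_apply]
            simp only [inner_add_left, inner_add_right, real_inner_smul_left,
              real_inner_smul_right, i11, i22, o, o']
            ring
          exact (sq_eq_sq₀ (norm_nonneg _) (norm_nonneg _)).1 h1 }
    have hL0 : ∀ w v : ℂ, ⟪L0 w, d1 φ v z⟫ = (0 : ℝ) := by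
      intro w v
      show ⟪w.re • N₁ z + w.im • N₂ z, d1 φ v z⟫ = (0 : ℝ)
      rw [inner_add_left, real_inner_smul_left, real_inner_smul_left, o1, o2]
      ring
    exact le_iSup₂_of_le L0 hL0 le_rfl
  · refine iSup₂_le fun L hL => le_of_eq ?_
    obtain ⟨a, -, ha⟩ := frame_unit hP hF hz (n := L 1)
      (by rw [L.norm_map]; exact norm_one) (hL 1)
    obtain ⟨b, -, hb⟩ := frame_unit hP hF hz (n := L Complex.I)
      (by rw [L.norm_map]; exact Complex.norm_I) (hL Complex.I)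
    have h0 : ⟪L 1, L Complex.I⟫ = (0 : ℝ) := by
      rw [L.inner_map_map]
      simp [Complex.inner]
    have h1 : Real.cos a * Real.cos b + Real.sin a * Real.sin b = 0 := by
      rw [ha, hb] at h0
      simp only [nor, inner_add_left, inner_add_right, real_inner_smul_left,
        real_inner_smul_right, i11, i22, o, o'] at h0
      linarith
    have hLt : ∀ t : ℝ, L ⟨Real.cos t, Real.sin t⟩ =
        (Real.cos t * Real.cos a + Real.sin t * Real.cos b) • N₁ z +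
          (Real.cos t * Real.sin a + Real.sin t * Real.sin b) • N₂ z := by
      intro t
      have h2 : ∀ x y : ℝ, (⟨x, y⟩ : ℂ) = x • (1 : ℂ) + y • Complex.I := by
        intro x y
        apply Complex.ext <;> simp
      rw [h2, L.map_add, L.map_smul, L.map_smul, ha, hb]
      simp only [nor, smul_add, smul_smul, add_smul]
      abel
    obtain ⟨f, hf⟩ : ∃ f : ℝ → ℝ≥0∞, f = fun t => ENNReal.ofReal (densE φ (nor N₁ N₂ t z) z) :=
      ⟨_, rfl⟩
    have hper : Function.Periodic f (2 * Real.pi) := by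
      intro t
      rw [hf]
      simp only [nor, Real.cos_add_two_pi, Real.sin_add_two_pi]
    have hca := Real.sin_sq_add_cos_sq a
    have hcb := Real.sin_sq_add_cos_sq b
    have hs : (Real.cos b = -Real.sin a ∧ Real.sin b = Real.cos a) ∨
        (Real.cos b = Real.sin a ∧ Real.sin b = -Real.cos a) := by
      obtain ⟨s, hs⟩ : ∃ s, s = Real.cos a * Real.sin b - Real.sin a * Real.cos b := ⟨_, rfl⟩
      have e1 : Real.cos b = -(s * Real.sin a) := by
        rw [hs]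
        linear_combination (-Real.cos b) * hca + Real.cos a * h1
      have e2 : Real.sin b = s * Real.cos a := by
        rw [hs]
        linear_combination (-Real.sin b) * hca + Real.sin a * h1
      have e3 : s ^ 2 = 1 := by
        have : s ^ 2 * (Real.sin a ^ 2 + Real.cos a ^ 2) = 1 := by
          rw [← hcb, e1, e2]
          ring
        rwa [hca, mul_one] at this
      rcases mul_self_eq_one_iff.1 ((sq s).symm.trans e3) with h | h
      · left
        rw [h] at e1 e2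
        exact ⟨by linarith, by linarith⟩
      · right
        rw [h] at e1 e2
        exact ⟨by linarith, by linarith⟩
    rcases hs with ⟨h2, h3⟩ | ⟨h2, h3⟩
    · have h4 : (fun t : ℝ => ENNReal.ofReal (densE φ (L ⟨Real.cos t, Real.sin t⟩) z)) =
          fun t => f (t + a) := by
        funext t
        rw [hLt, hf, h2, h3]
        simp only [nor, Real.cos_add, Real.sin_add]
        congr 4
        · ring_nf
        · ring_nf
      rw [h4, Pool.Agent.Y429.RB.lper1 hper, hf]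
    · have h4 : (fun t : ℝ => ENNReal.ofReal (densE φ (L ⟨Real.cos t, Real.sin t⟩) z)) =
          fun t => f (-t + a) := by
        funext t
        rw [hLt, hf, h2, h3]
        simp only [nor, Real.cos_add, Real.sin_add, Real.cos_neg, Real.sin_neg]
        congr 4
        · ring_nf
        · ring_nf
      rw [h4, Pool.Agent.Y429.RB.lper2 hper, hf]

/-- The cone over the Gauss map: `(x₀, x₁, θ, r) ↦ r n(θ, x₀ + i x₁)`. -/
noncomputable def cE (N₁ N₂ : ℂ → E4) (x : E4) : E4 := x 3 • nor N₁ N₂ (x 2) (zc x)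

/-- Jacobian determinant of the cone over the Gauss map. -/
theorem cE_det {φ N₁ N₂ : ℂ → E4} {U : Set ℂ} (hP : IPatch φ U) (hF : Frame φ N₁ N₂ U)
    {x : E4} (hx : zc x ∈ U) :
    ContDiffAt ℝ ∞ (cE N₁ N₂) x ∧
    |(fderiv ℝ (cE N₁ N₂) x).det| =
      |x 3| ^ 3 * (|kdet φ (nor N₁ N₂ (x 2) (zc x)) (zc x)| / √(fffDet φ (zc x))) := by
  obtain ⟨θ, hθ⟩ : ∃ θ, θ = x 2 := ⟨_, rfl⟩
  obtain ⟨z, hz⟩ : ∃ z, z = zc x := ⟨_, rfl⟩
  rw [← hz, ← hθ]
  rw [← hz] at hx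
  have hU := hP.isOpen.mem_nhds hx
  have cφ : ContDiffAt ℝ ∞ φ z := hP.smooth.contDiffAt hU
  have c1 : ContDiffAt ℝ ∞ N₁ z := hF.smooth₁.contDiffAt hU
  have c2 : ContDiffAt ℝ ∞ N₂ z := hF.smooth₂.contDiffAt hU
  have dφ : DifferentiableAt ℝ φ z := cφ.differentiableAt (by simp)
  have dN1 : DifferentiableAt ℝ N₁ z := c1.differentiableAt (by simp)
  have dN2 : DifferentiableAt ℝ N₂ z := c2.differentiableAt (by simp)
  have ddφ : ∀ u : ℂ, DifferentiableAt ℝ (fun w => d1 φ u w) z := by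
    intro u
    have h1 : ContDiffAt ℝ 1 (fderiv ℝ φ) z := cφ.fderiv_right (by norm_cast)
    exact (h1.differentiableAt (by simp)).clm_apply (differentiableAt_const u)
  have cs : ContDiffAt ℝ ∞ (fun q : ℝ × ℂ => q.2) (θ, z) := contDiffAt_snd
  have cf : ContDiffAt ℝ ∞ (fun q : ℝ × ℂ => q.1) (θ, z) := contDiffAt_fst
  have cN1 : ContDiffAt ℝ ∞ (fun q : ℝ × ℂ => N₁ q.2) (θ, z) :=
    ContDiffAt.comp (θ, z) (g := N₁) (f := fun q : ℝ × ℂ => q.2) c1 cs
  have cN2 : ContDiffAt ℝ ∞ (fun q : ℝ × ℂ => N₂ q.2) (θ, z) :=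
    ContDiffAt.comp (θ, z) (g := N₂) (f := fun q : ℝ × ℂ => q.2) c2 cs
  have cN : ContDiffAt ℝ ∞ (fun q : ℝ × ℂ => nor N₁ N₂ q.1 q.2) (θ, z) := by
    unfold nor
    exact ((Real.contDiff_cos.contDiffAt.comp (θ, z) cf).smul cN1).add
      ((Real.contDiff_sin.contDiffAt.comp (θ, z) cf).smul cN2)
  have H1 : HasFDerivAt (fun q : ℝ × ℂ => N₁ q.2)
      ((fderiv ℝ N₁ z).comp (ContinuousLinearMap.snd ℝ ℝ ℂ)) (θ, z) :=
    HasFDerivAt.comp (θ, z) (g := N₁) (f := fun q : ℝ × ℂ => q.2) dN1.hasFDerivAt hasFDerivAt_snd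
  have H2 : HasFDerivAt (fun q : ℝ × ℂ => N₂ q.2)
      ((fderiv ℝ N₂ z).comp (ContinuousLinearMap.snd ℝ ℝ ℂ)) (θ, z) :=
    HasFDerivAt.comp (θ, z) (g := N₂) (f := fun q : ℝ × ℂ => q.2) dN2.hasFDerivAt hasFDerivAt_snd
  have Hc : HasFDerivAt (fun q : ℝ × ℂ => Real.cos q.1)
      ((-Real.sin θ) • ContinuousLinearMap.fst ℝ ℝ ℂ) (θ, z) :=
    HasDerivAt.comp_hasFDerivAt (θ, z) (h₂ := Real.cos) (f := fun q : ℝ × ℂ => q.1)
      (Real.hasDerivAt_cos θ) hasFDerivAt_fst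
  have Hs : HasFDerivAt (fun q : ℝ × ℂ => Real.sin q.1)
      ((Real.cos θ) • ContinuousLinearMap.fst ℝ ℝ ℂ) (θ, z) :=
    HasDerivAt.comp_hasFDerivAt (θ, z) (h₂ := Real.sin) (f := fun q : ℝ × ℂ => q.1)
      (Real.hasDerivAt_sin θ) hasFDerivAt_fst
  set n := nor N₁ N₂ θ z with hn
  set m := nor N₁ N₂ (θ + Real.pi / 2) z with hm
  obtain ⟨n', hn', hn'v, hn'1⟩ : ∃ n' : ℝ × ℂ →L[ℝ] E4,
      HasFDerivAt (fun q : ℝ × ℂ => nor N₁ N₂ q.1 q.2) n' (θ, z) ∧
      (∀ v : ℂ, n' (0, v) = Real.cos θ • fderiv ℝ N₁ z v + Real.sin θ • fderiv ℝ N₂ z v) ∧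
      n' (1, 0) = m := by
    refine ⟨_, (Hc.smul H1).add (Hs.smul H2), ?_, ?_⟩
    · intro v
      simp
    · show _ = nor N₁ N₂ (θ + Real.pi / 2) z
      unfold nor
      rw [Real.cos_add_pi_div_two, Real.sin_add_pi_div_two]
      simp
  have hn1 : ‖n‖ = 1 := Pool.Agent.Y692.RB.nor_norm hF hx θ
  have hm1 : ‖m‖ = 1 := Pool.Agent.Y692.RB.nor_norm hF hx _
  have hnm : ⟪n, m⟫ = 0 := by
    rw [hn, hm, Pool.Agent.Y692.RB.nor_inner hF hx, Real.cos_add_pi_div_two,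
      Real.sin_add_pi_div_two]
    ring
  have hnt : ∀ v, ⟪n, d1 φ v z⟫ = 0 := Pool.Agent.Y692.RB.nor_tan hF hx θ
  have hmt : ∀ v, ⟪m, d1 φ v z⟫ = 0 := Pool.Agent.Y692.RB.nor_tan hF hx _
  -- the map `w ↦ n(θ, w)`
  have hk : HasFDerivAt (fun w => nor N₁ N₂ θ w)
      (Real.cos θ • fderiv ℝ N₁ z + Real.sin θ • fderiv ℝ N₂ z) z := by
    unfold nor
    exact (dN1.hasFDerivAt.const_smul (Real.cos θ)).add (dN2.hasFDerivAt.const_smul (Real.sin θ))
  have hkv : ∀ v, fderiv ℝ (fun w => nor N₁ N₂ θ w) z v = n' (0, v) := by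
    intro v
    rw [hk.fderiv, hn'v]
    rfl
  have hnn : ∀ v, ⟪n, n' (0, v)⟫ = 0 := by
    intro v
    have := Pool.Agent.Y692.RB.inner_const hP.isOpen hx hk.differentiableAt hk.differentiableAt
      (c := 1) (fun w hw => Pool.Agent.Y692.RB.inner_self_one
        (Pool.Agent.Y692.RB.nor_norm hF hw θ)) v
    rw [hkv, real_inner_comm (nor N₁ N₂ θ z)] at this
    linarith
  have hbw : ∀ u v, ⟪d1 φ u z, n' (0, v)⟫ = -sff φ n v u z := by
    intro u v
    have := Pool.Agent.Y692.RB.inner_const hP.isOpen hx hk.differentiableAt (ddφ u)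
      (c := 0) (fun w hw => Pool.Agent.Y692.RB.nor_tan hF hw θ u) v
    rw [hkv, real_inner_comm (d1 φ u z)] at this
    have h2 : sff φ n v u z = ⟪nor N₁ N₂ θ z, fderiv ℝ (fun w => d1 φ u w) z v⟫ := rfl
    rw [h2]
    linarith
  -- the cone
  have hgQ : ContDiffAt ℝ ∞ (fun x => (fun q : ℝ × ℂ => nor N₁ N₂ q.1 q.2)
      (Pool.Agent.Y421.RB.Q x)) x := by
    have h1 : ContDiffAt ℝ ∞ (fun q : ℝ × ℂ => nor N₁ N₂ q.1 q.2) (Pool.Agent.Y421.RB.Q x) := by
      rw [Pool.Agent.Y421.RB.Q_apply, ← hz, ← hθ]; exact cN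
    exact h1.comp x (Pool.Agent.Y421.RB.Q).contDiff.contDiffAt
  have hP3 : ContDiffAt ℝ ∞ (fun x : E4 => (EuclideanSpace.proj (3 : Fin 4) : E4 →L[ℝ] ℝ) x) x :=
    (EuclideanSpace.proj (3 : Fin 4) : E4 →L[ℝ] ℝ).contDiff.contDiffAt
  refine ⟨hP3.smul hgQ, ?_⟩
  have hgd : HasFDerivAt (fun q : ℝ × ℂ => nor N₁ N₂ q.1 q.2) n' (Pool.Agent.Y421.RB.Q x) := by
    rw [Pool.Agent.Y421.RB.Q_apply, ← hz, ← hθ]; exact hn'
  have hder := ((EuclideanSpace.proj (3 : Fin 4) : E4 →L[ℝ] ℝ).hasFDerivAt (x := x)).smul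
    (hgd.comp x (Pool.Agent.Y421.RB.Q).hasFDerivAt)
  have hcm : fderiv ℝ (cE N₁ N₂) x = _ := hder.fderiv
  have hval : ∀ v, fderiv ℝ (cE N₁ N₂) x v = x 3 • n' (Pool.Agent.Y421.RB.Q v) + v 3 • n := by
    intro v
    rw [hcm, hn, hz, hθ]
    rfl
  rw [Pool.Agent.Y421.RB.det_eq, hval, hval, hval, hval, Pool.Agent.Y421.RB.Q0,
    Pool.Agent.Y421.RB.Q1, Pool.Agent.Y421.RB.Q2, Pool.Agent.Y421.RB.Q3]
  have e0 : (EuclideanSpace.single (0 : Fin 4) (1 : ℝ)) 3 = 0 := by simp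
  have e1 : (EuclideanSpace.single (1 : Fin 4) (1 : ℝ)) 3 = 0 := by simp
  have e2 : (EuclideanSpace.single (2 : Fin 4) (1 : ℝ)) 3 = 0 := by simp
  have e3 : (EuclideanSpace.single (3 : Fin 4) (1 : ℝ)) 3 = 1 := by simp
  have e4 : n' ((0 : ℝ), (0 : ℂ)) = 0 := map_zero n'
  rw [e0, e1, e2, e3, e4, zero_smul, add_zero, add_zero, add_zero, smul_zero, zero_add, one_smul,
    Pool.Agent.Y421.RB.det_scale, abs_mul, abs_pow]
  congr 1
  have J := Pool.Agent.Y475.RB.jac (d1 φ 1 z) (d1 φ Complex.I z) n m n (n' (0, 1))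
    (n' (0, Complex.I)) m (n' (0, 1)) (n' (0, Complex.I)) (n' (1, 0)) 0 0 0 1 hn1 hm1 hn1 hnm
    (hnt 1) (hnt Complex.I) (hmt 1) (hmt Complex.I) (hnn 1) (hnn Complex.I) (one_smul _ _).symm
    (by rw [zero_smul, add_zero]) (by rw [zero_smul, add_zero])
    (by rw [zero_smul, add_zero, hn'1]) (hnn 1) (hnn Complex.I) (by rw [hn'1]; exact hnm)
  have hsym : sff φ n Complex.I 1 z = sff φ n 1 Complex.I z := by
    unfold sff
    rw [Pool.Agent.Y640.RB.sym φ z cφ Complex.I 1]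
  rw [hbw, hbw, hbw, hbw, hsym] at J
  have hFpos : 0 < fffDet φ z := Pool.Agent.Y503.RB.fffDet_pos (hP.imm _ hx)
  have hF1 : ⟪d1 φ 1 z, d1 φ 1 z⟫ * ⟪d1 φ Complex.I z, d1 φ Complex.I z⟫ -
      ⟪d1 φ 1 z, d1 φ Complex.I z⟫ ^ 2 = fffDet φ z := rfl
  have hE1 : -sff φ n 1 1 z * -sff φ n Complex.I Complex.I z -
      -sff φ n 1 Complex.I z * -sff φ n 1 Complex.I z = kdet φ n z := by
    unfold kdet
    ring
  rw [hF1, hE1, one_pow, one_mul] at J
  obtain ⟨Δ, hΔ⟩ : ∃ Δ, Δ = (cols (n' (0, 1)) (n' (0, Complex.I)) (n' (1, 0)) n).det := ⟨_, rfl⟩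
  rw [← hΔ] at J ⊢
  have hs0 : 0 < √(fffDet φ z) := Real.sqrt_pos.mpr hFpos
  rw [eq_div_iff hs0.ne']
  have h1 : (|Δ| * √(fffDet φ z)) ^ 2 = |kdet φ n z| ^ 2 := by
    rw [mul_pow, sq_abs, sq_abs, Real.sq_sqrt hFpos.le]
    exact J
  exact (sq_eq_sq₀ (by positivity) (abs_nonneg _)).mp h1

end Pool.Agent.N503.ML
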