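import Mathlib
import Pool.Agent.N503.MLDef

/-!
Area formula for the upper part of the Gauss map.
-/

set_option autoImplicit false

namespace Pool.Agent.N503.ML

open scoped ContDiff RealInnerProductSpace ENNReal Topology
open MeasureTheory Set Metric
open Pool.Agent.Y503.RB

/-- Decomposition into countably many pieces on which a local diffeomorphism is injective. -/
theorem pieces (F : E4 → E4) (R : Set E4) (hR : IsOpen R) (hF : ContDiffOn ℝ ∞ F R)
    (hd : ∀ x ∈ R, (fderiv ℝ F x).det ≠ 0) (A : Set E4) (hA : MeasurableSet A) (hAR : A ⊆ R) :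
    ∃ D : ℕ → Set E4, (∀ i, MeasurableSet (D i) ∧ InjOn F (D i) ∧
      MeasurableSet (F '' D i) ∧ volume (F '' D i) =
        ∫⁻ x in D i, ENNReal.ofReal |(fderiv ℝ F x).det|) ∧
      Pairwise (Function.onFun Disjoint D) ∧ ⋃ i, D i = A := by
  classical
  have hloc : ∀ x ∈ R, ∃ W : Set E4, IsOpen W ∧ x ∈ W ∧ W ⊆ R ∧ InjOn F W := by
    intro x hx
    have h1 : ContDiffAt ℝ ∞ F x := hF.contDiffAt (hR.mem_nhds hx)
    have h2 : ContDiffAt ℝ 1 F x := h1.of_le (by exact_mod_cast le_top)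
    have h3 : HasStrictFDerivAt F (fderiv ℝ F x) x := h2.hasStrictFDerivAt (by norm_num)
    let e : E4 ≃L[ℝ] E4 := (fderiv ℝ F x).toContinuousLinearEquivOfDetNeZero (hd x hx)
    have he : (e : E4 →L[ℝ] E4) = fderiv ℝ F x := by
      ext1 v
      rfl
    have h5 : HasStrictFDerivAt F (e : E4 →L[ℝ] E4) x := by rw [he]; exact h3
    let p := h5.toOpenPartialHomeomorph F
    refine ⟨p.source ∩ R, p.open_source.inter hR, ⟨h5.mem_toOpenPartialHomeomorph_source, hx⟩,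
      inter_subset_right, ?_⟩
    have h6 : InjOn p p.source := p.injOn
    exact fun a ha b hb hab => h6 ha.1 hb.1 hab
  choose! W hWo hxW hWR hWi using hloc
  obtain ⟨t, htR, htc, htU⟩ := TopologicalSpace.countable_cover_nhdsWithin
    (f := W) (s := R) (fun x hx => mem_nhdsWithin_of_mem_nhds ((hWo x hx).mem_nhds (hxW x hx)))
  rcases t.eq_empty_or_nonempty with he | hne
  · have hRe : R = ∅ := by
      rw [he] at htU
      simpa using htU
    have hAe : A = ∅ := by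
      rw [hRe] at hAR
      exact subset_empty_iff.mp hAR
    refine ⟨fun _ => ∅, fun i => ⟨MeasurableSet.empty, injOn_empty _, by simp, by simp⟩,
      fun i j _ => disjoint_bot_left, by simp [hAe]⟩
  obtain ⟨f, hf⟩ := htc.exists_eq_range hne
  let O : ℕ → Set E4 := fun i => W (f i)
  have hfR : ∀ i, f i ∈ R := fun i => htR (by rw [hf]; exact mem_range_self i)
  have hOo : ∀ i, IsOpen (O i) := fun i => hWo _ (hfR i)
  have hOi : ∀ i, InjOn F (O i) := fun i => hWi _ (hfR i)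
  have hOR : ∀ i, O i ⊆ R := fun i => hWR _ (hfR i)
  have hcov : R ⊆ ⋃ i, O i := by
    intro x hx
    obtain ⟨y, hy, hxy⟩ := mem_iUnion₂.mp (htU hx)
    rw [hf] at hy
    obtain ⟨i, rfl⟩ := hy
    exact mem_iUnion.mpr ⟨i, hxy⟩
  let D : ℕ → Set E4 := fun i => A ∩ disjointed O i
  have hDm : ∀ i, MeasurableSet (D i) := fun i =>
    hA.inter (MeasurableSet.disjointed (fun j => (hOo j).measurableSet) i)
  have hDO : ∀ i, D i ⊆ O i := fun i => inter_subset_right.trans (disjointed_subset O i)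
  have hDd : Pairwise (Function.onFun Disjoint D) := fun i j hij =>
    (disjoint_disjointed O hij).mono inter_subset_right inter_subset_right
  have hDU : ⋃ i, D i = A := by
    rw [← inter_iUnion, iUnion_disjointed]
    exact inter_eq_left.mpr (hAR.trans hcov)
  have hFD : ∀ i, ∀ x ∈ D i, HasFDerivWithinAt F (fderiv ℝ F x) (D i) x := by
    intro i x hx
    have h1 : ContDiffAt ℝ ∞ F x := hF.contDiffAt (hR.mem_nhds (hOR i (hDO i hx)))
    exact (h1.differentiableAt (by simp)).hasFDerivAt.hasFDerivWithinAt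
  have hFm : ∀ i, MeasurableSet (F '' D i) := fun i =>
    (hDm i).image_of_continuousOn_injOn
      (hF.continuousOn.mono ((hDO i).trans (hOR i))) ((hOi i).mono (hDO i))
  exact ⟨D, fun i => ⟨hDm i, (hOi i).mono (hDO i), hFm i,
    (lintegral_abs_det_fderiv_eq_addHaar_image volume (hDm i) (hFD i)
      ((hOi i).mono (hDO i))).symm⟩, hDd, hDU⟩

variable {φ N₁ N₂ : ℂ → E4} {U : Set ℂ}

theorem c_d1 (h : IPatch φ U) (v : ℂ) : ContinuousOn (fun z => d1 φ v z) U := by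
  have h1 : ContinuousOn (fun z => fderiv ℝ φ z) U :=
    h.smooth.continuousOn_fderiv_of_isOpen h.isOpen (by simp)
  exact h1.clm_apply continuousOn_const

theorem c_d2 (h : IPatch φ U) (u v : ℂ) : ContinuousOn (fun z => d2 φ u v z) U := by
  have h1 : ContDiffOn ℝ ∞ (fun z => fderiv ℝ φ z) U :=
    h.smooth.fderiv_of_isOpen h.isOpen (by simp)
  have h2 : ContDiffOn ℝ ∞ (fun z => fderiv ℝ φ z v) U := h1.clm_apply contDiffOn_const
  have h3 : ContinuousOn (fun z => fderiv ℝ (fun w => fderiv ℝ φ w v) z) U :=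
    h2.continuousOn_fderiv_of_isOpen h.isOpen (by simp)
  exact h3.clm_apply continuousOn_const

theorem c_sff (h : IPatch φ U) (hF : Frame φ N₁ N₂ U) (u v : ℂ) :
    ContinuousOn (fun q : ℝ × ℂ => sff φ (nor N₁ N₂ q.1 q.2) u v q.2) (univ ×ˢ U) := by
  unfold sff
  exact (Pool.Agent.Y349.RB.c_nor hF).inner (Pool.Agent.Y349.RB.c_snd (c_d2 h u v))

theorem c_kdet (h : IPatch φ U) (hF : Frame φ N₁ N₂ U) :
    ContinuousOn (fun q : ℝ × ℂ => kdet φ (nor N₁ N₂ q.1 q.2) q.2) (univ ×ˢ U) := by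
  unfold kdet
  exact ((c_sff h hF 1 1).mul (c_sff h hF Complex.I Complex.I)).sub
    ((c_sff h hF 1 Complex.I).pow 2)

theorem c_fffDet (h : IPatch φ U) : ContinuousOn (fun z => fffDet φ z) U := by
  unfold fffDet fff
  exact (((c_d1 h 1).inner (c_d1 h 1)).mul
    ((c_d1 h Complex.I).inner (c_d1 h Complex.I))).sub
      (((c_d1 h 1).inner (c_d1 h Complex.I)).pow 2)

theorem c_dens (h : IPatch φ U) (hF : Frame φ N₁ N₂ U) :
    ContinuousOn (fun q : ℝ × ℂ => kdet φ (nor N₁ N₂ q.1 q.2) q.2 / √(fffDet φ q.2))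
      (univ ×ˢ U) :=
  ContinuousOn.div (c_kdet h hF) (Pool.Agent.Y349.RB.c_snd (c_fffDet h)).sqrt fun _ hq =>
    (Real.sqrt_pos.2 (Pool.Agent.Y503.RB.fffDet_pos (h.imm _ hq.2))).ne'

theorem isOpen_cap (h : IPatch φ U) (hF : Frame φ N₁ N₂ U) :
    IsOpen {q : ℝ × ℂ | q.2 ∈ U ∧ Cap φ (nor N₁ N₂ q.1 q.2) q.2} := by
  have hU : IsOpen ((univ : Set ℝ) ×ˢ U) := isOpen_univ.prod h.isOpen
  have h3 : ContinuousOn (fun q : ℝ × ℂ => (nor N₁ N₂ q.1 q.2) 3) (univ ×ˢ U) :=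
    (EuclideanSpace.proj (3 : Fin 4) : E4 →L[ℝ] ℝ).continuous.comp_continuousOn
      (Pool.Agent.Y349.RB.c_nor hF)
  have e : {q : ℝ × ℂ | q.2 ∈ U ∧ Cap φ (nor N₁ N₂ q.1 q.2) q.2} =
      (((univ : Set ℝ) ×ˢ U ∩ (fun q : ℝ × ℂ => (nor N₁ N₂ q.1 q.2) 3) ⁻¹' Ioi 0) ∩
      ((univ : Set ℝ) ×ˢ U ∩ (fun q : ℝ × ℂ => sff φ (nor N₁ N₂ q.1 q.2) 1 1 q.2) ⁻¹' Iio 0)) ∩
      ((univ : Set ℝ) ×ˢ U ∩ (fun q : ℝ × ℂ => kdet φ (nor N₁ N₂ q.1 q.2) q.2) ⁻¹' Ioi 0) := by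
    ext q
    simp only [mem_ofPred_eq, Cap, mem_inter_iff, mem_prod, mem_univ, true_and, mem_preimage,
      mem_Ioi, mem_Iio]
    tauto
  rw [e]
  exact ((h3.isOpen_inter_preimage hU isOpen_Ioi).inter
    ((c_sff h hF 1 1).isOpen_inter_preimage hU isOpen_Iio)).inter
      ((c_kdet h hF).isOpen_inter_preimage hU isOpen_Ioi)

/-- The region of upper caps. -/
def regE (φ N₁ N₂ : ℂ → E4) (U : Set ℂ) : Set E4 :=
  {x | zc x ∈ U ∧ Cap φ (nor N₁ N₂ (x 2) (zc x)) (zc x) ∧ x 3 ∈ Ioo 0 1}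

theorem isOpen_regE (h : IPatch φ U) (hF : Frame φ N₁ N₂ U) : IsOpen (regE φ N₁ N₂ U) := by
  have h1 := (isOpen_cap h hF).preimage continuous_coord
  have h2 : IsOpen {x : E4 | x 3 ∈ Ioo (0 : ℝ) 1} :=
    isOpen_Ioo.preimage (by fun_prop : Continuous fun x : E4 => x 3)
  have e : regE φ N₁ N₂ U = ((fun x : E4 => (x 2, zc x)) ⁻¹'
      {q : ℝ × ℂ | q.2 ∈ U ∧ Cap φ (nor N₁ N₂ q.1 q.2) q.2}) ∩
      {x : E4 | x 3 ∈ Ioo (0 : ℝ) 1} := by
    ext x
    simp only [regE, mem_ofPred_eq, mem_inter_iff, mem_preimage]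
    tauto
  rw [e]
  exact h1.inter h2

theorem aemeasurable_densE (h : IPatch φ U) (hF : Frame φ N₁ N₂ U) :
    AEMeasurable (fun q : ℝ × ℂ => ENNReal.ofReal (densE φ (nor N₁ N₂ q.1 q.2) q.2))
      (volume.restrict (Ico 0 (2 * Real.pi) ×ˢ U)) := by
  have hU : IsOpen ((univ : Set ℝ) ×ˢ U) := isOpen_univ.prod h.isOpen
  have hm : AEMeasurable (fun q : ℝ × ℂ => densE φ (nor N₁ N₂ q.1 q.2) q.2)
      (volume.restrict ((univ : Set ℝ) ×ˢ U)) := by
    have h4 : AEMeasurable (fun q : ℝ × ℂ => kdet φ (nor N₁ N₂ q.1 q.2) q.2 / √(fffDet φ q.2))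
        (volume.restrict ((univ : Set ℝ) ×ˢ U)) := (c_dens h hF).aemeasurable hU.measurableSet
    have h5 := h4.indicator (isOpen_cap h hF).measurableSet
    refine h5.congr ?_
    filter_upwards [ae_restrict_mem hU.measurableSet] with q hq
    have hq2 : q.2 ∈ U := hq.2
    by_cases hi : Cap φ (nor N₁ N₂ q.1 q.2) q.2
    · rw [indicator_of_mem (by exact ⟨hq2, hi⟩)]
      simp [densE, hi]
    · rw [indicator_of_notMem (by exact fun h => hi h.2)]
      simp [densE, hi]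
  exact (hm.mono_measure (Measure.restrict_mono (prod_mono (subset_univ _) subset_rfl)
    le_rfl)).ennreal_ofReal

/-- `z` is a critical point of the function `⟨y, φ⟩` with negative definite second derivative, and
`y` points upwards. -/
def CritCap (φ : ℂ → E4) (y : E4) (z : ℂ) : Prop :=
  (∀ v : ℂ, ⟪y, d1 φ v z⟫ = 0) ∧ Cap φ y z

theorem sff_smul (φ : ℂ → E4) (r : ℝ) (n : E4) (u v z : ℂ) :
    sff φ (r • n) u v z = r * sff φ n u v z := by
  unfold sff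
  rw [real_inner_smul_left]

theorem kdet_smul (φ : ℂ → E4) (r : ℝ) (n : E4) (z : ℂ) :
    kdet φ (r • n) z = r ^ 2 * kdet φ n z := by
  unfold kdet
  rw [sff_smul, sff_smul, sff_smul]
  ring

theorem cap_smul {φ : ℂ → E4} {r : ℝ} (hr : 0 < r) {n : E4} {z : ℂ} :
    Cap φ (r • n) z ↔ Cap φ n z := by
  unfold Cap
  rw [sff_smul, kdet_smul]
  have h1 : (r • n) 3 = r * n 3 := rfl
  have h2 : ∀ s : ℝ, r * s < 0 ↔ s < 0 := fun s => ⟨fun h => by
    by_contra hc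
    push Not at hc
    have := mul_nonneg hr.le hc
    linarith, fun h => mul_neg_of_pos_of_neg hr h⟩
  rw [h1, mul_pos_iff_of_pos_left hr, h2,
    mul_pos_iff_of_pos_left (by positivity : 0 < r ^ 2)]

theorem critCap_smul {φ : ℂ → E4} {r : ℝ} (hr : 0 < r) {n : E4} {z : ℂ} :
    CritCap φ (r • n) z ↔ CritCap φ n z := by
  unfold CritCap
  rw [cap_smul hr]
  refine and_congr_left fun _ => forall_congr' fun v => ?_
  rw [real_inner_smul_left, mul_eq_zero, or_iff_right hr.ne']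

/-- The area formula: the sheets of the upper Gauss map. -/
def Sheets (φ : ℂ → E4) (A : Set ℂ) : Prop :=
  ∃ (ι : Type) (_ : Countable ι) (E : ι → Set E4) (ζ : ι → E4 → ℂ),
    (∀ i, MeasurableSet (E i)) ∧
    (∀ i, ∀ y ∈ E i, y ∈ ball (0 : E4) 1 ∧ ζ i y ∈ A ∧ CritCap φ y (ζ i y)) ∧
    (∀ i j, i ≠ j → ∀ y, y ∈ E i → y ∈ E j → ζ i y ≠ ζ j y) ∧
    (∀ y ∈ ball (0 : E4) 1, ∀ z ∈ A, CritCap φ y z → ∃ i, y ∈ E i ∧ ζ i y = z) ∧
    ∑' i, volume (E i) = ENNReal.ofReal (1 / 4) * ∫⁻ z in A, curvE φ z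

theorem cE_facts (hF : Frame φ N₁ N₂ U) {x : E4} (hx : x ∈ regE φ N₁ N₂ U) :
    ‖cE N₁ N₂ x‖ = x 3 ∧ CritCap φ (cE N₁ N₂ x) (zc x) := by
  obtain ⟨h1, h2, h3⟩ := hx
  have hn := Pool.Agent.Y692.RB.nor_norm hF h1 (x 2)
  constructor
  · unfold cE
    rw [norm_smul, hn, mul_one, Real.norm_eq_abs, abs_of_pos h3.1]
  · unfold cE
    rw [critCap_smul h3.1]
    exact ⟨fun v => Pool.Agent.Y692.RB.nor_tan hF h1 (x 2) v, h2⟩

/-- injectivity of `zc` on the fibres -/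
theorem fibre_inj (hF : Frame φ N₁ N₂ U) {x x' : E4} (hx : x ∈ regE φ N₁ N₂ U)
    (hx' : x' ∈ regE φ N₁ N₂ U) (h2 : x 2 ∈ Ico 0 (2 * Real.pi))
    (h2' : x' 2 ∈ Ico 0 (2 * Real.pi)) (h : cE N₁ N₂ x = cE N₁ N₂ x') (hz : zc x = zc x') :
    x = x' := by
  have h3 : x 3 = x' 3 := by
    rw [← (cE_facts hF hx).1, ← (cE_facts hF hx').1, h]
  have hn : nor N₁ N₂ (x 2) (zc x) = nor N₁ N₂ (x' 2) (zc x) := by
    have h4 : x 3 • nor N₁ N₂ (x 2) (zc x) = x 3 • nor N₁ N₂ (x' 2) (zc x) := by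
      have : cE N₁ N₂ x' = x 3 • nor N₁ N₂ (x' 2) (zc x) := by
        unfold cE; rw [h3, hz]
      rw [← this, ← h]
      rfl
    exact smul_right_injective E4 hx.2.2.1.ne' h4
  have hin := Pool.Agent.Y692.RB.nor_inner hF hx.1 (x 2) (x' 2)
  rw [← hn, Pool.Agent.Y692.RB.inner_self_one (Pool.Agent.Y692.RB.nor_norm hF hx.1 (x 2)),
    ← Real.cos_sub] at hin
  have hθ : x 2 = x' 2 := by
    have h5 := hin.symm
    rw [Real.cos_eq_one_iff] at h5
    obtain ⟨k, hk⟩ := h5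
    have hpi := Real.pi_pos
    have h6 : (-1 : ℝ) < k := by
      by_contra hc
      push Not at hc
      nlinarith [h2.1, h2.2, h2'.1, h2'.2]
    have h7 : (k : ℝ) < 1 := by
      by_contra hc
      push Not at hc
      nlinarith [h2.1, h2.2, h2'.1, h2'.2]
    have h8 : k = 0 := by
      have h9 : (-1 : ℤ) < k := by exact_mod_cast h6
      have h10 : k < 1 := by exact_mod_cast h7
      omega
    rw [h8] at hk
    simp at hk
    linarith
  have hre := congrArg Complex.re hz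
  have him := congrArg Complex.im hz
  simp only [zc] at hre him
  ext i
  fin_cases i
  · exact hre
  · exact him
  · exact hθ
  · exact h3

theorem lint_eq (hP : IPatch φ U) (hF : Frame φ N₁ N₂ U) {A : Set ℂ} (hA : MeasurableSet A)
    (hAU : A ⊆ U) :
    MeasurableSet {x : E4 | x ∈ regE φ N₁ N₂ U ∧ zc x ∈ A ∧ x 2 ∈ Ico 0 (2 * Real.pi)} ∧
    ∫⁻ x in {x : E4 | x ∈ regE φ N₁ N₂ U ∧ zc x ∈ A ∧ x 2 ∈ Ico 0 (2 * Real.pi)},
      ENNReal.ofReal |(fderiv ℝ (cE N₁ N₂) x).det| =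
        ENNReal.ofReal (1 / 4) * ∫⁻ z in A, curvE φ z := by
  have hRo := isOpen_regE hP hF
  have hm : MeasurableSet ({x : E4 | x ∈ regE φ N₁ N₂ U ∧ zc x ∈ A ∧
      x 2 ∈ Ico 0 (2 * Real.pi)}) := by
    refine hRo.measurableSet.inter ((continuous_zc.measurable hA).inter
      (measurable_coord 2 measurableSet_Ico))
  have hS : MeasurableSet {x : E4 | zc x ∈ A ∧ x 2 ∈ Ico 0 (2 * Real.pi) ∧ x 3 ∈ Ioo (0 : ℝ) 1} := by
    refine (continuous_zc.measurable hA).inter ((measurable_coord 2 measurableSet_Ico).inter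
      (measurable_coord 3 measurableSet_Ioo))
  refine ⟨hm, ?_⟩
  have hae : AEMeasurable (fun q : ℝ × ℂ => ENNReal.ofReal (densE φ (nor N₁ N₂ q.1 q.2) q.2))
      (volume.restrict (Ico 0 (2 * Real.pi) ×ˢ A)) :=
    (aemeasurable_densE hP hF).mono_measure
      (Measure.restrict_mono (prod_mono subset_rfl hAU) le_rfl)
  have h1 := Pool.Agent.Y919.RB.FUB A
    (fun q : ℝ × ℂ => ENNReal.ofReal (densE φ (nor N₁ N₂ q.1 q.2) q.2)) hA hae
  have h2 : ∫⁻ z in A, ∫⁻ θ in Ico 0 (2 * Real.pi),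
      ENNReal.ofReal (densE φ (nor N₁ N₂ θ z) z) = ∫⁻ z in A, curvE φ z :=
    setLIntegral_congr_fun hA fun z hz => ind hP hF (hAU hz)
  rw [← h2, ← h1]
  set S : Set E4 := {x : E4 | zc x ∈ A ∧ x 2 ∈ Ico 0 (2 * Real.pi) ∧ x 3 ∈ Ioo (0 : ℝ) 1} with hSd
  set T : Set E4 := {x : E4 | x ∈ regE φ N₁ N₂ U ∧ zc x ∈ A ∧ x 2 ∈ Ico 0 (2 * Real.pi)} with hTd
  rw [← lintegral_inter_add_sdiff _ S hm]
  have hST : S ∩ T = T := by
    refine inter_eq_right.2 fun x hx => ?_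
    exact ⟨hx.2.1, hx.2.2, hx.1.2.2⟩
  have hz : ∫⁻ x in S \ T, ENNReal.ofReal (x 3 ^ 3) *
      ENNReal.ofReal (densE φ (nor N₁ N₂ (x 2) (zc x)) (zc x)) = 0 := by
    have h3 : ∫⁻ x in S \ T, ENNReal.ofReal (x 3 ^ 3) *
      ENNReal.ofReal (densE φ (nor N₁ N₂ (x 2) (zc x)) (zc x)) = ∫⁻ x in S \ T, 0 := by
      refine setLIntegral_congr_fun (hS.diff hm) fun x hx => ?_
      have h4 : ¬ Cap φ (nor N₁ N₂ (x 2) (zc x)) (zc x) := by
        intro h5
        exact hx.2 ⟨⟨hAU hx.1.1, h5, hx.1.2.2⟩, hx.1.1, hx.1.2.1⟩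
      simp [densE, h4]
    rw [h3]; simp
  rw [hz, add_zero, hST]
  refine setLIntegral_congr_fun hm ?_
  intro x hx
  have h2 := (cE_det hP hF hx.1.1).2
  have h3 : 0 < x 3 := hx.1.2.2.1
  beta_reduce
  have h4 : densE φ (nor N₁ N₂ (x 2) (zc x)) (zc x) =
      |kdet φ (nor N₁ N₂ (x 2) (zc x)) (zc x)| / √(fffDet φ (zc x)) := by
    have h5 := hx.1.2.1
    unfold densE
    rw [if_pos h5, abs_of_pos h5.2.2]
  rw [h2, h4, abs_of_pos h3, ENNReal.ofReal_mul (by positivity)]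

/-- One framed piece. -/
theorem sheets_piece (hP : IPatch φ U) (hF : Frame φ N₁ N₂ U) {A : Set ℂ} (hA : MeasurableSet A)
    (hAU : A ⊆ U) :
    ∃ (E : ℕ → Set E4) (ζ : ℕ → E4 → ℂ),
    (∀ i, MeasurableSet (E i)) ∧
    (∀ i, ∀ y ∈ E i, y ∈ ball (0 : E4) 1 ∧ ζ i y ∈ A ∧ CritCap φ y (ζ i y)) ∧
    (∀ i j, i ≠ j → ∀ y, y ∈ E i → y ∈ E j → ζ i y ≠ ζ j y) ∧
    (∀ y ∈ ball (0 : E4) 1, ∀ z ∈ A, CritCap φ y z → ∃ i, y ∈ E i ∧ ζ i y = z) ∧
    ∑' i, volume (E i) = ENNReal.ofReal (1 / 4) * ∫⁻ z in A, curvE φ z := by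
  classical
  have hRo := isOpen_regE hP hF
  have hsm : ContDiffOn ℝ ∞ (cE N₁ N₂) (regE φ N₁ N₂ U) := fun x hx =>
    (cE_det hP hF hx.1).1.contDiffWithinAt
  have hdet : ∀ x ∈ regE φ N₁ N₂ U, (fderiv ℝ (cE N₁ N₂) x).det ≠ 0 := by
    intro x hx h0
    have h1 := (cE_det hP hF hx.1).2
    rw [h0, abs_zero] at h1
    have h2 : 0 < |x 3| ^ 3 := by
      have := hx.2.2.1
      positivity
    have h3 : 0 < |kdet φ (nor N₁ N₂ (x 2) (zc x)) (zc x)| := abs_pos.2 hx.2.1.2.2.ne'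
    have h4 : 0 < √(fffDet φ (zc x)) :=
      Real.sqrt_pos.2 (Pool.Agent.Y503.RB.fffDet_pos (hP.imm _ hx.1))
    have : 0 < |x 3| ^ 3 * (|kdet φ (nor N₁ N₂ (x 2) (zc x)) (zc x)| / √(fffDet φ (zc x))) := by
      positivity
    linarith
  obtain ⟨hm, hint⟩ := lint_eq hP hF hA hAU
  obtain ⟨D, hD, hdis, hU⟩ := pieces (cE N₁ N₂) _ hRo hsm hdet _ hm (fun x hx => hx.1)
  have hDsub : ∀ i, ∀ x ∈ D i, x ∈ regE φ N₁ N₂ U ∧ zc x ∈ A ∧ x 2 ∈ Ico 0 (2 * Real.pi) := by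
    intro i x hx
    have : x ∈ ⋃ i, D i := mem_iUnion.2 ⟨i, hx⟩
    rw [hU] at this
    exact this
  refine ⟨fun i => cE N₁ N₂ '' D i, fun i y => zc (Function.invFunOn (cE N₁ N₂) (D i) y),
    fun i => (hD i).2.2.1, ?_, ?_, ?_, ?_⟩
  · intro i y hy
    have h1 : Function.invFunOn (cE N₁ N₂) (D i) y ∈ D i := Function.invFunOn_mem hy
    have h2 : cE N₁ N₂ (Function.invFunOn (cE N₁ N₂) (D i) y) = y := Function.invFunOn_eq hy
    obtain ⟨h3, h4, h5⟩ := hDsub i _ h1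
    obtain ⟨h6, h7⟩ := cE_facts hF h3
    rw [h2] at h6 h7
    refine ⟨?_, h4, h7⟩
    rw [mem_ball_zero_iff, h6]
    exact h3.2.2.2
  · intro i j hij y hi hj h
    have h1 : Function.invFunOn (cE N₁ N₂) (D i) y ∈ D i := Function.invFunOn_mem hi
    have h2 : cE N₁ N₂ (Function.invFunOn (cE N₁ N₂) (D i) y) = y := Function.invFunOn_eq hi
    have h3 : Function.invFunOn (cE N₁ N₂) (D j) y ∈ D j := Function.invFunOn_mem hj
    have h4 : cE N₁ N₂ (Function.invFunOn (cE N₁ N₂) (D j) y) = y := Function.invFunOn_eq hj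
    have h5 := fibre_inj hF (hDsub i _ h1).1 (hDsub j _ h3).1 (hDsub i _ h1).2.2
      (hDsub j _ h3).2.2 (h2.trans h4.symm) h
    have h6 := hdis hij
    rw [h5] at h1
    exact Set.disjoint_left.1 h6 h1 h3
  · intro y hy z hz hc
    have hy0 : 0 < ‖y‖ := by
      rw [norm_pos_iff]
      rintro rfl
      exact lt_irrefl _ hc.2.1
    have hyr : ‖y‖ • (‖y‖⁻¹ • y) = y := by
      rw [smul_smul, mul_inv_cancel₀ hy0.ne', one_smul]
    have hc' : CritCap φ (‖y‖⁻¹ • y) z := by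
      rw [← hyr, critCap_smul hy0] at hc
      exact hc
    obtain ⟨θ, hθ, hn⟩ := frame_unit hP hF (hAU hz) (n := ‖y‖⁻¹ • y)
      (by rw [norm_smul, norm_inv, norm_norm, inv_mul_cancel₀ hy0.ne']) hc'.1
    have hcE : cE N₁ N₂ (mk4 z θ ‖y‖) = y := by
      unfold cE
      rw [mk4_zc, mk4_two, mk4_three, ← hn, hyr]
    have hmem : mk4 z θ ‖y‖ ∈ ⋃ i, D i := by
      rw [hU]
      refine ⟨⟨?_, ?_, ?_⟩, ?_, ?_⟩
      · rw [mk4_zc]; exact hAU hz
      · rw [mk4_zc, mk4_two, ← hn]; exact hc'.2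
      · rw [mk4_three]; exact ⟨hy0, mem_ball_zero_iff.1 hy⟩
      · rw [mk4_zc]; exact hz
      · rw [mk4_two]; exact hθ
    obtain ⟨i, hi⟩ := mem_iUnion.1 hmem
    have hyE : y ∈ cE N₁ N₂ '' D i := ⟨_, hi, hcE⟩
    refine ⟨i, hyE, ?_⟩
    have h1 : Function.invFunOn (cE N₁ N₂) (D i) y ∈ D i := Function.invFunOn_mem hyE
    have h2 : cE N₁ N₂ (Function.invFunOn (cE N₁ N₂) (D i) y) = y := Function.invFunOn_eq hyE
    show zc (Function.invFunOn (cE N₁ N₂) (D i) y) = z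
    rw [(hD i).2.1 h1 hi (h2.trans hcE.symm), mk4_zc]
  · rw [← hint, ← hU, lintegral_iUnion (fun i => (hD i).1) hdis]
    exact tsum_congr fun i => (hD i).2.2.2

/-- Countably many framed open sets. -/
theorem framed_cover {φ : ℂ → E4} {U : Set ℂ} (hP : IPatch φ U) :
    ∃ (N₁ N₂ : ℕ → ℂ → E4) (V : ℕ → Set ℂ),
      (∀ j, IsOpen (V j) ∧ Frame φ (N₁ j) (N₂ j) (V j) ∧ V j ⊆ U) ∧ U ⊆ ⋃ j, V j := by
  rcases U.eq_empty_or_nonempty with hU | ⟨z₀, hz₀⟩
  · refine ⟨fun _ _ => 0, fun _ _ => 0, fun _ => ∅, ?_, by rw [hU]; exact empty_subset _⟩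
    intro j
    refine ⟨isOpen_empty, ?_, empty_subset _⟩
    exact ⟨by intro x hx; exact absurd hx (notMem_empty x),
      by intro x hx; exact absurd hx (notMem_empty x),
      fun z hz => absurd hz (notMem_empty z), fun z hz => absurd hz (notMem_empty z),
      fun z hz => absurd hz (notMem_empty z), fun z hz => absurd hz (notMem_empty z),
      fun z hz => absurd hz (notMem_empty z)⟩
  · choose V hVU hzV hVo M₁ M₂ hF using fun z : U => local_frame hP z.2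
    obtain ⟨T, hT, hTU⟩ := TopologicalSpace.isOpen_iUnion_countable V hVo
    have hcov : ∀ z : U, ∃ i ∈ T, (z : ℂ) ∈ V i := by
      intro z
      have h1 : (z : ℂ) ∈ ⋃ i, V i := mem_iUnion.2 ⟨z, hzV z⟩
      rw [← hTU] at h1
      simpa using h1
    have hTne : T.Nonempty := by
      obtain ⟨i, hi, -⟩ := hcov ⟨z₀, hz₀⟩
      exact ⟨i, hi⟩
    obtain ⟨f, hf⟩ := hT.exists_eq_range hTne
    refine ⟨fun j => M₁ (f j), fun j => M₂ (f j), fun j => V (f j),
      fun j => ⟨hVo _, hF _, hVU _⟩, ?_⟩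
    intro z hz
    obtain ⟨i, hi, hzi⟩ := hcov ⟨z, hz⟩
    rw [hf] at hi
    obtain ⟨j, rfl⟩ := hi
    exact mem_iUnion.2 ⟨j, hzi⟩

/-- For almost all `y` the critical points of `⟨y, φ⟩` are nondegenerate. -/
theorem sard {φ : ℂ → E4} {U : Set ℂ} (hP : IPatch φ U) :
    ∃ Z : Set E4, volume Z = 0 ∧ ∀ y ∉ Z, y ≠ 0 → ∀ z ∈ U, (∀ v : ℂ, ⟪y, d1 φ v z⟫ = 0) →
      kdet φ y z ≠ 0 := by
  obtain ⟨N₁, N₂, V, h, hU⟩ := framed_cover hP
  have hPj : ∀ j, IPatch φ (V j) := fun j =>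
    ⟨(h j).1, hP.smooth.mono (h j).2.2, fun z hz => hP.imm z ((h j).2.2 hz)⟩
  refine ⟨⋃ j, cE (N₁ j) (N₂ j) ''
    {x | zc x ∈ V j ∧ (fderiv ℝ (cE (N₁ j) (N₂ j)) x).det = 0}, ?_, ?_⟩
  · rw [measure_iUnion_null_iff]
    intro j
    refine addHaar_image_eq_zero_of_det_fderivWithin_eq_zero volume
      (f' := fun x => fderiv ℝ (cE (N₁ j) (N₂ j)) x) ?_ (fun x hx => hx.2)
    intro x hx
    exact (((cE_det (hPj j) (h j).2.1 hx.1).1.differentiableAt
      (by simp)).hasFDerivAt).hasFDerivWithinAt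
  · intro y hy hy0 z hz hc hk
    obtain ⟨j, hj⟩ := mem_iUnion.1 (hU hz)
    have hy0' : 0 < ‖y‖ := norm_pos_iff.2 hy0
    have hyr : ‖y‖ • (‖y‖⁻¹ • y) = y := by
      rw [smul_smul, mul_inv_cancel₀ hy0'.ne', one_smul]
    have hc' : ∀ v : ℂ, ⟪‖y‖⁻¹ • y, d1 φ v z⟫ = 0 := fun v => by
      rw [real_inner_smul_left, hc, mul_zero]
    obtain ⟨θ, hθ, hn⟩ := frame_unit (hPj j) (h j).2.1 hj (n := ‖y‖⁻¹ • y)
      (by rw [norm_smul, norm_inv, norm_norm, inv_mul_cancel₀ hy0'.ne']) hc'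
    apply hy
    refine mem_iUnion.2 ⟨j, mk4 z θ ‖y‖, ⟨by rw [mk4_zc]; exact hj, ?_⟩, ?_⟩
    · have h1 := (cE_det (hPj j) (h j).2.1 (x := mk4 z θ ‖y‖) (by rw [mk4_zc]; exact hj)).2
      rw [mk4_zc, mk4_two, mk4_three, ← hn, kdet_smul, hk, mul_zero, abs_zero, zero_div,
        mul_zero] at h1
      exact abs_eq_zero.1 h1
    · unfold cE
      rw [mk4_zc, mk4_two, mk4_three, ← hn, hyr]

/-- The area formula. -/
theorem sheets {φ : ℂ → E4} {U : Set ℂ} (hP : IPatch φ U) {A : Set ℂ} (hA : MeasurableSet A)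
    (hAU : A ⊆ U) : Sheets φ A := by
  classical
  have hcov := framed_cover hP
  obtain ⟨N₁, N₂, V, h, hU⟩ := hcov
  have hdm : ∀ j, MeasurableSet (disjointed V j) :=
    fun j => MeasurableSet.disjointed (fun i => (h i).1.measurableSet) j
  have hsub : ∀ j, A ∩ disjointed V j ⊆ V j := fun j =>
    inter_subset_right.trans (disjointed_subset V j)
  have hdisj : Pairwise (Function.onFun Disjoint fun j => A ∩ disjointed V j) := fun i j hij =>
    (disjoint_disjointed V hij).mono inter_subset_right inter_subset_right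
  have hUn : ⋃ j, A ∩ disjointed V j = A := by
    rw [← inter_iUnion, iUnion_disjointed]
    exact inter_eq_left.mpr (hAU.trans hU)
  have hPj : ∀ j, IPatch φ (V j) := fun j =>
    ⟨(h j).1, hP.smooth.mono (h j).2.2, fun z hz => hP.imm z ((h j).2.2 hz)⟩
  choose E ζ h1 h2 h3 h4 h5 using fun j =>
    sheets_piece (hPj j) (h j).2.1 (hA.inter (hdm j)) (hsub j)
  refine ⟨ℕ × ℕ, inferInstance, fun p => E p.1 p.2, fun p => ζ p.1 p.2, fun p => h1 _ _, ?_, ?_,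
    ?_, ?_⟩
  · intro p y hy
    obtain ⟨a, b, c⟩ := h2 p.1 p.2 y hy
    exact ⟨a, b.1, c⟩
  · intro p q hpq y hp hq he
    by_cases hj : p.1 = q.1
    · obtain ⟨p1, p2⟩ := p
      obtain ⟨q1, q2⟩ := q
      simp only at hj
      subst hj
      have : p2 ≠ q2 := fun h => hpq (by rw [h])
      exact h3 p1 p2 q2 this y hp hq he
    · have a := (h2 p.1 p.2 y hp).2.1
      have b := (h2 q.1 q.2 y hq).2.1
      have he' : ζ p.1 p.2 y = ζ q.1 q.2 y := he
      rw [he'] at a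
      exact Set.disjoint_left.1 (hdisj hj) a b
  · intro y hy z hz hc
    have : z ∈ ⋃ j, A ∩ disjointed V j := by rw [hUn]; exact hz
    obtain ⟨j, hj⟩ := mem_iUnion.1 this
    obtain ⟨i, hi, hi'⟩ := h4 j y hy z hj hc
    exact ⟨(j, i), hi, hi'⟩
  · rw [ENNReal.tsum_prod' (f := fun p : ℕ × ℕ => volume (E p.1 p.2))]
    have : ∀ j, ∑' i, volume (E j i) =
        ENNReal.ofReal (1 / 4) * ∫⁻ z in A ∩ disjointed V j, curvE φ z := h5
    simp_rw [this]
    rw [ENNReal.tsum_mul_left, ← lintegral_iUnion (fun j => hA.inter (hdm j)) hdisj, hUn]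

/-- The counting function of the sheets. -/
theorem counting {φ : ℂ → E4} {U : Set ℂ} (hP : IPatch φ U) {A : Set ℂ} (hA : MeasurableSet A)
    (hAU : A ⊆ U) :
    ∃ c : E4 → ℝ≥0∞, Measurable c ∧
      ∫⁻ y, c y = ENNReal.ofReal (1 / 4) * ∫⁻ z in A, curvE φ z ∧
      (∀ y ∈ ball (0 : E4) 1, ∀ s : Finset ℂ, (∀ z ∈ s, z ∈ A ∧ CritCap φ y z) →
        (s.card : ℝ≥0∞) ≤ c y) ∧
      (∀ y : E4, ∀ b : ℝ≥0∞, (∀ s : Finset ℂ, (∀ z ∈ s, z ∈ A ∧ CritCap φ y z) →
        (s.card : ℝ≥0∞) ≤ b) → c y ≤ b) ∧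
      (∀ y : E4, c y ≠ 0 → y ∈ ball (0 : E4) 1 ∧ 0 < y 3) := by
  classical
  obtain ⟨ι, hι, E, ζ, h1, h2, h3, h4, h5⟩ := sheets hP hA hAU
  refine ⟨fun y => ∑' i, (E i).indicator (fun _ => 1) y, ?_, ?_, ?_, ?_, ?_⟩
  · exact Measurable.tsum fun i => measurable_const.indicator (h1 i)
  · rw [lintegral_tsum (fun i => (measurable_const.indicator (h1 i)).aemeasurable), ← h5]
    refine tsum_congr fun i => ?_
    rw [lintegral_indicator (h1 i)]
    simp
  · intro y hy s hs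
    have hidx : ∀ z : ℂ, ∃ i : Option ι, z ∈ s → ∃ j, i = some j ∧ y ∈ E j ∧ ζ j y = z := by
      intro z
      by_cases hz : z ∈ s
      · obtain ⟨i, hi⟩ := h4 y hy z (hs z hz).1 (hs z hz).2
        exact ⟨some i, fun _ => ⟨i, rfl, hi⟩⟩
      · exact ⟨none, fun h => absurd h hz⟩
    choose idx hidx using hidx
    have hinj : InjOn idx (s : Set ℂ) := by
      intro a ha b hb hab
      obtain ⟨j, hj, -, hj2⟩ := hidx a ha
      obtain ⟨k, hk, -, hk2⟩ := hidx b hb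
      have : j = k := by
        rw [hab, hk] at hj
        exact (Option.some_injective _ hj).symm
      rw [← hj2, ← hk2, this]
    let t : Finset ι := (s.image idx).eraseNone
    have hcard : s.card = t.card := by
      rw [← Finset.card_image_of_injOn hinj]
      have hno : none ∉ s.image idx := by
        intro h
        obtain ⟨z, hz, hz'⟩ := Finset.mem_image.1 h
        obtain ⟨j, hj, -⟩ := hidx z hz
        rw [hz'] at hj
        exact absurd hj (by simp)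
      have : t.map Function.Embedding.some = s.image idx := by
        rw [Finset.map_some_eraseNone, Finset.erase_eq_of_notMem hno]
      rw [← this, Finset.card_map]
    calc (s.card : ℝ≥0∞) = ∑ i ∈ t, (1 : ℝ≥0∞) := by
          rw [Finset.sum_const, hcard]
          simp
      _ = ∑ i ∈ t, (E i).indicator (fun _ => (1 : ℝ≥0∞)) y := by
          refine Finset.sum_congr rfl fun i hi => ?_
          rw [indicator_of_mem]
          have h6 : some i ∈ s.image idx := by simpa [t] using hi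
          obtain ⟨z, hz, hz'⟩ := Finset.mem_image.1 h6
          obtain ⟨j, hj, hj1, -⟩ := hidx z hz
          rw [hz'] at hj
          rw [Option.some_injective _ hj]
          exact hj1
      _ ≤ ∑' i, (E i).indicator (fun _ => (1 : ℝ≥0∞)) y := ENNReal.sum_le_tsum _
  · intro y b hb
    show ∑' i, (E i).indicator (fun _ => (1 : ℝ≥0∞)) y ≤ b
    rw [ENNReal.tsum_eq_iSup_sum]
    refine iSup_le fun t => ?_
    have h6 : ∑ i ∈ t, (E i).indicator (fun _ => (1 : ℝ≥0∞)) y =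
        ((t.filter fun i => y ∈ E i).card : ℝ≥0∞) := by
      rw [Finset.card_filter, Nat.cast_sum]
      refine Finset.sum_congr rfl fun i _ => ?_
      by_cases h : y ∈ E i
      · simp [h]
      · simp [h]
    rw [h6]
    have hinj : InjOn (fun i => ζ i y) ((t.filter fun i => y ∈ E i : Finset ι) : Set ι) := by
      intro i hi j hj hij
      by_contra hne
      exact h3 i j hne y (Finset.mem_filter.1 hi).2 (Finset.mem_filter.1 hj).2 hij
    rw [← Finset.card_image_of_injOn hinj]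
    refine hb _ fun z hz => ?_
    obtain ⟨i, hi, rfl⟩ := Finset.mem_image.1 hz
    obtain ⟨-, a, b⟩ := h2 i y (Finset.mem_filter.1 hi).2
    exact ⟨a, b⟩
  · intro y hy
    have : ∃ i, y ∈ E i := by
      by_contra hc
      push Not at hc
      apply hy
      simp only
      rw [ENNReal.tsum_eq_zero]
      intro i
      rw [indicator_of_notMem (hc i)]
    obtain ⟨i, hi⟩ := this
    obtain ⟨a, -, c⟩ := h2 i y hi
    exact ⟨a, c.2.1⟩

end Pool.Agent.N503.ML
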