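import Mathlib
import Pool.Agent.N503.MLArea

/-!
Second derivatives of linear functions on a surface; half balls; discs in the half-space.
-/

set_option autoImplicit false

namespace Pool.Agent.N503.ML

open scoped ContDiff RealInnerProductSpace ENNReal Topology
open MeasureTheory Set Metric Filter
open Pool.Agent.Y503.RB

/-- The vertical unit vector. -/
noncomputable def vert : E4 := EuclideanSpace.single 3 1

theorem vert_three : vert 3 = 1 := by simp [vert]

theorem inner_vert (x : E4) : ⟪vert, x⟫ = x 3 := by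
  rw [vert, EuclideanSpace.inner_single_left]
  simp

theorem norm_vert : ‖vert‖ = 1 := by simp [vert]

/-- Smooth embedded disc in the half-space `x₃ ≥ 0` with boundary in the hyperplane `x₃ = 0`, vertical
near the boundary. -/
structure HalfDisc (φ : ℂ → E4) : Prop where
  smooth : ∃ W : Set ℂ, IsOpen W ∧ closedBall 0 1 ⊆ W ∧ ContDiffOn ℝ ∞ φ W
  inj : InjOn φ (closedBall 0 1)
  imm : ∀ z ∈ closedBall (0 : ℂ) 1, Function.Injective (fderiv ℝ φ z)
  inside : ∀ z ∈ ball (0 : ℂ) 1, 0 < φ z 3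
  bdry : ∀ z ∈ sphere (0 : ℂ) 1, φ z 3 = 0
  collar : ∃ δ c : ℝ, 0 < δ ∧ δ < 1 ∧ 0 < c ∧ ∀ z : ℂ, 1 - δ ≤ ‖z‖ → ‖z‖ ≤ 1 →
    φ z = φ (‖z‖⁻¹ • z) + (c * (1 - ‖z‖)) • vert

/-- The height `x₃` is a Morse function on the open disc with at most `m` local maxima. -/
structure MorseH (φ : ℂ → E4) (m : ℕ) : Prop where
  morse : ∀ z ∈ ball (0 : ℂ) 1, fderiv ℝ (fun w => φ w 3) z = 0 → ∀ u : ℂ,
    (∀ v : ℂ, fderiv ℝ (fderiv ℝ (fun w => φ w 3)) z u v = 0) → u = 0
  maxima : {z : ℂ | z ∈ ball (0 : ℂ) 1 ∧ IsLocalMax (fun w => φ w 3) z}.encard ≤ m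

theorem HalfDisc.patch {φ : ℂ → E4} (h : HalfDisc φ) : IPatch φ (ball 0 1) := by
  obtain ⟨W, hW, hsub, hs⟩ := h.smooth
  exact ⟨isOpen_ball, hs.mono (ball_subset_closedBall.trans hsub),
    fun z hz => h.imm z (ball_subset_closedBall hz)⟩

theorem HalfDisc.at {φ : ℂ → E4} (h : HalfDisc φ) {z : ℂ} (hz : z ∈ closedBall (0 : ℂ) 1) :
    ContDiffAt ℝ ∞ φ z := by
  obtain ⟨W, hW, hsub, hs⟩ := h.smooth
  exact hs.contDiffAt (hW.mem_nhds (hsub hz))

theorem d2_eq {φ : ℂ → E4} {z : ℂ} (h : ContDiffAt ℝ ∞ φ z) (u v : ℂ) :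
    d2 φ u v z = fderiv ℝ (fderiv ℝ φ) z u v := by
  have h1 := Pool.Agent.Y640.RB.diffFderiv h
  have h3 : HasFDerivAt (fun w => fderiv ℝ φ w v)
      ((fderiv ℝ (fderiv ℝ φ) z).flip v) z := by
    have h5 := h1.hasFDerivAt.clm_apply (hasFDerivAt_const v z)
    have h6 : (fderiv ℝ φ z ∘SL (0 : ℂ →L[ℝ] ℂ) + (fderiv ℝ (fderiv ℝ φ) z).flip v) =
        (fderiv ℝ (fderiv ℝ φ) z).flip v := by simp
    exact h6 ▸ h5
  unfold d2
  rw [h3.fderiv]
  rfl

/-- Derivatives of a linear function. -/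
theorem hess {φ : ℂ → E4} {z : ℂ} (h : ContDiffAt ℝ ∞ φ z) (y : E4) (T : ℝ) :
    (∀ v, fderiv ℝ (fun w => ⟪y, φ w⟫ + T) z v = ⟪y, d1 φ v z⟫) ∧
    (∀ u v, fderiv ℝ (fderiv ℝ (fun w => ⟪y, φ w⟫ + T)) z u v = sff φ y u v z) := by
  have h0 := Pool.Agent.Y640.RB.evDiff h
  have h1 := Pool.Agent.Y640.RB.diffFderiv h
  have hd : ∀ w, DifferentiableAt ℝ φ w → HasFDerivAt (fun w => ⟪y, φ w⟫ + T)
      ((innerSL ℝ y).comp (fderiv ℝ φ w)) w := fun w hw =>
    ((innerSL ℝ y).hasFDerivAt.comp w hw.hasFDerivAt).add_const T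
  refine ⟨fun v => ?_, fun u v => ?_⟩
  · rw [(hd z h0.self_of_nhds).fderiv]
    rfl
  · have h2 : fderiv ℝ (fun w => ⟪y, φ w⟫ + T) =ᶠ[𝓝 z]
        fun w => (innerSL ℝ y).comp (fderiv ℝ φ w) := h0.mono fun w hw => (hd w hw).fderiv
    rw [h2.fderiv_eq]
    have h3 : HasFDerivAt (fun w => (innerSL ℝ y).comp (fderiv ℝ φ w))
        (((ContinuousLinearMap.compL ℝ ℂ E4 ℝ) (innerSL ℝ y)).comp
          (fderiv ℝ (fderiv ℝ φ) z)) z :=
      ((ContinuousLinearMap.compL ℝ ℂ E4 ℝ) (innerSL ℝ y)).hasFDerivAt.comp z h1.hasFDerivAt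
    rw [h3.fderiv]
    unfold sff
    rw [d2_eq h]
    rfl

/-- The height is a linear function. -/
theorem height_eq (φ : ℂ → E4) : (fun w => φ w 3) = fun w => ⟪vert, φ w⟫ + 0 := by
  funext w
  rw [inner_vert, add_zero]

theorem sff_symm {φ : ℂ → E4} {z : ℂ} (h : ContDiffAt ℝ ∞ φ z) (n : E4) (u v : ℂ) :
    sff φ n u v z = sff φ n v u z := by
  unfold sff
  rw [Pool.Agent.Y640.RB.sym φ z h u v]

theorem sff_left {φ : ℂ → E4} {z : ℂ} (n : E4) (u v : ℂ) :
    sff φ n u v z = u.re * sff φ n 1 v z + u.im * sff φ n Complex.I v z := by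
  have h := d2_lin_left φ u.re u.im v z
  rw [Complex.re_add_im] at h
  unfold sff
  rw [h, inner_add_right, real_inner_smul_right, real_inner_smul_right]

theorem sff_quad {φ : ℂ → E4} {z : ℂ} (h : ContDiffAt ℝ ∞ φ z) (n : E4) (w : ℂ) :
    sff φ n w w z = w.re ^ 2 * sff φ n 1 1 z + 2 * w.re * w.im * sff φ n 1 Complex.I z +
      w.im ^ 2 * sff φ n Complex.I Complex.I z := by
  rw [sff_left n w w, sff_symm h n 1 w, sff_symm h n Complex.I w, sff_left n w 1,
    sff_left n w Complex.I, sff_symm h n Complex.I 1]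
  ring

theorem sff_neg {φ : ℂ → E4} {z : ℂ} (h : ContDiffAt ℝ ∞ φ z) {n : E4}
    (h1 : sff φ n 1 1 z < 0) (h2 : 0 < kdet φ n z) {w : ℂ} (hw : w ≠ 0) : sff φ n w w z < 0 := by
  rw [sff_quad h n w]
  unfold kdet at h2
  set e := sff φ n 1 1 z
  set f := sff φ n 1 Complex.I z
  set g := sff φ n Complex.I Complex.I z
  have h3 : e * (w.re ^ 2 * e + 2 * w.re * w.im * f + w.im ^ 2 * g) =
      (w.re * e + w.im * f) ^ 2 + w.im ^ 2 * (e * g - f ^ 2) := by ring
  by_cases hb : w.im = 0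
  · have ha : w.re ≠ 0 := fun ha => hw (Complex.ext ha hb)
    have : 0 < w.re ^ 2 := by positivity
    rw [hb]
    nlinarith
  · have h4 : 0 < w.im ^ 2 := by positivity
    have h5 : 0 < e * (w.re ^ 2 * e + 2 * w.re * w.im * f + w.im ^ 2 * g) := by
      rw [h3]
      have := mul_pos h4 h2
      have := sq_nonneg (w.re * e + w.im * f)
      linarith
    by_contra hc
    push Not at hc
    have := mul_nonpos_of_nonpos_of_nonneg h1.le hc
    linarith

theorem neg_of_semidef {φ : ℂ → E4} {z : ℂ} (h : ContDiffAt ℝ ∞ φ z) {n : E4}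
    (h1 : ∀ w, sff φ n w w z ≤ 0) (h2 : kdet φ n z ≠ 0) :
    sff φ n 1 1 z < 0 ∧ 0 < kdet φ n z := by
  have h3 := inner_of_semidef (e := -sff φ n 1 1 z) (f := -sff φ n 1 Complex.I z)
    (g := -sff φ n Complex.I Complex.I z) (fun a b => by
      have := h1 (⟨a, b⟩ : ℂ)
      rw [sff_quad h] at this
      simp only at this
      linarith) (by
      intro h4
      apply h2
      unfold kdet
      linarith)
  obtain ⟨a, b⟩ := h3
  refine ⟨by linarith, ?_⟩
  unfold kdet
  linarith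

theorem nondegE {φ : ℂ → E4} {z : ℂ} (h : ContDiffAt ℝ ∞ φ z) {n : E4} (hk : kdet φ n z ≠ 0)
    {u : ℂ} (hu : ∀ v, sff φ n u v z = 0) : u = 0 := by
  have h1 := hu 1
  have h2 := hu Complex.I
  rw [sff_left] at h1 h2
  rw [sff_symm h n Complex.I 1] at h1
  unfold kdet at hk
  set e := sff φ n 1 1 z
  set f := sff φ n 1 Complex.I z
  set g := sff φ n Complex.I Complex.I z
  have h3 : u.re * (e * g - f ^ 2) = 0 := by linear_combination g * h1 - f * h2
  have h4 : u.im * (e * g - f ^ 2) = 0 := by linear_combination e * h2 - f * h1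
  exact Complex.ext ((mul_eq_zero.1 h3).resolve_right hk) ((mul_eq_zero.1 h4).resolve_right hk)

/-- Upper half ball. -/
def HB : Set E4 := {y | y ∈ ball (0 : E4) 1 ∧ 0 < y 3}

theorem measurable_HB : MeasurableSet HB :=
  isOpen_ball.measurableSet.inter (measurable_coord 3 measurableSet_Ioi)

theorem vol_HB : volume HB = ENNReal.ofReal (Real.pi ^ 2 / 4) := by
  have h0 : volume {y : E4 | y 3 = 0} = 0 := by
    have h1 := Measure.addHaar_submodule (volume : Measure E4)
      (LinearMap.ker ((EuclideanSpace.proj (3 : Fin 4) : E4 →L[ℝ] ℝ) : E4 →ₗ[ℝ] ℝ)) (by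
        intro h
        have : vert ∈ LinearMap.ker ((EuclideanSpace.proj (3 : Fin 4) : E4 →L[ℝ] ℝ) : E4 →ₗ[ℝ] ℝ) := by
          rw [h]; trivial
        have h2 : vert 3 = 0 := this
        rw [vert_three] at h2
        exact one_ne_zero h2)
    convert h1 using 2
    ext y
    exact Iff.rfl
  have hneg : volume (-HB) = volume HB := Measure.measure_neg _ _
  have hdisj : Disjoint HB (-HB) := by
    rw [Set.disjoint_left]
    intro y h1 h2
    have h3 : 0 < (-y) 3 := h2.2
    have h4 : (-y) 3 = -(y 3) := rfl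
    rw [h4] at h3
    linarith [h1.2]
  have hball : volume (ball (0 : E4) 1) = volume HB + volume HB := by
    apply le_antisymm
    · calc volume (ball (0 : E4) 1) ≤ volume ((HB ∪ -HB) ∪ {y : E4 | y 3 = 0}) := by
            refine measure_mono fun y hy => ?_
            rcases lt_trichotomy (y 3) 0 with h | h | h
            · left; right
              refine ⟨?_, ?_⟩
              · rw [mem_ball_zero_iff, norm_neg]; exact mem_ball_zero_iff.1 hy
              · have h4 : (-y) 3 = -(y 3) := rfl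
                rw [h4]; linarith
            · right; exact h
            · left; left; exact ⟨hy, h⟩
        _ ≤ volume (HB ∪ -HB) + volume {y : E4 | y 3 = 0} := measure_union_le _ _
        _ ≤ volume HB + volume (-HB) + 0 := by
            rw [h0]
            exact add_le_add_left (measure_union_le _ _) _
        _ = _ := by rw [hneg, add_zero]
    · calc volume HB + volume HB = volume HB + volume (-HB) := by rw [hneg]
        _ = volume (HB ∪ -HB) := (measure_union hdisj measurable_HB.neg).symm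
        _ ≤ _ := by
            refine measure_mono (union_subset (fun y hy => hy.1) fun y hy => ?_)
            have := mem_ball_zero_iff.1 hy.1
            rw [norm_neg] at this
            exact mem_ball_zero_iff.2 this
  rw [volume_ball_E4, ← two_mul] at hball
  have h2 : ENNReal.ofReal (Real.pi ^ 2 / 2) = 2 * ENNReal.ofReal (Real.pi ^ 2 / 4) := by
    have : (2 : ℝ≥0∞) = ENNReal.ofReal 2 := by simp
    rw [this, ← ENNReal.ofReal_mul (by norm_num)]
    congr 1; ring
  rw [h2] at hball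
  exact ((ENNReal.mul_right_inj (by norm_num) (by norm_num)).1 hball).symm

end Pool.Agent.N503.ML
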