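import Mathlib
import Pool.Agent.N503.MLHess

/-!
Discs of small upper curvature.
-/

set_option autoImplicit false

namespace Pool.Agent.N503.ML

open scoped ContDiff RealInnerProductSpace ENNReal Topology
open MeasureTheory Set Metric Filter
open Pool.Agent.Y503.RB

/-- A good direction. -/
theorem direction {φ : ℂ → E4} (hP : IPatch φ (ball 0 1)) (m : ℕ)
    (hT : ∫⁻ z in ball (0 : ℂ) 1, curvE φ z < ENNReal.ofReal (Real.pi ^ 2 * (m + 1))) :
    ∃ y : E4, y 3 = 1 ∧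
      (∀ z ∈ ball (0 : ℂ) 1, (∀ v : ℂ, ⟪y, d1 φ v z⟫ = 0) → kdet φ y z ≠ 0) ∧
      ∀ s : Finset ℂ, (∀ z ∈ s, z ∈ ball (0 : ℂ) 1 ∧ CritCap φ y z) → s.card ≤ m := by
  obtain ⟨c, hc1, hc2, hc3, -, -⟩ := counting hP isOpen_ball.measurableSet subset_rfl
  obtain ⟨Z, hZ, hZ2⟩ := sard hP
  have hex : ∃ y ∈ HB, c y < ((m + 1 : ℕ) : ℝ≥0∞) ∧ y ∉ Z := by
    by_contra hcon
    push Not at hcon
    have h1 : volume HB ≤ volume {y | ((m + 1 : ℕ) : ℝ≥0∞) ≤ c y} := by
      calc volume HB ≤ volume ({y | ((m + 1 : ℕ) : ℝ≥0∞) ≤ c y} ∪ Z) := by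
            refine measure_mono fun y hy => ?_
            by_cases h : c y < ((m + 1 : ℕ) : ℝ≥0∞)
            · exact Or.inr (hcon y hy h)
            · exact Or.inl (not_lt.1 h)
        _ ≤ _ := by
            refine (measure_union_le _ _).trans ?_
            rw [hZ, add_zero]
    have h2 : ((m + 1 : ℕ) : ℝ≥0∞) * volume {y | ((m + 1 : ℕ) : ℝ≥0∞) ≤ c y} ≤ ∫⁻ y, c y :=
      mul_meas_ge_le_lintegral hc1 _
    rw [hc2] at h2
    have h3 : ENNReal.ofReal (1 / 4) * ∫⁻ z in ball (0 : ℂ) 1, curvE φ z <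
        ENNReal.ofReal (1 / 4) * ENNReal.ofReal (Real.pi ^ 2 * (m + 1)) := by
      refine ENNReal.mul_lt_mul_right ?_ ?_ hT
      · simp
      · exact ENNReal.ofReal_ne_top
    have h4 : ENNReal.ofReal (1 / 4) * ENNReal.ofReal (Real.pi ^ 2 * (m + 1)) =
        ((m + 1 : ℕ) : ℝ≥0∞) * ENNReal.ofReal (Real.pi ^ 2 / 4) := by
      rw [← ENNReal.ofReal_mul (by norm_num), ← ENNReal.ofReal_natCast,
        ← ENNReal.ofReal_mul (by positivity)]
      congr 1
      push_cast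
      ring
    rw [h4, ← vol_HB] at h3
    have h5 : ((m + 1 : ℕ) : ℝ≥0∞) * volume HB ≤
        ((m + 1 : ℕ) : ℝ≥0∞) * volume {y | ((m + 1 : ℕ) : ℝ≥0∞) ≤ c y} := mul_le_mul_right h1 _
    exact absurd (h5.trans h2) (not_le.mpr h3)
  obtain ⟨y, hy, hyc, hyZ⟩ := hex
  have hy3 : 0 < (y 3)⁻¹ := inv_pos.2 hy.2
  refine ⟨(y 3)⁻¹ • y, ?_, ?_, ?_⟩
  · show (y 3)⁻¹ * y 3 = 1
    exact inv_mul_cancel₀ hy.2.ne'
  · intro z hz hv
    rw [kdet_smul]
    refine mul_ne_zero (by positivity) (hZ2 y hyZ ?_ z hz fun v => ?_)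
    · rintro rfl
      exact lt_irrefl _ hy.2
    · have := hv v
      rw [real_inner_smul_left] at this
      exact (mul_eq_zero.1 this).resolve_left hy3.ne'
  · intro s hs
    have h1 := hc3 y hy.1 s fun z hz => ⟨(hs z hz).1, (critCap_smul hy3).1 (hs z hz).2⟩
    have h2 := h1.trans_lt hyc
    have h3 : s.card < m + 1 := by exact_mod_cast h2
    omega

/-- The map which makes the linear function `⟨y, ·⟩` the height. -/
noncomputable def lift (g : ℝ → ℝ) (T : ℝ) (q x : E4) : E4 :=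
  x + (g (x 3) * (T + ⟪q, x⟫)) • vert

theorem lift_three (g : ℝ → ℝ) (T : ℝ) (q x : E4) :
    lift g T q x 3 = x 3 + g (x 3) * (T + ⟪q, x⟫) := by
  have : lift g T q x 3 = x 3 + (g (x 3) * (T + ⟪q, x⟫)) * vert 3 := rfl
  rw [this, vert_three, mul_one]

theorem lift_inj {g : ℝ → ℝ} (hg : Monotone g) {T : ℝ} {q : E4} (hq : q 3 = 0) {x x' : E4}
    (hx : 0 < T + ⟪q, x⟫) (h : lift g T q x = lift g T q x') : x = x' := by
  have hqv : ⟪q, vert⟫ = 0 := by rw [real_inner_comm, inner_vert]; exact hq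
  have h1 : x - x' = (g (x' 3) * (T + ⟪q, x'⟫) - g (x 3) * (T + ⟪q, x⟫)) • vert := by
    unfold lift at h
    rw [sub_smul]
    have := sub_eq_zero.2 h
    rw [← sub_eq_zero]
    rw [← this]
    abel
  have h2 : ⟪q, x⟫ = ⟪q, x'⟫ := by
    have := congrArg (fun w => ⟪q, w⟫) h1
    simp only [inner_sub_right, inner_smul_right, hqv, mul_zero] at this
    linarith
  have h3 := congrArg (fun w : E4 => w 3) h
  simp only [lift_three] at h3
  rw [← h2] at h3
  have h4 : x 3 = x' 3 := by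
    rcases lt_trichotomy (x 3) (x' 3) with h5 | h5 | h5
    · have := mul_le_mul_of_nonneg_right (hg h5.le) hx.le
      linarith
    · exact h5
    · have := mul_le_mul_of_nonneg_right (hg h5.le) hx.le
      linarith
  have h5 : x - x' = 0 := by
    rw [h1, ← h2, ← h4, sub_self, zero_smul]
  exact sub_eq_zero.1 h5

theorem lift_deriv {g : ℝ → ℝ} (hg : Monotone g) (hgs : ContDiff ℝ ∞ g) {T : ℝ} {q : E4}
    (hq : q 3 = 0) {φ : ℂ → E4} {z : ℂ} (hs : ContDiffAt ℝ ∞ φ z) (hx : 0 < T + ⟪q, φ z⟫)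
    (hi : Function.Injective (fderiv ℝ φ z)) :
    (∀ v, fderiv ℝ (fun w => lift g T q (φ w)) z v = d1 φ v z +
      (deriv g (φ z 3) * (d1 φ v z) 3 * (T + ⟪q, φ z⟫) + g (φ z 3) * ⟪q, d1 φ v z⟫) • vert) ∧
    Function.Injective (fderiv ℝ (fun w => lift g T q (φ w)) z) := by
  have hd : DifferentiableAt ℝ φ z := hs.differentiableAt (by simp)
  have h3 : HasFDerivAt (fun w => φ w 3)
      ((EuclideanSpace.proj (3 : Fin 4) : E4 →L[ℝ] ℝ).comp (fderiv ℝ φ z)) z :=
    (EuclideanSpace.proj (3 : Fin 4) : E4 →L[ℝ] ℝ).hasFDerivAt.comp z hd.hasFDerivAt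
  have hgd : HasDerivAt g (deriv g (φ z 3)) (φ z 3) :=
    ((hgs.differentiable (by simp)) _).hasDerivAt
  have h4 : HasFDerivAt (fun w => g (φ w 3)) (deriv g (φ z 3) •
      ((EuclideanSpace.proj (3 : Fin 4) : E4 →L[ℝ] ℝ).comp (fderiv ℝ φ z))) z :=
    hgd.comp_hasFDerivAt z h3
  have h5 : HasFDerivAt (fun w => T + ⟪q, φ w⟫) ((innerSL ℝ q).comp (fderiv ℝ φ z)) z :=
    ((innerSL ℝ q).hasFDerivAt.comp z hd.hasFDerivAt).const_add T
  have h6 := hd.hasFDerivAt.add ((h4.mul h5).smul_const vert)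
  have h7 : ∀ v, fderiv ℝ (fun w => lift g T q (φ w)) z v = d1 φ v z +
      (deriv g (φ z 3) * (d1 φ v z) 3 * (T + ⟪q, φ z⟫) + g (φ z 3) * ⟪q, d1 φ v z⟫) • vert := by
    intro v
    have h8 : fderiv ℝ (fun w => lift g T q (φ w)) z = _ := h6.fderiv
    rw [h8]
    show d1 φ v z + (g (φ z 3) * ⟪q, d1 φ v z⟫ +
      (T + ⟪q, φ z⟫) * (deriv g (φ z 3) * (d1 φ v z) 3)) • vert = _
    congr 2
    ring
  refine ⟨h7, ?_⟩
  rw [injective_iff_map_eq_zero]
  intro v hv
  rw [h7] at hv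
  have hqv : ⟪q, vert⟫ = 0 := by rw [real_inner_comm, inner_vert]; exact hq
  have h8 : ⟪q, d1 φ v z⟫ = 0 := by
    have := congrArg (fun w => ⟪q, w⟫) hv
    simpa [inner_add_right, inner_smul_right, hqv] using this
  rw [h8, mul_zero, add_zero] at hv
  have h9 : (d1 φ v z) 3 * (1 + deriv g (φ z 3) * (T + ⟪q, φ z⟫)) = 0 := by
    have := congrArg (fun w : E4 => w 3) hv
    have e : (d1 φ v z + (deriv g (φ z 3) * (d1 φ v z) 3 * (T + ⟪q, φ z⟫)) • vert) 3 =
      (d1 φ v z) 3 + (deriv g (φ z 3) * (d1 φ v z) 3 * (T + ⟪q, φ z⟫)) * vert 3 := rfl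
    simp only [e, vert_three, mul_one] at this
    have e2 : (0 : E4) 3 = 0 := rfl
    rw [e2] at this
    linarith
  have h10 : 0 < 1 + deriv g (φ z 3) * (T + ⟪q, φ z⟫) := by
    have := mul_nonneg (hg.deriv_nonneg (x := φ z 3)) hx.le
    linarith
  have h11 : (d1 φ v z) 3 = 0 := (mul_eq_zero.1 h9).resolve_right h10.ne'
  rw [h11, mul_zero, zero_mul, zero_smul, add_zero] at hv
  exact hi (hv.trans (map_zero _).symm)

/-- Radial derivative in the collar. -/
theorem collar_deriv {φ : ℂ → E4} (h : HalfDisc φ) {δ c : ℝ} (hδ : δ < 1)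
    (hcol : ∀ z : ℂ, 1 - δ ≤ ‖z‖ → ‖z‖ ≤ 1 → φ z = φ (‖z‖⁻¹ • z) + (c * (1 - ‖z‖)) • vert)
    {z : ℂ} (h1 : 1 - δ < ‖z‖) (h2 : ‖z‖ < 1) : d1 φ z z = (-(c * ‖z‖)) • vert := by
  have hz0 : 0 < ‖z‖ := by linarith
  have hs := h.at (mem_closedBall_zero_iff.2 h2.le)
  have hd : DifferentiableAt ℝ φ z := hs.differentiableAt (by simp)
  have hl : HasDerivAt (fun s : ℝ => s • z) z 1 := by
    simpa using (hasDerivAt_id (1 : ℝ)).smul_const z
  have h3 : HasDerivAt (fun s : ℝ => φ (s • z)) (fderiv ℝ φ z z) 1 := by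
    have hd' : HasFDerivAt φ (fderiv ℝ φ z) ((1 : ℝ) • z) := by rw [one_smul]; exact hd.hasFDerivAt
    exact hd'.comp_hasDerivAt 1 hl
  have h4 : (fun s : ℝ => φ (s • z)) =ᶠ[𝓝 1]
      fun s : ℝ => φ (‖z‖⁻¹ • z) + (c * (1 - s * ‖z‖)) • vert := by
    have hc : ContinuousAt (fun s : ℝ => s * ‖z‖) 1 := by fun_prop
    have e1 : ∀ᶠ s : ℝ in 𝓝 1, 1 - δ < s * ‖z‖ := by
      have : (1 : ℝ) - δ < 1 * ‖z‖ := by rwa [one_mul]
      exact hc.eventually (lt_mem_nhds this)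
    have e2 : ∀ᶠ s : ℝ in 𝓝 1, s * ‖z‖ < 1 := by
      have : (1 : ℝ) * ‖z‖ < 1 := by rwa [one_mul]
      exact hc.eventually (gt_mem_nhds this)
    have e3 : ∀ᶠ s : ℝ in 𝓝 1, 0 < s := lt_mem_nhds one_pos
    filter_upwards [e1, e2, e3] with s g1 g2 g3
    have g4 : ‖s • z‖ = s * ‖z‖ := by rw [norm_smul, Real.norm_eq_abs, abs_of_pos g3]
    have g5 := hcol (s • z) (by rw [g4]; exact g1.le) (by rw [g4]; exact g2.le)
    rw [g5, g4, smul_smul]
    congr 3
    field_simp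
  have h5 : HasDerivAt (fun s : ℝ => φ (‖z‖⁻¹ • z) + (c * (1 - s * ‖z‖)) • vert)
      ((-(c * ‖z‖)) • vert) 1 := by
    have e1 : HasDerivAt (fun s : ℝ => c * (1 - s * ‖z‖)) (-(c * ‖z‖)) 1 := by
      have := (((hasDerivAt_id (1 : ℝ)).mul_const ‖z‖).const_sub 1).const_mul c
      simpa using this
    exact (e1.smul_const vert).const_add _
  exact h3.unique (h5.congr_of_eventuallyEq h4)

/-- **Discs of small upper curvature.** -/
theorem disc_of_curv {φ : ℂ → E4} (h : HalfDisc φ) (m : ℕ)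
    (hT : ∫⁻ z in ball (0 : ℂ) 1, curvE φ z < ENNReal.ofReal (Real.pi ^ 2 * (m + 1))) :
    ∃ ψ : ℂ → E4, HalfDisc ψ ∧ (∀ z ∈ sphere (0 : ℂ) 1, ψ z = φ z) ∧ MorseH ψ m := by
  obtain ⟨y, hy3, hyn, hyc⟩ := direction h.patch m hT
  set q : E4 := y - vert with hqd
  have hq : q 3 = 0 := by
    have : q 3 = y 3 - vert 3 := rfl
    rw [this, hy3, vert_three, sub_self]
  have hyq : ∀ x : E4, ⟪y, x⟫ = x 3 + ⟪q, x⟫ := by
    intro x
    rw [hqd, inner_sub_left, inner_vert]; ring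
  obtain ⟨W, hW, hWsub, hWs⟩ := h.smooth
  obtain ⟨δ, c, hδ, hδ1, hc, hcol⟩ := h.collar
  have hcont : ContinuousOn φ (closedBall 0 1) := hWs.continuousOn.mono hWsub
  -- the constant `T`
  obtain ⟨T, hT0⟩ : ∃ T : ℝ, ∀ z ∈ closedBall (0 : ℂ) 1, 0 < T + ⟪q, φ z⟫ := by
    have hc1 : ContinuousOn (fun z => ⟪q, φ z⟫) (closedBall 0 1) :=
      (innerSL ℝ q).continuous.comp_continuousOn hcont
    obtain ⟨z₁, -, hz₁⟩ := (isCompact_closedBall (0 : ℂ) 1).exists_isMinOn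
      ⟨0, by simp⟩ hc1
    refine ⟨1 - ⟪q, φ z₁⟫, fun z hz => ?_⟩
    have := hz₁ hz
    simp only [mem_ofPred_eq] at this
    linarith
  -- the height `t₀`
  obtain ⟨t₀, ht₀, ht₁⟩ : ∃ t₀ : ℝ, 0 < t₀ ∧ ∀ z : ℂ, ‖z‖ ≤ 1 - δ → t₀ ≤ φ z 3 := by
    have hc1 : ContinuousOn (fun z => φ z 3) (closedBall 0 (1 - δ)) :=
      (EuclideanSpace.proj (3 : Fin 4) : E4 →L[ℝ] ℝ).continuous.comp_continuousOn
        (hcont.mono (closedBall_subset_closedBall (by linarith)))
    obtain ⟨z₁, hz₁, hz₁'⟩ := (isCompact_closedBall (0 : ℂ) (1 - δ)).exists_isMinOn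
      ⟨0, by simp; linarith⟩ hc1
    refine ⟨φ z₁ 3, h.inside z₁ ?_, fun z hz => hz₁' (mem_closedBall_zero_iff.2 hz)⟩
    have := mem_closedBall_zero_iff.1 hz₁
    exact mem_ball_zero_iff.2 (by linarith)
  set g : ℝ → ℝ := fun t => Real.smoothTransition (4 / t₀ * t - 1) with hgd
  have hgm : Monotone g := fun a b hab => Real.smoothTransition.monotone (by
    have := mul_le_mul_of_nonneg_left hab (by positivity : 0 ≤ 4 / t₀)
    linarith)
  have hgs : ContDiff ℝ ∞ g := Real.smoothTransition.contDiff.comp (by fun_prop)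
  have hg0 : ∀ t, t ≤ t₀ / 4 → g t = 0 := fun t ht => Real.smoothTransition.zero_of_nonpos (by
    have : 4 / t₀ * t ≤ 1 := by
      rw [div_mul_eq_mul_div, div_le_one ht₀]; linarith
    linarith)
  have hg1 : ∀ t, t₀ / 2 ≤ t → g t = 1 := fun t ht => Real.smoothTransition.one_of_one_le (by
    have : 2 ≤ 4 / t₀ * t := by
      rw [div_mul_eq_mul_div, le_div_iff₀ ht₀]; linarith
    linarith)
  have hgn : ∀ t, 0 ≤ g t := fun t => Real.smoothTransition.nonneg _
  set ψ : ℂ → E4 := fun w => lift g T q (φ w) with hψ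
  have hψ3 : ∀ z, ψ z 3 = φ z 3 + g (φ z 3) * (T + ⟪q, φ z⟫) := fun z => lift_three _ _ _ _
  have hψeq : ∀ z, g (φ z 3) = 0 → ψ z = φ z := by
    intro z hz
    rw [hψ]
    show φ z + (g (φ z 3) * (T + ⟪q, φ z⟫)) • vert = φ z
    rw [hz, zero_mul, zero_smul, add_zero]
  have hsph : ∀ z ∈ sphere (0 : ℂ) 1, ψ z = φ z := fun z hz =>
    hψeq z (hg0 _ (by rw [h.bdry z hz]; positivity))
  refine ⟨ψ, ⟨?_, ?_, ?_, ?_, ?_, ?_⟩, hsph, ?_⟩
  · refine ⟨W, hW, hWsub, ?_⟩
    have e1 : ContDiffOn ℝ ∞ (fun w => φ w 3) W :=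
      (EuclideanSpace.proj (3 : Fin 4) : E4 →L[ℝ] ℝ).contDiff.comp_contDiffOn hWs
    have e2 : ContDiffOn ℝ ∞ (fun w => ⟪q, φ w⟫) W :=
      (innerSL ℝ q).contDiff.comp_contDiffOn hWs
    exact hWs.add (((hgs.comp_contDiffOn e1).mul (contDiffOn_const.add e2)).smul
      contDiffOn_const)
  · intro a ha b hb hab
    exact h.inj ha hb (lift_inj hgm hq (hT0 a ha) hab)
  · intro z hz
    exact (lift_deriv hgm hgs hq (h.at hz) (hT0 z hz) (h.imm z hz)).2
  · intro z hz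
    rw [hψ3]
    have := mul_nonneg (hgn (φ z 3)) (hT0 z (ball_subset_closedBall hz)).le
    linarith [h.inside z hz]
  · intro z hz
    rw [hsph z hz]
    exact h.bdry z hz
  · have hδ' : 0 < min δ (t₀ / (4 * c)) := lt_min hδ (by positivity)
    refine ⟨min δ (t₀ / (4 * c)), c, hδ', (min_le_left _ _).trans_lt hδ1, hc, ?_⟩
    intro z h1 h2
    have hz0 : 0 < ‖z‖ := by
      have := min_le_left δ (t₀ / (4 * c))
      linarith
    have h3 := hcol z (by have := min_le_left δ (t₀ / (4 * c)); linarith) h2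
    have hs1 : ‖z‖⁻¹ • z ∈ sphere (0 : ℂ) 1 := by
      rw [mem_sphere_zero_iff_norm, norm_smul, norm_inv, norm_norm, inv_mul_cancel₀ hz0.ne']
    rw [hsph _ hs1, ← h3]
    apply hψeq
    apply hg0
    have h4 : φ z 3 = c * (1 - ‖z‖) := by
      have := congrArg (fun w : E4 => w 3) h3
      have e : (φ (‖z‖⁻¹ • z) + (c * (1 - ‖z‖)) • vert) 3 =
        φ (‖z‖⁻¹ • z) 3 + (c * (1 - ‖z‖)) * vert 3 := rfl
      simp only [e, vert_three, h.bdry _ hs1] at this
      linarith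
    rw [h4]
    have h5 : 1 - ‖z‖ ≤ t₀ / (4 * c) := by
      have := min_le_right δ (t₀ / (4 * c))
      linarith
    calc c * (1 - ‖z‖) ≤ c * (t₀ / (4 * c)) := mul_le_mul_of_nonneg_left h5 hc.le
      _ = t₀ / 4 := by field_simp
  · -- critical points of the new height
    have key : ∀ z ∈ ball (0 : ℂ) 1, fderiv ℝ (fun w => ψ w 3) z = 0 →
        (∀ v, ⟪y, d1 φ v z⟫ = 0) ∧
        ((fun w => ψ w 3) =ᶠ[𝓝 z] fun w => ⟪y, φ w⟫ + T) := by
      intro z hz hcr
      have hzc := ball_subset_closedBall hz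
      have hsm := h.at hzc
      by_cases hh : t₀ / 2 < φ z 3
      · have hev : (fun w => ψ w 3) =ᶠ[𝓝 z] fun w => ⟪y, φ w⟫ + T := by
          have hc3 : ContinuousAt (fun w => φ w 3) z :=
            ((EuclideanSpace.proj (3 : Fin 4) : E4 →L[ℝ] ℝ).continuous.continuousAt).comp
              hsm.continuousAt
          filter_upwards [hc3.eventually (lt_mem_nhds hh)] with w hw
          rw [hψ3, hg1 _ hw.le, one_mul, hyq]
          ring
        refine ⟨fun v => ?_, hev⟩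
        rw [← (hess hsm y T).1 v, ← hev.fderiv_eq, hcr]
        rfl
      · exfalso
        push Not at hh
        have hcl : 1 - δ < ‖z‖ := by
          by_contra hcon
          push Not at hcon
          have := ht₁ z hcon
          linarith
        have hz1 := mem_ball_zero_iff.1 hz
        have hz0 : 0 < ‖z‖ := by linarith
        have h1 := collar_deriv h hδ1 hcol hcl hz1
        have h2 := (lift_deriv hgm hgs hq hsm (hT0 z hzc) (h.imm z hzc)).1 z
        have hdψ : DifferentiableAt ℝ ψ z := by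
          have hd : DifferentiableAt ℝ φ z := hsm.differentiableAt (by simp)
          have e1 : DifferentiableAt ℝ (fun w => φ w 3) z :=
            (EuclideanSpace.proj (3 : Fin 4) : E4 →L[ℝ] ℝ).differentiableAt.comp z hd
          have e2 : DifferentiableAt ℝ (fun w => ⟪q, φ w⟫) z :=
            (innerSL ℝ q).differentiableAt.comp z hd
          have e3 : DifferentiableAt ℝ (fun w => g (φ w 3)) z :=
            ((hgs.differentiable (by simp)) _).comp z e1
          exact hd.add ((e3.mul (e2.const_add T)).smul_const vert)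
        have h3 : fderiv ℝ (fun w => ψ w 3) z z = (fderiv ℝ ψ z z) 3 := by
          have e1 : HasFDerivAt (fun w => ψ w 3)
              ((EuclideanSpace.proj (3 : Fin 4) : E4 →L[ℝ] ℝ).comp (fderiv ℝ ψ z)) z :=
            (EuclideanSpace.proj (3 : Fin 4) : E4 →L[ℝ] ℝ).hasFDerivAt.comp z hdψ.hasFDerivAt
          rw [e1.fderiv]
          rfl
        rw [hcr] at h3
        have hqv : ⟪q, vert⟫ = 0 := by rw [real_inner_comm, inner_vert]; exact hq
        have h4 : (fderiv ℝ ψ z z) 3 =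
            -(c * ‖z‖) * (1 + deriv g (φ z 3) * (T + ⟪q, φ z⟫)) := by
          have e0 : fderiv ℝ ψ z z = _ := h2
          rw [e0, h1, real_inner_smul_right, hqv, mul_zero, mul_zero, add_zero]
          have e1 : ((-(c * ‖z‖)) • vert + (deriv g (φ z 3) * ((-(c * ‖z‖)) • vert : E4) 3 *
            (T + ⟪q, φ z⟫)) • vert : E4) 3 = -(c * ‖z‖) * vert 3 +
              (deriv g (φ z 3) * (-(c * ‖z‖) * vert 3) * (T + ⟪q, φ z⟫)) * vert 3 := rfl
          rw [e1, vert_three]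
          ring
        have h5 : 0 < 1 + deriv g (φ z 3) * (T + ⟪q, φ z⟫) := by
          have := mul_nonneg (hgm.deriv_nonneg (x := φ z 3)) (hT0 z hzc).le
          linarith
        have h6 : 0 < c * ‖z‖ * (1 + deriv g (φ z 3) * (T + ⟪q, φ z⟫)) := by positivity
        rw [h4] at h3
        have h7 : (0 : ℂ →L[ℝ] ℝ) z = 0 := rfl
        rw [h7] at h3
        linarith
    refine ⟨?_, ?_⟩
    · intro z hz hcr u hu
      obtain ⟨h1, h2⟩ := key z hz hcr
      have hsm := h.at (ball_subset_closedBall hz)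
      refine nondegE hsm (hyn z hz h1) (fun v => ?_) (u := u)
      rw [← (hess hsm y T).2 u v, ← h2.fderiv.fderiv_eq]
      exact hu v
    · refine encard_le_of_finset fun s hs' => hyc s fun z hz => ?_
      obtain ⟨hz1, hz2⟩ := hs' z hz
      have hcr : fderiv ℝ (fun w => ψ w 3) z = 0 := hz2.fderiv_eq_zero
      obtain ⟨h1, h2⟩ := key z hz1 hcr
      have hsm := h.at (ball_subset_closedBall hz1)
      have hs2 : ContDiffAt ℝ ∞ (fun w => -(⟪y, φ w⟫ + T)) z := by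
        have e2 : ContDiffAt ℝ ∞ (fun w => ⟪y, φ w⟫) z :=
          (innerSL ℝ y).contDiff.contDiffAt.comp z hsm
        exact (e2.add contDiffAt_const).neg
      have hmax : IsLocalMax (fun w => ⟪y, φ w⟫ + T) z := by
        have e1 : ∀ᶠ w in 𝓝 z, ψ w 3 ≤ ψ z 3 := hz2
        have e2 : ψ z 3 = ⟪y, φ z⟫ + T := h2.self_of_nhds
        filter_upwards [e1, h2] with w g1 g2
        rw [← g2, ← e2]
        exact g1
      have hmin : IsLocalMin (fun w => -(⟪y, φ w⟫ + T)) z := by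
        filter_upwards [hmax] with w hw
        exact neg_le_neg hw
      have hsoc := Pool.Agent.Y640.RB.soc _ z hs2 hmin
      have hneg : ∀ w, sff φ y w w z ≤ 0 := by
        intro w
        have e1 : (fun w => -(⟪y, φ w⟫ + T)) = fun w => ⟪-y, φ w⟫ + (-T) := by
          funext w
          rw [inner_neg_left]; ring
        have e2 := hsoc w
        rw [e1, (hess hsm (-y) (-T)).2] at e2
        unfold sff at e2 ⊢
        rw [inner_neg_left] at e2
        linarith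
      obtain ⟨a, b⟩ := neg_of_semidef hsm hneg (hyn z hz1 h1)
      exact ⟨hz1, h1, by rw [hy3]; exact one_pos, a, b⟩

end Pool.Agent.N503.ML
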