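import Mathlib
import Pool.Agent.N503.MLDisc

/-!
Stretched discs: the upper curvature of high discs tends to the number of maxima.
-/

set_option autoImplicit false

namespace Pool.Agent.N503.ML

open scoped ContDiff RealInnerProductSpace ENNReal Topology
open MeasureTheory Set Metric Filter
open Pool.Agent.Y503.RB

theorem c1 {φ : ℂ → E4} {W : Set ℂ} (hW : IsOpen W) (hs : ContDiffOn ℝ ∞ φ W) (v : ℂ) :
    ContinuousOn (fun z => d1 φ v z) W := by
  have h1 : ContinuousOn (fun z => fderiv ℝ φ z) W :=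
    hs.continuousOn_fderiv_of_isOpen hW (by simp)
  exact h1.clm_apply continuousOn_const

theorem c2 {φ : ℂ → E4} {W : Set ℂ} (hW : IsOpen W) (hs : ContDiffOn ℝ ∞ φ W) (u v : ℂ) :
    ContinuousOn (fun z => d2 φ u v z) W := by
  have h1 : ContDiffOn ℝ ∞ (fun z => fderiv ℝ φ z) W :=
    hs.fderiv_of_isOpen hW (by simp)
  have h2 : ContDiffOn ℝ ∞ (fun z => fderiv ℝ φ z v) W := h1.clm_apply contDiffOn_const
  have h3 : ContinuousOn (fun z => fderiv ℝ (fun w => fderiv ℝ φ w v) z) W :=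
    h2.continuousOn_fderiv_of_isOpen hW (by simp)
  exact h3.clm_apply continuousOn_const

theorem abs_sff_le (φ : ℂ → E4) {n : E4} (hn : ‖n‖ = 1) (u v z : ℂ) :
    |sff φ n u v z| ≤ ‖d2 φ u v z‖ := by
  have := abs_real_inner_le_norm n (d2 φ u v z)
  rw [hn, one_mul] at this
  exact this

theorem curv_finite {φ : ℂ → E4} (h : HalfDisc φ) :
    ∫⁻ z in ball (0 : ℂ) 1, curvE φ z ≠ ⊤ := by
  obtain ⟨W, hW, hWsub, hWs⟩ := h.smooth
  set B : ℂ → ℝ := fun z => (‖d2 φ 1 1 z‖ * ‖d2 φ Complex.I Complex.I z‖ +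
    ‖d2 φ 1 Complex.I z‖ ^ 2) / √(fffDet φ z) with hB
  have hpos : ∀ z ∈ closedBall (0 : ℂ) 1, 0 < √(fffDet φ z) := fun z hz =>
    Real.sqrt_pos.2 (Pool.Agent.Y503.RB.fffDet_pos (h.imm z hz))
  have hF : ContinuousOn (fun z => fffDet φ z) W := by
    unfold fffDet fff
    exact (((c1 hW hWs 1).inner (c1 hW hWs 1)).mul
      ((c1 hW hWs Complex.I).inner (c1 hW hWs Complex.I))).sub
        (((c1 hW hWs 1).inner (c1 hW hWs Complex.I)).pow 2)
  have hcB : ContinuousOn B (closedBall 0 1) := by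
    refine ContinuousOn.div ?_ ((hF.mono hWsub).sqrt) fun z hz => (hpos z hz).ne'
    exact ((((c2 hW hWs 1 1).norm).mul ((c2 hW hWs Complex.I Complex.I).norm)).add
      (((c2 hW hWs 1 Complex.I).norm).pow 2)).mono hWsub
  obtain ⟨M, hM⟩ := (isCompact_closedBall (0 : ℂ) 1).exists_bound_of_continuousOn hcB
  have hbd : ∀ z ∈ ball (0 : ℂ) 1, curvE φ z ≤ ENNReal.ofReal M * ENNReal.ofReal (2 * Real.pi) := by
    intro z hz
    have hzc := ball_subset_closedBall hz
    refine iSup₂_le fun L _ => ?_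
    have h1 : ∀ θ : ℝ, ENNReal.ofReal (densE φ (L ⟨Real.cos θ, Real.sin θ⟩) z) ≤
        ENNReal.ofReal M := by
      intro θ
      apply ENNReal.ofReal_le_ofReal
      have hn : ‖L ⟨Real.cos θ, Real.sin θ⟩‖ = 1 := by
        rw [L.norm_map]
        have h2 : ‖(⟨Real.cos θ, Real.sin θ⟩ : ℂ)‖ ^ 2 = 1 := by
          rw [← Complex.normSq_eq_norm_sq, Complex.normSq_apply]
          have := Real.sin_sq_add_cos_sq θ
          nlinarith
        have h3 := norm_nonneg (⟨Real.cos θ, Real.sin θ⟩ : ℂ)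
        nlinarith
      obtain ⟨n, hnn⟩ : ∃ n, n = L ⟨Real.cos θ, Real.sin θ⟩ := ⟨_, rfl⟩
      rw [← hnn] at hn ⊢
      have hMz := hM z hzc
      rw [Real.norm_eq_abs] at hMz
      have hM0 : 0 ≤ M := (abs_nonneg _).trans hMz
      unfold densE
      split_ifs with hc
      · refine le_trans ?_ ((le_abs_self _).trans hMz)
        apply div_le_div_of_nonneg_right _ (hpos z hzc).le
        have a1 := abs_sff_le φ hn 1 1 z
        have a2 := abs_sff_le φ hn Complex.I Complex.I z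
        have a3 := abs_sff_le φ hn 1 Complex.I z
        unfold kdet
        have b1 : sff φ n 1 1 z * sff φ n Complex.I Complex.I z ≤
            ‖d2 φ 1 1 z‖ * ‖d2 φ Complex.I Complex.I z‖ := by
          refine (le_abs_self _).trans ?_
          rw [abs_mul]
          exact mul_le_mul a1 a2 (abs_nonneg _) (norm_nonneg _)
        have b2 : 0 ≤ sff φ n 1 Complex.I z ^ 2 := sq_nonneg _
        have b3 : 0 ≤ ‖d2 φ 1 Complex.I z‖ ^ 2 := sq_nonneg _
        linarith
      · exact hM0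
    calc ∫⁻ θ in Ico 0 (2 * Real.pi), ENNReal.ofReal (densE φ (L ⟨Real.cos θ, Real.sin θ⟩) z)
        ≤ ∫⁻ _ in Ico 0 (2 * Real.pi), ENNReal.ofReal M := lintegral_mono fun θ => h1 θ
      _ = ENNReal.ofReal M * ENNReal.ofReal (2 * Real.pi) := by
          rw [setLIntegral_const, Real.volume_Ico, sub_zero]
  have h2 : ∫⁻ z in ball (0 : ℂ) 1, curvE φ z ≤
      (ENNReal.ofReal M * ENNReal.ofReal (2 * Real.pi)) * volume (ball (0 : ℂ) 1) := by
    calc ∫⁻ z in ball (0 : ℂ) 1, curvE φ z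
        ≤ ∫⁻ _ in ball (0 : ℂ) 1, ENNReal.ofReal M * ENNReal.ofReal (2 * Real.pi) :=
          setLIntegral_mono' measurableSet_ball hbd
      _ = _ := by rw [setLIntegral_const]
  refine ne_top_of_le_ne_top ?_ h2
  exact ENNReal.mul_ne_top (ENNReal.mul_ne_top ENNReal.ofReal_ne_top ENNReal.ofReal_ne_top)
    measure_ball_lt_top.ne

/-- Uniqueness of critical points in convex regions where the function is strictly concave. -/
theorem unique_crit {φ : ℂ → E4} {V : Set ℂ} (hV : Convex ℝ V)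
    (hVs : ∀ z ∈ V, ContDiffAt ℝ ∞ φ z) (p : E4)
    (hneg : ∀ z ∈ V, sff φ p 1 1 z < 0 ∧ 0 < kdet φ p z) {z z' : ℂ} (hz : z ∈ V) (hz' : z' ∈ V)
    (hcr : ∀ v : ℂ, ⟪p, d1 φ v z⟫ = 0) :
    ⟪p, φ z'⟫ ≤ ⟪p, φ z⟫ ∧ ((∀ v : ℂ, ⟪p, d1 φ v z'⟫ = 0) → z' = z) := by
  by_cases hne : z' = z
  · rw [hne]
    exact ⟨le_rfl, fun _ => rfl⟩
  set w : ℂ := z' - z with hw
  have hw0 : w ≠ 0 := sub_ne_zero.2 hne
  have hl : ∀ s : ℝ, HasDerivAt (fun s : ℝ => z + s • w) w s := fun s => by
    have := ((hasDerivAt_id s).smul_const w).const_add z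
    simpa using this
  have hmem : ∀ s ∈ Icc (0 : ℝ) 1, z + s • w ∈ V := fun s hs => by
    have := hV hz hz' (by linarith [hs.2] : 0 ≤ 1 - s) hs.1 (by ring)
    have e : (1 - s) • z + s • z' = z + s • w := by
      rw [hw, smul_sub, sub_smul, one_smul]; abel
    rwa [e] at this
  have hk : ∀ s ∈ Icc (0 : ℝ) 1, HasDerivAt (fun s : ℝ => ⟪p, φ (z + s • w)⟫)
      ⟪p, d1 φ w (z + s • w)⟫ s := fun s hs => by
    have hd : DifferentiableAt ℝ φ (z + s • w) := (hVs _ (hmem s hs)).differentiableAt (by simp)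
    have h1 := hd.hasFDerivAt.comp_hasDerivAt s (hl s)
    exact (innerSL ℝ p).hasFDerivAt.comp_hasDerivAt s h1
  have hh : ∀ s ∈ Icc (0 : ℝ) 1, HasDerivAt (fun s : ℝ => ⟪p, d1 φ w (z + s • w)⟫)
      (sff φ p w w (z + s • w)) s := fun s hs => by
    have hd : DifferentiableAt ℝ (fun a => d1 φ w a) (z + s • w) :=
      (Pool.Agent.Y640.RB.diffFderiv (hVs _ (hmem s hs))).clm_apply (differentiableAt_const w)
    have h1 := hd.hasFDerivAt.comp_hasDerivAt s (hl s)
    exact (innerSL ℝ p).hasFDerivAt.comp_hasDerivAt s h1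
  have hanti : StrictAntiOn (fun s : ℝ => ⟪p, d1 φ w (z + s • w)⟫) (Icc 0 1) := by
    refine strictAntiOn_of_deriv_neg (convex_Icc 0 1)
      (fun s hs => (hh s hs).continuousAt.continuousWithinAt) fun s hs => ?_
    have hs' := interior_subset hs
    rw [(hh s hs').deriv]
    obtain ⟨a, b⟩ := hneg _ (hmem s hs')
    exact sff_neg (hVs _ (hmem s hs')) a b hw0
  have h0 : ⟪p, d1 φ w (z + (0 : ℝ) • w)⟫ = 0 := by
    rw [zero_smul, add_zero]; exact hcr w
  have e1 : z + (1 : ℝ) • w = z' := by rw [one_smul, hw]; abel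
  constructor
  · have hant : AntitoneOn (fun s : ℝ => ⟪p, φ (z + s • w)⟫) (Icc 0 1) := by
      refine antitoneOn_of_deriv_nonpos (convex_Icc 0 1)
        (fun s hs => (hk s hs).continuousAt.continuousWithinAt)
        (fun s hs => (hk s (interior_subset hs)).differentiableAt.differentiableWithinAt)
        fun s hs => ?_
      have hs' := interior_subset hs
      rw [(hk s hs').deriv, ← h0]
      exact hanti.antitoneOn (by simp) hs' hs'.1
    have := hant (by simp : (0 : ℝ) ∈ Icc (0 : ℝ) 1) (by simp : (1 : ℝ) ∈ Icc (0 : ℝ) 1)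
      zero_le_one
    simp only [e1, zero_smul, add_zero] at this
    exact this
  · intro hcr'
    exfalso
    have := hanti (by simp : (0 : ℝ) ∈ Icc (0 : ℝ) 1) (by simp : (1 : ℝ) ∈ Icc (0 : ℝ) 1)
      one_pos
    simp only [e1] at this
    rw [h0, hcr' w] at this
    exact lt_irrefl _ this

/-- The local structure for directions close to the vertical one. -/
theorem local_count {φ : ℂ → E4} (h : HalfDisc φ) {m : ℕ} (hM : MorseH φ m) {z₀ : ℂ}
    (hz₀ : z₀ ∈ ball (0 : ℂ) 1) :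
    ∃ ε > 0, ∀ p : E4, ‖p - vert‖ < ε →
      (∀ z ∈ ball z₀ ε, ∀ z' ∈ ball z₀ ε, CritCap φ p z → CritCap φ p z' → z = z') ∧
      (¬ IsLocalMax (fun w => φ w 3) z₀ → ∀ z ∈ ball z₀ ε, ¬ CritCap φ p z) := by
  obtain ⟨W, hW, hWsub, hWs⟩ := h.smooth
  have hzW : W ∈ 𝓝 z₀ := hW.mem_nhds (hWsub (ball_subset_closedBall hz₀))
  have hsm := h.at (ball_subset_closedBall hz₀)
  have k1 : ∀ v : ℂ, ContinuousAt (fun q : E4 × ℂ => ⟪q.1, d1 φ v q.2⟫) (vert, z₀) := by
    intro v
    have : ContinuousAt (fun z => d1 φ v z) z₀ := (c1 hW hWs v).continuousAt hzW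
    exact continuousAt_fst.inner (ContinuousAt.comp (x := (vert, z₀))
      (g := fun z => d1 φ v z) (f := fun q : E4 × ℂ => q.2) this continuousAt_snd)
  have k2 : ∀ u v : ℂ, ContinuousAt (fun q : E4 × ℂ => sff φ q.1 u v q.2) (vert, z₀) := by
    intro u v
    have : ContinuousAt (fun z => d2 φ u v z) z₀ := (c2 hW hWs u v).continuousAt hzW
    exact continuousAt_fst.inner (ContinuousAt.comp (x := (vert, z₀))
      (g := fun z => d2 φ u v z) (f := fun q : E4 × ℂ => q.2) this continuousAt_snd)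
  have k3 : ContinuousAt (fun q : E4 × ℂ => kdet φ q.1 q.2) (vert, z₀) := by
    unfold kdet
    exact ((k2 1 1).mul (k2 Complex.I Complex.I)).sub ((k2 1 Complex.I).pow 2)
  have ksnd : ∀ᶠ q : E4 × ℂ in 𝓝 (vert, z₀), q.2 ∈ W :=
    (continuous_snd.tendsto (vert, z₀)).eventually hzW
  have hnear : ∀ {P : E4 × ℂ → Prop}, (∀ᶠ q in 𝓝 (vert, z₀), P q) →
      ∃ ε > 0, ∀ p : E4, ‖p - vert‖ < ε → ∀ z ∈ ball z₀ ε, P (p, z) := by
    intro P hP
    obtain ⟨ε, hε, hb⟩ := Metric.eventually_nhds_iff.1 hP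
    refine ⟨ε, hε, fun p hp z hz => hb ?_⟩
    rw [Prod.dist_eq, max_lt_iff]
    exact ⟨by rw [dist_eq_norm]; exact hp, hz⟩
  by_cases hcr : ∀ v : ℂ, ⟪vert, d1 φ v z₀⟫ = 0
  · by_cases hpos : ∃ v : ℂ, 0 < sff φ vert v v z₀
    · obtain ⟨v, hv⟩ := hpos
      obtain ⟨ε, hε, hb⟩ := hnear (((k2 v v).eventually (lt_mem_nhds hv)).and
        ksnd)
      have hno : ∀ p : E4, ‖p - vert‖ < ε → ∀ z ∈ ball z₀ ε, ¬ CritCap φ p z := by
        intro p hp z hz hcc
        obtain ⟨g1, g2⟩ := hb p hp z hz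
        have hv0 : v ≠ 0 := by
          rintro rfl
          rw [sff_left] at hv
          simp at hv
        have := sff_neg (hWs.contDiffAt (hW.mem_nhds g2)) hcc.2.2.1 hcc.2.2.2 hv0
        simp only at g1
        linarith
      exact ⟨ε, hε, fun p hp => ⟨fun z hz _ _ hc => absurd hc (hno p hp z hz),
        fun _ => hno p hp⟩⟩
    · push Not at hpos
      have hnd : kdet φ vert z₀ ≠ 0 := by
        intro hk
        -- a degenerate direction
        have hcr' : fderiv ℝ (fun w => φ w 3) z₀ = 0 := by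
          ext v
          rw [height_eq, (hess hsm vert 0).1]
          exact hcr v
        have hmo := hM.morse z₀ hz₀ hcr'
        have hsff : ∀ u v, fderiv ℝ (fderiv ℝ (fun w => φ w 3)) z₀ u v = sff φ vert u v z₀ := by
          intro u v
          rw [height_eq, (hess hsm vert 0).2]
        simp only [hsff] at hmo
        unfold kdet at hk
        set e := sff φ vert 1 1 z₀ with he
        set f := sff φ vert 1 Complex.I z₀ with hf
        set g := sff φ vert Complex.I Complex.I z₀ with hg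
        have hsy : sff φ vert Complex.I 1 z₀ = f := sff_symm hsm vert _ _
        have hgen : ∀ u v : ℂ, sff φ vert u v z₀ = u.re * (v.re * e + v.im * f) +
            u.im * (v.re * f + v.im * g) := by
          intro u v
          rw [sff_left vert u v, sff_symm hsm vert 1 v, sff_symm hsm vert Complex.I v,
            sff_left vert v 1, sff_left vert v Complex.I, hsy]
        have h1 := hmo ⟨f, -e⟩ (fun v => by
          rw [hgen]
          simp only
          linear_combination (-v.im) * hk)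
        have h2 := hmo ⟨g, -f⟩ (fun v => by
          rw [hgen]
          simp only
          linear_combination (v.re) * hk)
        have hf0 : f = 0 := congrArg Complex.re h1
        have he0 : e = 0 := by
          have := congrArg Complex.im h1
          simp at this
          exact this
        have h3 := hmo 1 (fun v => by
          rw [hgen]
          simp [he0, hf0])
        exact one_ne_zero h3
      obtain ⟨a, b⟩ := neg_of_semidef hsm hpos hnd
      obtain ⟨ε, hε, hb⟩ := hnear ((((k2 1 1).eventually (gt_mem_nhds a)).and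
        (k3.eventually (lt_mem_nhds b))).and
        ksnd)
      have hVs : ∀ z ∈ ball z₀ ε, ContDiffAt ℝ ∞ φ z := fun z hz =>
        hWs.contDiffAt (hW.mem_nhds (hb vert (by simpa using hε) z hz).2)
      refine ⟨ε, hε, fun p hp => ⟨fun z hz z' hz' hc hc' => ?_, fun hnm => ?_⟩⟩
      · exact ((unique_crit (convex_ball z₀ ε) hVs p (fun w hw => (hb p hp w hw).1) hz hz'
          hc.1).2 hc'.1).symm
      · exfalso
        apply hnm
        filter_upwards [ball_mem_nhds z₀ hε] with w hw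
        have := (unique_crit (convex_ball z₀ ε) hVs vert
          (fun w hw => (hb vert (by simpa using hε) w hw).1) (mem_ball_self hε) hw hcr).1
        rw [inner_vert, inner_vert] at this
        exact this
  · push Not at hcr
    obtain ⟨v, hv⟩ := hcr
    obtain ⟨ε, hε, hb⟩ := hnear ((k1 v).eventually_ne hv)
    have hno : ∀ p : E4, ‖p - vert‖ < ε → ∀ z ∈ ball z₀ ε, ¬ CritCap φ p z :=
      fun p hp z hz hcc => hb p hp z hz (hcc.1 v)
    exact ⟨ε, hε, fun p hp => ⟨fun z hz _ _ hc => absurd hc (hno p hp z hz), fun _ => hno p hp⟩⟩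

theorem exists_min (t : Finset ℂ) (f : ℂ → ℝ) (hf : ∀ z, 0 < f z) : ∃ ε > 0, ∀ z ∈ t, ε ≤ f z := by
  classical
  induction t using Finset.induction_on with
  | empty => exact ⟨1, one_pos, by simp⟩
  | insert a s _ ih =>
    obtain ⟨ε, hε, h⟩ := ih
    refine ⟨min ε (f a), lt_min hε (hf a), fun z hz => ?_⟩
    rcases Finset.mem_insert.1 hz with rfl | hz
    · exact min_le_right _ _
    · exact (min_le_left _ _).trans (h z hz)

/-- Directions close to the vertical one. -/
theorem near_vert {φ : ℂ → E4} (h : HalfDisc φ) {m : ℕ} (hM : MorseH φ m) :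
    ∃ ε > 0, ∀ p : E4, ‖p - vert‖ < ε → ∀ s : Finset ℂ,
      (∀ z ∈ s, z ∈ ball (0 : ℂ) 1 ∧ CritCap φ p z) → s.card ≤ m := by
  classical
  obtain ⟨δ, c, hδ, hδ1, hc, hcol⟩ := h.collar
  have hloc : ∀ z₀ : ℂ, ∃ ε > 0, z₀ ∈ ball (0 : ℂ) 1 → ∀ p : E4, ‖p - vert‖ < ε →
      (∀ z ∈ ball z₀ ε, ∀ z' ∈ ball z₀ ε, CritCap φ p z → CritCap φ p z' → z = z') ∧
      (¬ IsLocalMax (fun w => φ w 3) z₀ → ∀ z ∈ ball z₀ ε, ¬ CritCap φ p z) := by
    intro z₀
    by_cases hz₀ : z₀ ∈ ball (0 : ℂ) 1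
    · obtain ⟨ε, hε, hb⟩ := local_count h hM hz₀
      exact ⟨ε, hε, fun _ => hb⟩
    · exact ⟨1, one_pos, fun h => absurd h hz₀⟩
  choose r hr hrb using hloc
  obtain ⟨t, ht1, ht2⟩ := (isCompact_closedBall (0 : ℂ) (1 - δ)).elim_nhds_subcover
    (fun z => ball z (r z)) (fun z _ => ball_mem_nhds z (hr z))
  obtain ⟨ε, hε, hεt⟩ := exists_min t r hr
  refine ⟨ε, hε, fun p hp s hs => ?_⟩
  have hin : ∀ z ∈ s, ∃ z₀ ∈ t, z ∈ ball z₀ (r z₀) := by
    intro z hz
    obtain ⟨hz1, hz2⟩ := hs z hz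
    have hzn : ‖z‖ ≤ 1 - δ := by
      by_contra hcon
      push Not at hcon
      have h1 := collar_deriv h hδ1 hcol hcon (mem_ball_zero_iff.1 hz1)
      have h2 := hz2.1 z
      rw [h1, real_inner_smul_right, real_inner_comm, inner_vert] at h2
      have hz0 : 0 < ‖z‖ := by linarith
      have h3 : 0 < c * ‖z‖ * p 3 := mul_pos (mul_pos hc hz0) hz2.2.1
      linarith
    have := ht2 (mem_closedBall_zero_iff.2 hzn)
    simpa using this
  choose! f hf1 hf2 using hin
  have hball : ∀ z ∈ s, f z ∈ ball (0 : ℂ) 1 := fun z hz => by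
    have := mem_closedBall_zero_iff.1 (ht1 _ (hf1 z hz))
    exact mem_ball_zero_iff.2 (by linarith)
  have hpr : ∀ z ∈ s, ‖p - vert‖ < r (f z) := fun z hz => hp.trans_le (hεt _ (hf1 z hz))
  have hinj : InjOn f (s : Set ℂ) := by
    intro a ha b hb hab
    have h1 := (hrb (f a) (hball a ha) p (hpr a ha)).1 a (hf2 a ha) b
      (by rw [hab]; exact hf2 b hb) (hs a ha).2 (hs b hb).2
    exact h1
  have hsub : ((s.image f : Finset ℂ) : Set ℂ) ⊆
      {z : ℂ | z ∈ ball (0 : ℂ) 1 ∧ IsLocalMax (fun w => φ w 3) z} := by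
    intro w hw
    obtain ⟨z, hz, rfl⟩ := Finset.mem_image.1 (Finset.mem_coe.1 hw)
    refine ⟨hball z hz, ?_⟩
    by_contra hnm
    exact (hrb (f z) (hball z hz) p (hpr z hz)).2 hnm z (hf2 z hz) (hs z hz).2
  have h1 := (Set.encard_le_encard hsub).trans hM.maxima
  rw [Set.encard_coe_eq_coe_finsetCard, Finset.card_image_of_injOn hinj] at h1
  exact_mod_cast h1

end Pool.Agent.N503.ML
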