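import Mathlib
import Pool.Agent.N503.MLScale

/-!
The theorem.
-/

set_option autoImplicit false

namespace Pool.Agent.N503.ML

open scoped ContDiff RealInnerProductSpace ENNReal Topology
open MeasureTheory Set Metric Filter
open Pool.Agent.Y503.RB

/-- Stretching of the vertical coordinate by the factor `l`. -/
noncomputable def lam (l : ℝ) : E4 →L[ℝ] E4 :=
  ContinuousLinearMap.id ℝ E4 +
    ((l - 1) • (EuclideanSpace.proj (3 : Fin 4) : E4 →L[ℝ] ℝ)).smulRight vert

theorem lam_apply (l : ℝ) (x : E4) : lam l x = x + ((l - 1) * x 3) • vert := rfl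

theorem lam_three (l : ℝ) (x : E4) : lam l x 3 = l * x 3 := by
  rw [lam_apply]
  have : (x + ((l - 1) * x 3) • vert) 3 = x 3 + ((l - 1) * x 3) * vert 3 := rfl
  rw [this, vert_three]
  ring

theorem inner_lam (l : ℝ) (y x : E4) : ⟪y, lam l x⟫ = ⟪lam l y, x⟫ := by
  have h1 : ⟪y, vert⟫ = y 3 := by rw [real_inner_comm, inner_vert]
  rw [lam_apply, lam_apply, inner_add_right, inner_add_left, real_inner_smul_right,
    real_inner_smul_left, inner_vert, h1]
  ring

theorem lam_inj {l : ℝ} (hl : 0 < l) : Function.Injective (lam l) := by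
  rw [injective_iff_map_eq_zero]
  intro x hx
  have h1 : x 3 = 0 := by
    have := congrArg (fun w : E4 => w 3) hx
    simp only [lam_three] at this
    have e2 : (0 : E4) 3 = 0 := rfl
    rw [e2] at this
    exact (mul_eq_zero.1 this).resolve_left hl.ne'
  rw [lam_apply, h1, mul_zero, zero_smul, add_zero] at hx
  exact hx

theorem d1_lam {φ : ℂ → E4} {z : ℂ} (h : DifferentiableAt ℝ φ z) (l : ℝ) (v : ℂ) :
    d1 (fun w => lam l (φ w)) v z = lam l (d1 φ v z) := by
  unfold d1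
  have : HasFDerivAt (fun w => lam l (φ w)) ((lam l).comp (fderiv ℝ φ z)) z :=
    (lam l).hasFDerivAt.comp z h.hasFDerivAt
  rw [this.fderiv]
  rfl

theorem d2_lam {φ : ℂ → E4} {z : ℂ} (h : ContDiffAt ℝ ∞ φ z) (l : ℝ) (u v : ℂ) :
    d2 (fun w => lam l (φ w)) u v z = lam l (d2 φ u v z) := by
  have h1 : (fun w => d1 (fun w => lam l (φ w)) v w) =ᶠ[𝓝 z] fun w => lam l (d1 φ v w) :=
    (Pool.Agent.Y640.RB.evDiff h).mono fun w hw => d1_lam hw l v
  have h2 : d2 (fun w => lam l (φ w)) u v z =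
      fderiv ℝ (fun w => d1 (fun w => lam l (φ w)) v w) z u := rfl
  have h3 : DifferentiableAt ℝ (fun w => d1 φ v w) z :=
    (Pool.Agent.Y640.RB.diffFderiv h).clm_apply (differentiableAt_const v)
  rw [h2, h1.fderiv_eq]
  have : HasFDerivAt (fun w => lam l (d1 φ v w)) ((lam l).comp
      (fderiv ℝ (fun w => d1 φ v w) z)) z :=
    (lam l).hasFDerivAt.comp z h3.hasFDerivAt
  rw [this.fderiv]
  rfl

theorem critCap_lam {φ : ℂ → E4} {z : ℂ} (h : ContDiffAt ℝ ∞ φ z) {l : ℝ} (hl : 0 < l) (y : E4) :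
    CritCap (fun w => lam l (φ w)) y z ↔ CritCap φ (lam l y) z := by
  have hd : DifferentiableAt ℝ φ z := h.differentiableAt (by simp)
  have hs : ∀ u v, sff (fun w => lam l (φ w)) y u v z = sff φ (lam l y) u v z := by
    intro u v
    unfold sff
    rw [d2_lam h, inner_lam]
  unfold CritCap Cap kdet
  simp only [hs, d1_lam hd, inner_lam, lam_three, mul_pos_iff_of_pos_left hl]

theorem halfDisc_lam {φ : ℂ → E4} (h : HalfDisc φ) {l : ℝ} (hl : 0 < l) :
    HalfDisc (fun w => lam l (φ w)) ∧ ∀ z ∈ sphere (0 : ℂ) 1, lam l (φ z) = φ z := by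
  have hsph : ∀ z ∈ sphere (0 : ℂ) 1, lam l (φ z) = φ z := fun z hz => by
    rw [lam_apply, h.bdry z hz, mul_zero, zero_smul, add_zero]
  obtain ⟨W, hW, hWsub, hWs⟩ := h.smooth
  obtain ⟨δ, c, hδ, hδ1, hc, hcol⟩ := h.collar
  refine ⟨⟨⟨W, hW, hWsub, (lam l).contDiff.comp_contDiffOn hWs⟩, ?_, ?_, ?_, ?_, ?_⟩, hsph⟩
  · intro a ha b hb hab
    exact h.inj ha hb (lam_inj hl hab)
  · intro z hz
    have hd : DifferentiableAt ℝ φ z := (h.at hz).differentiableAt (by simp)
    have : HasFDerivAt (fun w => lam l (φ w)) ((lam l).comp (fderiv ℝ φ z)) z :=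
      (lam l).hasFDerivAt.comp z hd.hasFDerivAt
    rw [this.fderiv]
    exact (lam_inj hl).comp (h.imm z hz)
  · intro z hz
    show 0 < lam l (φ z) 3
    rw [lam_three]
    exact mul_pos hl (h.inside z hz)
  · intro z hz
    show lam l (φ z) 3 = 0
    rw [lam_three, h.bdry z hz, mul_zero]
  · refine ⟨δ, l * c, hδ, hδ1, by positivity, fun z h1 h2 => ?_⟩
    show lam l (φ z) = lam l (φ (‖z‖⁻¹ • z)) + (l * c * (1 - ‖z‖)) • vert
    have e : φ z = φ (‖z‖⁻¹ • z) + (c * (1 - ‖z‖)) • vert := hcol z h1 h2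
    conv_lhs => rw [e]
    rw [map_add, map_smul]
    congr 1
    rw [lam_apply, vert_three, mul_one, smul_add, smul_smul, ← add_smul]
    congr 1
    ring

/-- determinant of the map `y ↦ σ lam l y` -/
theorem det_lam (σ l : ℝ) : (σ • lam l : E4 →L[ℝ] E4).det = σ ^ 4 * l := by
  rw [Pool.Agent.Y421.RB.det_eq]
  have e : ∀ i : Fin 4, i ≠ 3 → (σ • lam l : E4 →L[ℝ] E4) (EuclideanSpace.single i 1) =
      σ • EuclideanSpace.single i 1 := by
    intro i hi
    show σ • lam l (EuclideanSpace.single i 1) = _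
    rw [lam_apply]
    have : (EuclideanSpace.single i (1 : ℝ)) 3 = 0 := by simp [hi.symm]
    rw [this, mul_zero, zero_smul, add_zero]
  have e3 : (σ • lam l : E4 →L[ℝ] E4) (EuclideanSpace.single 3 1) =
      (σ * l) • EuclideanSpace.single 3 1 := by
    show σ • lam l (EuclideanSpace.single 3 1) = _
    rw [lam_apply]
    have : (EuclideanSpace.single (3 : Fin 4) (1 : ℝ)) 3 = 1 := by simp
    rw [this, mul_one]
    have h2 : (EuclideanSpace.single (3 : Fin 4) (1 : ℝ) : E4) = vert := rfl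
    rw [h2, smul_add, smul_smul, ← add_smul]
    congr 1
    ring
  rw [e 0 (by decide), e 1 (by decide), e 2 (by decide), e3]
  have hm : cols (σ • EuclideanSpace.single 0 1) (σ • EuclideanSpace.single 1 1)
      (σ • EuclideanSpace.single 2 1) ((σ * l) • EuclideanSpace.single 3 1) =
      Matrix.diagonal ![σ, σ, σ, σ * l] := by
    ext i j
    fin_cases i <;> fin_cases j <;> simp [cols]
  rw [hm, Matrix.det_diagonal, Fin.prod_univ_four]
  simp
  ring

/-- change of variables -/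
theorem lint_lam {c : E4 → ℝ≥0∞} (hc : Measurable c) {σ l : ℝ} (hσ : 0 < σ) (hl : 0 < l) :
    ∫⁻ y, c (σ • lam l y) = ENNReal.ofReal ((σ ^ 4 * l)⁻¹) * ∫⁻ y, c y := by
  have hdet : LinearMap.det ((σ • lam l : E4 →L[ℝ] E4) : E4 →ₗ[ℝ] E4) = σ ^ 4 * l := det_lam σ l
  have h1 := Measure.map_linearMap_addHaar_eq_smul_addHaar (volume : Measure E4)
    (f := ((σ • lam l : E4 →L[ℝ] E4) : E4 →ₗ[ℝ] E4)) (by rw [hdet]; positivity)
  have h2 : ∫⁻ y, c (σ • lam l y) =
      ∫⁻ y, c y ∂(Measure.map ((σ • lam l : E4 →L[ℝ] E4) : E4 →ₗ[ℝ] E4) volume) := by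
    exact (lintegral_map hc (σ • lam l : E4 →L[ℝ] E4).continuous.measurable).symm
  rw [h2, h1, lintegral_smul_measure, hdet, abs_of_pos (by positivity)]
  rfl

theorem norm_le_lam (y : E4) (l : ℝ) : ‖lam l y‖ ≤ ‖y - (y 3) • vert‖ + |l * y 3| := by
  have : lam l y = (y - (y 3) • vert) + (l * y 3) • vert := by
    rw [lam_apply, sub_mul, one_mul, sub_smul]
    abel
  rw [this]
  refine (norm_add_le _ _).trans ?_
  rw [norm_smul, norm_vert, mul_one, Real.norm_eq_abs]

/-- The upper curvature of a stretched disc. -/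
theorem curv_lam {φ : ℂ → E4} (h : HalfDisc φ) {m : ℕ} (hM : MorseH φ m) :
    ∃ C : ℝ, 0 ≤ C ∧ ∀ l : ℝ, 0 < l →
      ∫⁻ z in ball (0 : ℂ) 1, curvE (fun w => lam l (φ w)) z ≤
        ENNReal.ofReal (Real.pi ^ 2 * m + C / l) := by
  obtain ⟨ε, hε, hnear⟩ := near_vert h hM
  obtain ⟨c, hc1, hc2, hc3, -, -⟩ := counting h.patch isOpen_ball.measurableSet subset_rfl
  set K : ℝ≥0∞ := ∫⁻ z in ball (0 : ℂ) 1, curvE φ z with hK
  have hKf : K ≠ ⊤ := curv_finite h
  set σ : ℝ := (1 + 1 / ε)⁻¹ with hσd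
  have hσ : 0 < σ := by positivity
  refine ⟨K.toReal / σ ^ 4, by positivity, fun l hl => ?_⟩
  obtain ⟨hL, -⟩ := halfDisc_lam h hl
  obtain ⟨c', hc1', hc2', -, hc4', hc5'⟩ := counting hL.patch isOpen_ball.measurableSet subset_rfl
  have hbound : ∀ y, c' y ≤ HB.indicator (fun _ => (m : ℝ≥0∞)) y + c (σ • lam l y) := by
    intro y
    by_cases hy0 : c' y = 0
    · rw [hy0]; exact bot_le
    obtain ⟨hyb, hy3⟩ := hc5' y hy0
    have hiff : ∀ z ∈ ball (0 : ℂ) 1, CritCap (fun w => lam l (φ w)) y z ↔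
        CritCap φ (lam l y) z := fun z hz => critCap_lam (h.at (ball_subset_closedBall hz)) hl y
    have hl3 : 0 < l * y 3 := mul_pos hl hy3
    by_cases hn : ‖y - (y 3) • vert‖ < ε * (l * y 3)
    · -- almost vertical
      refine le_trans ?_ (le_add_right le_rfl)
      rw [indicator_of_mem (show y ∈ HB from ⟨hyb, hy3⟩)]
      refine hc4' y _ fun s hs => ?_
      have h1 : ‖(l * y 3)⁻¹ • lam l y - vert‖ < ε := by
        have e : (l * y 3)⁻¹ • lam l y - vert = (l * y 3)⁻¹ • (y - (y 3) • vert) := by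
          rw [lam_apply, smul_add, smul_sub, smul_smul, smul_smul]
          have : (l * y 3)⁻¹ * ((l - 1) * y 3) = 1 - (l * y 3)⁻¹ * y 3 := by
            field_simp
          rw [this, sub_smul, one_smul]
          abel
        rw [e, norm_smul, Real.norm_eq_abs, abs_of_pos (inv_pos.2 hl3), inv_mul_lt_iff₀ hl3,
          mul_comm]
        exact hn
      have h2 := hnear _ h1 s fun z hz => ⟨(hs z hz).1, by
        rw [critCap_smul (inv_pos.2 hl3)]
        exact (hiff z (hs z hz).1).1 (hs z hz).2⟩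
      exact_mod_cast h2
    · refine le_trans ?_ (le_add_left le_rfl)
      push Not at hn
      have hmem : σ • lam l y ∈ ball (0 : E4) 1 := by
        rw [mem_ball_zero_iff, norm_smul, Real.norm_eq_abs, abs_of_pos hσ]
        have h1 := norm_le_lam y l
        rw [abs_of_pos hl3] at h1
        have h2 : ‖y - (y 3) • vert‖ ≤ ‖y‖ := by
          have e : ⟪y - (y 3) • vert, (y 3) • vert⟫ = 0 := by
            rw [inner_sub_left, real_inner_smul_right, real_inner_smul_right,
              real_inner_smul_left, real_inner_self_eq_norm_sq, norm_vert, real_inner_comm,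
              inner_vert]
            ring
          have e2 := norm_add_sq_eq_norm_sq_add_norm_sq_of_inner_eq_zero _ _ e
          rw [sub_add_cancel] at e2
          have e3 := norm_nonneg (y - (y 3) • vert)
          have e4 := norm_nonneg y
          have e5 := norm_nonneg ((y 3) • vert)
          by_contra hcon
          push Not at hcon
          nlinarith
        have h3 := mem_ball_zero_iff.1 hyb
        have h4 : l * y 3 ≤ 1 / ε * ‖y - (y 3) • vert‖ := by
          rw [one_div, ← div_eq_inv_mul, le_div_iff₀ hε, mul_comm]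
          exact hn
        have h5 : ‖lam l y‖ < 1 + 1 / ε := by
          have h6 : (0 : ℝ) < 1 / ε := by positivity
          nlinarith
        rw [hσd, inv_mul_lt_one₀ (by positivity)]
        exact h5
      refine hc4' y _ fun s hs => hc3 _ hmem s fun z hz => ⟨(hs z hz).1, ?_⟩
      rw [critCap_smul hσ]
      exact (hiff z (hs z hz).1).1 (hs z hz).2
  have h1 : ENNReal.ofReal (1 / 4) * ∫⁻ z in ball (0 : ℂ) 1, curvE (fun w => lam l (φ w)) z ≤
      m * ENNReal.ofReal (Real.pi ^ 2 / 4) +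
        ENNReal.ofReal ((σ ^ 4 * l)⁻¹) * (ENNReal.ofReal (1 / 4) * K) := by
    rw [← hc2', ← vol_HB]
    calc ∫⁻ y, c' y ≤ ∫⁻ y, (HB.indicator (fun _ => (m : ℝ≥0∞)) y + c (σ • lam l y)) :=
          lintegral_mono hbound
      _ = _ := by
          rw [lintegral_add_left (measurable_const.indicator measurable_HB),
            lintegral_indicator measurable_HB, setLIntegral_const, lint_lam hc1 hσ hl, hc2]
  have h2 : ENNReal.ofReal 4 * (ENNReal.ofReal (1 / 4) *
      ∫⁻ z in ball (0 : ℂ) 1, curvE (fun w => lam l (φ w)) z) =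
      ∫⁻ z in ball (0 : ℂ) 1, curvE (fun w => lam l (φ w)) z := by
    rw [← mul_assoc, ← ENNReal.ofReal_mul (by norm_num)]
    norm_num
  rw [← h2]
  refine (mul_le_mul_right h1 (ENNReal.ofReal 4)).trans ?_
  have hK' : K = ENNReal.ofReal K.toReal := (ENNReal.ofReal_toReal hKf).symm
  have hK0 : 0 ≤ K.toReal := ENNReal.toReal_nonneg
  rw [hK', ← ENNReal.ofReal_natCast, ← ENNReal.ofReal_mul (by positivity),
    ← ENNReal.ofReal_mul (by positivity), ← ENNReal.ofReal_mul (by positivity),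
    ← ENNReal.ofReal_add (by positivity) (by positivity), ← ENNReal.ofReal_mul (by positivity)]
  apply ENNReal.ofReal_le_ofReal
  rw [ENNReal.toReal_ofReal hK0]
  apply le_of_eq
  field_simp

/-- **The theorem.** -/
theorem milnor (γ : ℂ → E4) (m : ℕ) :
    List.TFAE [
      ∃ φ : ℂ → E4, HalfDisc φ ∧ (∀ z ∈ sphere (0 : ℂ) 1, φ z = γ z) ∧ MorseH φ m,
      ∃ φ : ℂ → E4, HalfDisc φ ∧ (∀ z ∈ sphere (0 : ℂ) 1, φ z = γ z) ∧
        ∫⁻ z in ball (0 : ℂ) 1, curvE φ z < ENNReal.ofReal (Real.pi ^ 2 * (m + 1)),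
      ∀ η : ℝ, 0 < η → ∃ φ : ℂ → E4, HalfDisc φ ∧ (∀ z ∈ sphere (0 : ℂ) 1, φ z = γ z) ∧
        ∫⁻ z in ball (0 : ℂ) 1, curvE φ z ≤ ENNReal.ofReal (Real.pi ^ 2 * m + η)] := by
  tfae_have 1 → 3 := by
    rintro ⟨φ, h1, h2, h3⟩ η hη
    obtain ⟨C, hC, hb⟩ := curv_lam h1 h3
    have hl : 0 < C / η + 1 := by positivity
    obtain ⟨a, b⟩ := halfDisc_lam h1 hl
    refine ⟨_, a, fun z hz => (b z hz).trans (h2 z hz), (hb _ hl).trans ?_⟩
    apply ENNReal.ofReal_le_ofReal
    have : C / (C / η + 1) ≤ η := by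
      rw [div_le_iff₀ hl]
      have : η * (C / η + 1) = C + η := by field_simp
      rw [this]
      linarith
    linarith
  tfae_have 3 → 2 := by
    intro h
    obtain ⟨φ, h1, h2, h3⟩ := h 1 one_pos
    refine ⟨φ, h1, h2, h3.trans_lt ?_⟩
    rw [ENNReal.ofReal_lt_ofReal_iff (by positivity)]
    have := Real.pi_gt_three
    nlinarith
  tfae_have 2 → 1 := by
    rintro ⟨φ, h1, h2, h3⟩
    obtain ⟨ψ, a, b, c⟩ := disc_of_curv h1 m h3
    exact ⟨ψ, a, fun z hz => (b z hz).trans (h2 z hz), c⟩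
  tfae_finish

end Pool.Agent.N503.ML
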