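import Mathlib

/-!
# Digit differences: the product inequality and polynomials in sparse sums
-/

set_option autoImplicit false

namespace Pool.Agent.N503.DR

open Finset Polynomial

/-- The product inequality: if `R (m+1) = b R m - r (m+1)` and no `R m` vanishes, then
`b ^ n ≤ |R n| ∏ (b |r k|)` over the `k` in `[1, n]` with `r k ≠ 0`. -/
theorem prod_ineq (b : ℕ) (hb : 2 ≤ b) (r R : ℕ → ℤ)
    (hrec : ∀ m, R (m + 1) = b * R m - r (m + 1)) (hR : ∀ m, R m ≠ 0) (n : ℕ) :
    (b : ℤ) ^ n ≤ |R n| * ∏ k ∈ (Icc 1 n).filter (fun k => r k ≠ 0), ((b : ℤ) * |r k|) := by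
  have hb2 : (2 : ℤ) ≤ b := by exact_mod_cast hb
  induction n with
  | zero =>
    have := Int.one_le_abs (hR 0)
    simpa using this
  | succ n ih =>
    set Pr := ∏ k ∈ (Icc 1 n).filter (fun k => r k ≠ 0), ((b : ℤ) * |r k|) with hPr
    have hPpos : 0 < Pr := by
      apply Finset.prod_pos
      intro k hk
      have h1 := (mem_filter.1 hk).2
      have := abs_pos.2 h1
      positivity
    have hins : Icc 1 (n + 1) = insert (n + 1) (Icc 1 n) := by
      ext k; simp only [mem_insert, mem_Icc]; omega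
    by_cases hr : r (n + 1) = 0
    · have e1 : (Icc 1 (n + 1)).filter (fun k => r k ≠ 0) = (Icc 1 n).filter (fun k => r k ≠ 0) := by
        rw [hins, filter_insert, if_neg (by simpa using hr)]
      rw [e1, ← hPr, hrec n, hr, sub_zero, abs_mul, abs_of_nonneg (by linarith : (0 : ℤ) ≤ b),
        pow_succ]
      calc (b : ℤ) ^ n * b ≤ (|R n| * Pr) * b := by
            exact mul_le_mul_of_nonneg_right ih (by linarith)
        _ = _ := by ring
    · have e1 : (Icc 1 (n + 1)).filter (fun k => r k ≠ 0) =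
          insert (n + 1) ((Icc 1 n).filter (fun k => r k ≠ 0)) := by
        rw [hins, filter_insert, if_pos hr]
      have hnot : (n + 1) ∉ (Icc 1 n).filter (fun k => r k ≠ 0) := by
        simp
      rw [e1, prod_insert hnot, ← hPr]
      have hrp : 1 ≤ |r (n + 1)| := Int.one_le_abs hr
      have hRn1 : 1 ≤ |R (n + 1)| := Int.one_le_abs (hR _)
      by_cases hc : |r (n + 1)| ≤ ((b : ℤ) - 1) * |R n|
      · have h1 : |R n| ≤ |R (n + 1)| := by
          rw [hrec n]
          have h2 := abs_sub_abs_le_abs_sub ((b : ℤ) * R n) (r (n + 1))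
          rw [abs_mul, abs_of_nonneg (by linarith : (0 : ℤ) ≤ b)] at h2
          linarith
        rw [pow_succ]
        calc (b : ℤ) ^ n * b ≤ (|R n| * Pr) * b := mul_le_mul_of_nonneg_right ih (by linarith)
          _ ≤ (|R (n + 1)| * Pr) * (b * |r (n + 1)|) := by
              apply mul_le_mul
              · exact mul_le_mul_of_nonneg_right h1 hPpos.le
              · nlinarith
              · linarith
              · positivity
          _ = _ := by ring
      · push Not at hc
        have h1 : |R n| ≤ |r (n + 1)| := by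
          have h3 := abs_nonneg (R n)
          nlinarith
        rw [pow_succ]
        calc (b : ℤ) ^ n * b ≤ (|R n| * Pr) * b := mul_le_mul_of_nonneg_right ih (by linarith)
          _ ≤ (|r (n + 1)| * Pr) * b := by
              apply mul_le_mul_of_nonneg_right _ (by linarith)
              exact mul_le_mul_of_nonneg_right h1 hPpos.le
          _ = 1 * (b * |r (n + 1)| * Pr) := by ring
          _ ≤ |R (n + 1)| * (b * |r (n + 1)| * Pr) := by
              apply mul_le_mul_of_nonneg_right hRn1
              positivity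

/-- `P` is dominated by `G`: the coefficients of `G` are at least the absolute values of the ones
of `P` -/
def Dom (P G : ℤ[X]) : Prop := ∀ k, |P.coeff k| ≤ G.coeff k

lemma Dom.add {P G P' G' : ℤ[X]} (h : Dom P G) (h' : Dom P' G') : Dom (P + P') (G + G') := by
  intro k
  rw [coeff_add, coeff_add]
  exact (abs_add_le _ _).trans (add_le_add (h k) (h' k))

lemma Dom.nonneg {P G : ℤ[X]} (h : Dom P G) (k : ℕ) : 0 ≤ G.coeff k := (abs_nonneg _).trans (h k)

lemma Dom.mul {P G P' G' : ℤ[X]} (h : Dom P G) (h' : Dom P' G') : Dom (P * P') (G * G') := by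
  intro k
  rw [coeff_mul, coeff_mul]
  refine (abs_sum_le_sum_abs _ _).trans (sum_le_sum fun x _ => ?_)
  rw [abs_mul]
  exact mul_le_mul (h _) (h' _) (abs_nonneg _) (h.nonneg _)

lemma Dom.one : Dom 1 1 := by
  intro k
  rw [coeff_one]
  split_ifs <;> simp

lemma Dom.pow {P G : ℤ[X]} (h : Dom P G) (j : ℕ) : Dom (P ^ j) (G ^ j) := by
  induction j with
  | zero => simpa using Dom.one
  | succ j ih => rw [pow_succ, pow_succ]; exact ih.mul h

lemma Dom.const (a : ℤ) : Dom (C a) (C |a|) := by
  intro k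
  rw [coeff_C, coeff_C]
  split_ifs <;> simp

lemma Dom.zero : Dom 0 0 := by intro k; simp

lemma Dom.sum {ι : Type*} (s : Finset ι) (P G : ι → ℤ[X]) (h : ∀ i ∈ s, Dom (P i) (G i)) :
    Dom (∑ i ∈ s, P i) (∑ i ∈ s, G i) := by
  classical
  induction s using Finset.induction_on with
  | empty => simpa using Dom.zero
  | insert i s hi ih =>
    rw [sum_insert hi, sum_insert hi]
    exact (h i (mem_insert_self _ _)).add (ih fun j hj => h j (mem_insert_of_mem hj))

/-- the sum of the absolute values of the coefficients -/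
def l1 (P : ℤ[X]) : ℤ := ∑ j ∈ range (P.natDegree + 1), |P.coeff j|

lemma l1_nonneg (P : ℤ[X]) : 0 ≤ l1 P := sum_nonneg fun _ _ => abs_nonneg _

lemma comp_eq (B E : ℤ[X]) :
    B.comp E = ∑ j ∈ range (B.natDegree + 1), C (B.coeff j) * E ^ j := by
  rw [comp, eval₂_eq_sum_range]

/-- the polynomial with the absolute values of the coefficients of `B` at `G` -/
noncomputable def absComp (B G : ℤ[X]) : ℤ[X] := ∑ j ∈ range (B.natDegree + 1), C |B.coeff j| * G ^ j

lemma dom_comp {B E G : ℤ[X]} (h : Dom E G) : Dom (B.comp E) (absComp B G) := by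
  rw [comp_eq, absComp]
  exact Dom.sum _ _ _ fun j _ => (Dom.const _).mul (h.pow j)

/-- the polynomial `∑_{1 ≤ k ≤ n} e_k X^k` -/
noncomputable def EP (e : ℕ → ℤ) (n : ℕ) : ℤ[X] := ∑ k ∈ Icc 1 n, C (e k) * X ^ k

lemma EP_coeff (e : ℕ → ℤ) (n k : ℕ) : (EP e n).coeff k = if k ∈ Icc 1 n then e k else 0 := by
  unfold EP
  rw [finsetSum_coeff]
  simp only [coeff_C_mul, coeff_X_pow]
  by_cases hk : k ∈ Icc 1 n
  · rw [if_pos hk, sum_eq_single k]
    · simp
    · intro j _ hj
      rw [if_neg (Ne.symm hj)]; simp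
    · intro h; exact absurd hk h
  · rw [if_neg hk]
    apply sum_eq_zero
    intro j hj
    rw [if_neg]
    · simp
    · rintro rfl; exact hk hj

lemma EP_dom (e : ℕ → ℤ) (n : ℕ) : Dom (EP e n) (EP (fun k => |e k|) n) := by
  intro k
  rw [EP_coeff, EP_coeff]
  split_ifs <;> simp

/-- coefficients of powers of `EP e n` sit at sums of places where `e` does not vanish -/
lemma pow_coeff_ne (e : ℕ → ℤ) (n j k : ℕ) (h : ((EP e n) ^ j).coeff k ≠ 0) :
    ∃ t : Multiset ℕ, (∀ i ∈ t, i ∈ Icc 1 n ∧ e i ≠ 0) ∧ t.card = j ∧ t.sum = k := by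
  induction j generalizing k with
  | zero =>
    rw [pow_zero, coeff_one] at h
    split_ifs at h with h0
    · exact ⟨0, by simp, by simp, by simp [h0]⟩
    · exact absurd rfl h
  | succ j ih =>
    rw [pow_succ, coeff_mul] at h
    obtain ⟨x, hx, hne⟩ := exists_ne_zero_of_sum_ne_zero h
    have h1 : ((EP e n) ^ j).coeff x.1 ≠ 0 := left_ne_zero_of_mul hne
    have h2 : (EP e n).coeff x.2 ≠ 0 := right_ne_zero_of_mul hne
    obtain ⟨t, ht1, ht2, ht3⟩ := ih x.1 h1
    rw [EP_coeff] at h2
    split_ifs at h2 with h3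
    · refine ⟨x.2 ::ₘ t, ?_, by rw [Multiset.card_cons, ht2], ?_⟩
      · intro i hi
        rcases Multiset.mem_cons.1 hi with rfl | hi
        · exact ⟨h3, h2⟩
        · exact ht1 i hi
      · rw [Multiset.sum_cons, ht3]
        have := mem_antidiagonal.1 hx
        omega
    · exact absurd rfl h2

end Pool.Agent.N503.DR
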