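import Mathlib
import Pool.Agent.N503.DRCore

set_option autoImplicit false

namespace Pool.Agent.N503.DR

open Finset Polynomial

lemma Dom.sum_le {P G : ℤ[X]} (h : Dom P G) (s : Finset ℕ) :
    ∑ k ∈ s, |P.coeff k| ≤ G.eval 1 := by
  classical
  rw [eval_eq_sum, Polynomial.sum_def]
  calc ∑ k ∈ s, |P.coeff k| ≤ ∑ k ∈ s, G.coeff k := sum_le_sum fun k _ => h k
    _ = ∑ k ∈ s ∩ G.support, G.coeff k := by
        symm
        apply sum_subset inter_subset_left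
        intro k hk hk'
        by_contra hne
        exact hk' (mem_inter.2 ⟨hk, mem_support_iff.2 hne⟩)
    _ ≤ ∑ k ∈ G.support, G.coeff k :=
        sum_le_sum_of_subset_of_nonneg inter_subset_right fun k _ _ => h.nonneg k
    _ = _ := by simp

lemma EP_eval_one (e : ℕ → ℤ) (n : ℕ) : (EP e n).eval 1 = ∑ k ∈ Icc 1 n, e k := by
  unfold EP
  rw [eval_finsetSum]
  simp

lemma absComp_eval_one (B G : ℤ[X]) :
    (absComp B G).eval 1 = ∑ j ∈ range (B.natDegree + 1), |B.coeff j| * (G.eval 1) ^ j := by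
  unfold absComp
  rw [eval_finsetSum]
  simp

lemma absComp_le (B G : ℤ[X]) (d : ℕ) (hd : B.natDegree ≤ d) (T : ℤ) (hT : G.eval 1 = T)
    (hT0 : 0 ≤ T) : (absComp B G).eval 1 ≤ l1 B * (T ^ d + 1) := by
  rw [absComp_eval_one, hT, l1, sum_mul]
  apply sum_le_sum
  intro j hj
  apply mul_le_mul_of_nonneg_left _ (abs_nonneg _)
  have hj' : j ≤ d := by have := mem_range.1 hj; omega
  rcases hT0.eq_or_lt with h | h
  · rw [← h]
    rcases Nat.eq_zero_or_pos j with h0 | h0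
    · subst h0
      have : (0 : ℤ) ≤ 0 ^ d := by positivity
      simpa using this
    · rw [zero_pow h0.ne']
      have : (0 : ℤ) ≤ 0 ^ d := by positivity
      linarith
  · have h1 : T ^ j ≤ T ^ d := pow_le_pow_right₀ (by omega) hj'
    linarith

/-- the integers `R m` -/
noncomputable def RR (b : ℕ) (P : ℤ[X]) (m : ℕ) : ℤ :=
  - ∑ k ∈ range (m + 1), P.coeff k * (b : ℤ) ^ (m - k)

lemma RR_rec (b : ℕ) (P : ℤ[X]) (m : ℕ) : RR b P (m + 1) = b * RR b P m - P.coeff (m + 1) := by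
  unfold RR
  rw [sum_range_succ _ (m + 1), Nat.sub_self, pow_zero, mul_one, mul_neg, mul_sum]
  have : ∑ k ∈ range (m + 1), P.coeff k * (b : ℤ) ^ (m + 1 - k) =
      ∑ k ∈ range (m + 1), (b : ℤ) * (P.coeff k * (b : ℤ) ^ (m - k)) := by
    apply sum_congr rfl
    intro k hk
    have hk' := mem_range.1 hk
    rw [show m + 1 - k = (m - k) + 1 by omega, pow_succ]
    ring
  rw [this]
  ring

lemma comp_coeff_mod (B E : ℤ[X]) (μ : ℤ) (hμ : ∀ j, 1 ≤ j → μ ∣ B.coeff j) (k : ℕ) :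
    μ ∣ (B.comp E).coeff k - (if k = 0 then B.coeff 0 else 0) := by
  rw [comp_eq, sum_range_succ', coeff_add, finsetSum_coeff, pow_zero, mul_one, coeff_C]
  rw [add_sub_cancel_right]
  apply Finset.dvd_sum
  intro j _
  rw [coeff_C_mul]
  exact (hμ (j + 1) (by omega)).mul_right _

lemma RR_ne (b : ℕ) (B E : ℤ[X]) (μ : ℤ) (hμ : ∀ j, 1 ≤ j → μ ∣ B.coeff j)
    (h0 : ∀ m : ℕ, ¬ μ ∣ B.coeff 0 * (b : ℤ) ^ m) (m : ℕ) : RR b (B.comp E) m ≠ 0 := by
  intro h
  apply h0 m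
  have h1 : μ ∣ ∑ k ∈ range (m + 1), ((B.comp E).coeff k * (b : ℤ) ^ (m - k) -
      (if k = 0 then B.coeff 0 else 0) * (b : ℤ) ^ (m - k)) := by
    apply Finset.dvd_sum
    intro k _
    rw [← sub_mul]
    exact (comp_coeff_mod B E μ hμ k).mul_right _
  rw [sum_sub_distrib] at h1
  have h2 : ∑ k ∈ range (m + 1), (B.comp E).coeff k * (b : ℤ) ^ (m - k) = 0 := by
    unfold RR at h; linarith
  have h3 : ∑ k ∈ range (m + 1), (if k = 0 then B.coeff 0 else 0) * (b : ℤ) ^ (m - k) =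
      B.coeff 0 * (b : ℤ) ^ m := by
    rw [sum_eq_single 0]
    · simp
    · intro k _ hk; rw [if_neg hk, zero_mul]
    · intro h; exact absurd (mem_range.2 (Nat.succ_pos m)) h
  rw [h2, h3, zero_sub, dvd_neg] at h1
  exact h1

/-- the value of `EP e n` at `1 / b` -/
lemma EP_eval (b : ℕ) (e : ℕ → ℤ) (n : ℕ) :
    aeval ((b : ℝ)⁻¹) (EP e n) = ∑ k ∈ Icc 1 n, (e k : ℝ) / (b : ℝ) ^ k := by
  unfold EP
  rw [map_sum]
  apply sum_congr rfl
  intro k _
  simp [div_eq_mul_inv]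

lemma RR_real (b : ℕ) (hb : 2 ≤ b) (P : ℤ[X]) (n : ℕ) (G : ℤ[X]) (h : Dom P G) :
    |(RR b P n : ℝ)| ≤ (b : ℝ) ^ n * |aeval ((b : ℝ)⁻¹) P| + (G.eval 1 : ℤ) := by
  have hb0 : (0 : ℝ) < b := by positivity
  have hb1 : (1 : ℝ) ≤ b := by exact_mod_cast (by omega : 1 ≤ b)
  set D := max P.natDegree n + 1 with hD
  have h1 : aeval ((b : ℝ)⁻¹) P = ∑ k ∈ range D, (P.coeff k : ℝ) * ((b : ℝ)⁻¹) ^ k := by
    rw [aeval_def, eval₂_eq_sum_range' _ (show P.natDegree < D by omega)]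
    simp
  have hsplit : ∑ k ∈ range D, (P.coeff k : ℝ) * ((b : ℝ)⁻¹) ^ k =
      ∑ k ∈ range (n + 1), (P.coeff k : ℝ) * ((b : ℝ)⁻¹) ^ k +
        ∑ k ∈ Ico (n + 1) D, (P.coeff k : ℝ) * ((b : ℝ)⁻¹) ^ k := by
    rw [← sum_range_add_sum_Ico _ (show n + 1 ≤ D by omega)]
  have h2 : (RR b P n : ℝ) = - ((b : ℝ) ^ n *
      ∑ k ∈ range (n + 1), (P.coeff k : ℝ) * ((b : ℝ)⁻¹) ^ k) := by
    unfold RR
    push_cast
    rw [mul_sum]
    congr 1
    apply sum_congr rfl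
    intro k hk
    have hk' := mem_range.1 hk
    rw [inv_pow, pow_sub₀ _ hb0.ne' (by omega : k ≤ n)]
    ring
  have h3 : (RR b P n : ℝ) = - ((b : ℝ) ^ n * aeval ((b : ℝ)⁻¹) P) +
      (b : ℝ) ^ n * ∑ k ∈ Ico (n + 1) D, (P.coeff k : ℝ) * ((b : ℝ)⁻¹) ^ k := by
    rw [h2, h1, hsplit]; ring
  rw [h3]
  refine (abs_add_le _ _).trans ?_
  rw [abs_neg, abs_mul, abs_of_nonneg (by positivity : (0 : ℝ) ≤ (b : ℝ) ^ n)]
  gcongr
  rw [mul_sum]
  refine (abs_sum_le_sum_abs _ _).trans ?_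
  have h4 : ∀ k ∈ Ico (n + 1) D, |(b : ℝ) ^ n * ((P.coeff k : ℝ) * ((b : ℝ)⁻¹) ^ k)| ≤
      ((|P.coeff k| : ℤ) : ℝ) := by
    intro k hk
    have hk' := mem_Ico.1 hk
    rw [abs_mul, abs_mul, abs_of_nonneg (by positivity : (0 : ℝ) ≤ (b : ℝ) ^ n),
      abs_of_nonneg (by positivity : (0 : ℝ) ≤ ((b : ℝ)⁻¹) ^ k)]
    push_cast
    have h5 : (b : ℝ) ^ n * ((b : ℝ)⁻¹) ^ k ≤ 1 := by
      rw [inv_pow, ← div_eq_mul_inv, div_le_one (by positivity)]
      exact pow_le_pow_right₀ hb1 (by omega)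
    calc (b : ℝ) ^ n * (|(P.coeff k : ℝ)| * ((b : ℝ)⁻¹) ^ k)
        = |(P.coeff k : ℝ)| * ((b : ℝ) ^ n * ((b : ℝ)⁻¹) ^ k) := by ring
      _ ≤ |(P.coeff k : ℝ)| * 1 := by
          exact mul_le_mul_of_nonneg_left h5 (abs_nonneg _)
      _ = _ := mul_one _
  refine (sum_le_sum h4).trans ?_
  exact_mod_cast h.sum_le _

/-- Lipschitz bound -/
lemma aeval_sub_le (B : ℤ[X]) (d : ℕ) (hd : B.natDegree ≤ d) (z z' δ : ℝ) (hz : |z| ≤ 4)
    (hz' : |z'| ≤ 4) (h : |z' - z| ≤ 4 * δ) (hδ : 0 ≤ δ) (h0 : aeval z B = 0) :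
    |aeval z' B| ≤ l1 B * (d * 4 ^ d) * δ := by
  have e1 : ∀ w : ℝ, aeval w B = ∑ j ∈ range (B.natDegree + 1), (B.coeff j : ℝ) * w ^ j := by
    intro w
    rw [aeval_def, eval₂_eq_sum_range]
    simp
  have e2 : aeval z' B = ∑ j ∈ range (B.natDegree + 1), (B.coeff j : ℝ) * (z' ^ j - z ^ j) := by
    have : aeval z' B = aeval z' B - aeval z B := by rw [h0, sub_zero]
    rw [this, e1, e1, ← sum_sub_distrib]
    exact sum_congr rfl fun j _ => by ring
  rw [e2, l1]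
  push_cast
  rw [sum_mul, sum_mul]
  refine (abs_sum_le_sum_abs _ _).trans (sum_le_sum fun j hj => ?_)
  rw [abs_mul, mul_assoc]
  apply mul_le_mul_of_nonneg_left _ (abs_nonneg _)
  have hj' : j ≤ d := by have := mem_range.1 hj; omega
  rcases Nat.eq_zero_or_pos j with h1 | h1
  · subst h1
    simp only [pow_zero, sub_self, abs_zero]
    positivity
  · refine (abs_pow_sub_pow_le z' z j).trans ?_
    have h2 : max |z'| |z| ^ (j - 1) ≤ (4 : ℝ) ^ (j - 1) :=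
      pow_le_pow_left₀ (le_max_of_le_left (abs_nonneg _)) (max_le hz' hz) _
    calc |z' - z| * j * max |z'| |z| ^ (j - 1) ≤ (4 * δ) * j * 4 ^ (j - 1) := by
          apply mul_le_mul _ h2 (by positivity) (by positivity)
          exact mul_le_mul_of_nonneg_right h (by positivity)
      _ = j * 4 ^ j * δ := by
          obtain ⟨i, rfl⟩ := Nat.exists_eq_succ_of_ne_zero h1.ne'
          simp only [Nat.succ_eq_add_one, Nat.add_sub_cancel]
          rw [pow_succ]; ring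
      _ ≤ d * 4 ^ d * δ := by
          apply mul_le_mul_of_nonneg_right _ hδ
          apply mul_le_mul _ _ (by positivity) (by positivity)
          · exact_mod_cast hj'
          · exact pow_le_pow_right₀ (by norm_num) hj'

/-- Jensen's inequality for the logarithm -/
lemma sum_log_le (s : Finset ℕ) (x : ℕ → ℝ) (hx : ∀ k ∈ s, 0 < x k) :
    ∑ k ∈ s, Real.log (x k) ≤ s.card * Real.log ((∑ k ∈ s, x k) / s.card) := by
  rcases s.eq_empty_or_nonempty with h | h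
  · simp [h]
  · have hc : (0 : ℝ) < s.card := by exact_mod_cast h.card_pos
    have hS : 0 < ∑ k ∈ s, x k := sum_pos hx h
    set c := (∑ k ∈ s, x k) / s.card with hc'
    have hc0 : 0 < c := by positivity
    have h1 : ∀ k ∈ s, Real.log (x k) ≤ Real.log c + (x k / c - 1) := by
      intro k hk
      have h2 := Real.log_le_sub_one_of_pos (div_pos (hx k hk) hc0)
      rw [Real.log_div (hx k hk).ne' hc0.ne'] at h2
      linarith
    refine (sum_le_sum h1).trans (le_of_eq ?_)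
    rw [sum_add_distrib, sum_sub_distrib, ← sum_div, sum_const, sum_const, nsmul_eq_mul,
      nsmul_eq_mul]
    have h3 : (∑ k ∈ s, x k) / c = s.card := by
      rw [hc']; field_simp
    rw [h3]; ring


/-- the places in `[1, n]` where `e` does not vanish -/
noncomputable def Dset (e : ℕ → ℤ) (n : ℕ) : Finset ℕ := (Icc 1 n).filter fun k => e k ≠ 0

open Classical in
/-- the places in `[1, n]` which are sums of at most `d` elements of `D` -/
noncomputable def Sums (D : Finset ℕ) (d n : ℕ) : Finset ℕ :=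
  (Icc 1 n).filter fun k => ∃ t : Multiset ℕ, (∀ i ∈ t, i ∈ D) ∧ t.card ≤ d ∧ t.sum = k

lemma comp_coeff_ne (B : ℤ[X]) (d : ℕ) (hd : B.natDegree ≤ d) (e : ℕ → ℤ) (n k : ℕ)
    (hk : k ∈ Icc 1 n) (h : (B.comp (EP e n)).coeff k ≠ 0) : k ∈ Sums (Dset e n) d n := by
  rw [comp_eq, finsetSum_coeff] at h
  obtain ⟨j, hj, hne⟩ := exists_ne_zero_of_sum_ne_zero h
  rw [coeff_C_mul] at hne
  obtain ⟨t, h1, h2, h3⟩ := pow_coeff_ne e n j k (right_ne_zero_of_mul hne)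
  have := mem_range.1 hj
  classical
  rw [Sums, mem_filter]
  exact ⟨hk, t, fun i hi => mem_filter.2 (h1 i hi), by omega, h3⟩

lemma l1_pos (B : ℤ[X]) (hB : B ≠ 0) : 1 ≤ l1 B := by
  have h1 : 1 ≤ |B.coeff B.natDegree| := Int.one_le_abs (by
    rw [coeff_natDegree]; exact leadingCoeff_ne_zero.2 hB)
  exact h1.trans (single_le_sum (f := fun j => |B.coeff j|) (fun _ _ => abs_nonneg _)
    (mem_range.2 (Nat.lt_succ_self _)))

theorem core (b : ℕ) (hb : 2 ≤ b) (B : ℤ[X]) (d : ℕ) (hd : B.natDegree ≤ d) (μ : ℤ)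
    (hμ : ∀ j, 1 ≤ j → μ ∣ B.coeff j) (h0 : ∀ m : ℕ, ¬ μ ∣ B.coeff 0 * (b : ℤ) ^ m) (z : ℝ)
    (hz : aeval z B = 0) (e : ℕ → ℤ) (he : ∀ k, |e k| ≤ 2 * b) (n : ℕ) (hz4 : |z| ≤ 4)
    (hz4' : |∑ k ∈ Icc 1 n, (e k : ℝ) / (b : ℝ) ^ k| ≤ 4)
    (happ : |∑ k ∈ Icc 1 n, (e k : ℝ) / (b : ℝ) ^ k - z| ≤ 4 / (b : ℝ) ^ n) :
    (n : ℝ) * Real.log b ≤
      Real.log (l1 B * (d * 4 ^ d + ((2 * b * (Dset e n).card : ℕ) : ℝ) ^ d + 1)) +
      (Sums (Dset e n) d n).card * (Real.log b + Real.log (1 +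
        l1 B * (((2 * b * (Dset e n).card : ℕ) : ℝ) ^ d + 1) / (Sums (Dset e n) d n).card)) := by
  classical
  have hb0 : (0 : ℝ) < b := by positivity
  have hb1 : (1 : ℝ) ≤ b := by exact_mod_cast (by omega : 1 ≤ b)
  have hbZ : (1 : ℤ) ≤ b := by exact_mod_cast (by omega : 1 ≤ b)
  set P := B.comp (EP e n) with hP
  set G := absComp B (EP (fun k => |e k|) n) with hG
  have hdom : Dom P G := dom_comp (EP_dom e n)
  set N := (Dset e n).card with hN
  set S := Sums (Dset e n) d n with hS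
  have hB0 : B ≠ 0 := by
    rintro rfl
    apply h0 0
    simp
  have hl1 : 1 ≤ l1 B := l1_pos B hB0
  -- the sum of the `|e k|`
  set T : ℤ := (EP (fun k => |e k|) n).eval 1 with hT
  have hT1 : T = ∑ k ∈ Icc 1 n, |e k| := by rw [hT, EP_eval_one]
  have hT0 : 0 ≤ T := by rw [hT1]; exact sum_nonneg fun _ _ => abs_nonneg _
  have hTN : T ≤ ((2 * b * N : ℕ) : ℤ) := by
    rw [hT1]
    have : ∑ k ∈ Icc 1 n, |e k| = ∑ k ∈ Dset e n, |e k| := by
      symm
      apply sum_subset (filter_subset _ _)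
      intro k hk hk'
      have : e k = 0 := by
        by_contra hne
        exact hk' (mem_filter.2 ⟨hk, hne⟩)
      rw [this, abs_zero]
    rw [this]
    calc ∑ k ∈ Dset e n, |e k| ≤ ∑ k ∈ Dset e n, (2 * (b : ℤ)) := sum_le_sum fun k _ => he k
      _ = _ := by rw [sum_const, nsmul_eq_mul, ← hN]; push_cast; ring
  have hGs : G.eval 1 ≤ l1 B * (((2 * b * N : ℕ) : ℤ) ^ d + 1) := by
    refine (absComp_le B _ d hd T hT.symm hT0).trans ?_
    apply mul_le_mul_of_nonneg_left _ (by linarith)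
    have := pow_le_pow_left₀ hT0 hTN d
    linarith
  have hGsR : ((G.eval 1 : ℤ) : ℝ) ≤ l1 B * (((2 * b * N : ℕ) : ℝ) ^ d + 1) := by
    exact_mod_cast hGs
  have hG0 : (0 : ℝ) ≤ ((G.eval 1 : ℤ) : ℝ) := by
    have := hdom.sum_le ∅
    simp at this
    exact_mod_cast this
  -- the product inequality
  have hprod := prod_ineq b hb (fun k => P.coeff k) (fun m => RR b P m)
    (fun m => RR_rec b P m) (fun m => RR_ne b B _ μ hμ h0 m) n
  set F := (Icc 1 n).filter (fun k => P.coeff k ≠ 0) with hF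
  have hFS : F ⊆ S := by
    intro k hk
    obtain ⟨h1, h2⟩ := mem_filter.1 hk
    exact comp_coeff_ne B d hd e n k h1 h2
  have hprod2 : ∏ k ∈ F, ((b : ℤ) * |P.coeff k|) ≤ ∏ k ∈ S, ((b : ℤ) * (|P.coeff k| + 1)) := by
    calc ∏ k ∈ F, ((b : ℤ) * |P.coeff k|) ≤ ∏ k ∈ F, ((b : ℤ) * (|P.coeff k| + 1)) := by
          apply prod_le_prod
          · intro k _; positivity
          · intro k _
            apply mul_le_mul_of_nonneg_left _ (by linarith)
            linarith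
      _ ≤ _ := by
          apply Finset.prod_le_prod_of_subset_of_one_le hFS
          · intro k _; positivity
          · intro k _ _
            have := abs_nonneg (P.coeff k)
            nlinarith
  -- in the reals
  have hR1 : |((RR b P n : ℤ) : ℝ)| ≤
      l1 B * (d * 4 ^ d + ((2 * b * N : ℕ) : ℝ) ^ d + 1) := by
    refine (RR_real b hb P n G hdom).trans ?_
    have h1 : aeval ((b : ℝ)⁻¹) P = aeval (∑ k ∈ Icc 1 n, (e k : ℝ) / (b : ℝ) ^ k) B := by
      rw [hP, aeval_comp, EP_eval]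
    have h2 := aeval_sub_le B d hd z _ (1 / (b : ℝ) ^ n) hz4 hz4'
      (by rw [mul_one_div]; exact happ) (by positivity) hz
    rw [h1]
    have h3 : (b : ℝ) ^ n * |aeval (∑ k ∈ Icc 1 n, (e k : ℝ) / (b : ℝ) ^ k) B| ≤
        l1 B * (d * 4 ^ d) := by
      calc (b : ℝ) ^ n * |aeval (∑ k ∈ Icc 1 n, (e k : ℝ) / (b : ℝ) ^ k) B|
          ≤ (b : ℝ) ^ n * (l1 B * (d * 4 ^ d) * (1 / (b : ℝ) ^ n)) :=
            mul_le_mul_of_nonneg_left h2 (by positivity)
        _ = _ := by field_simp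
    calc _ ≤ (l1 B : ℝ) * (d * 4 ^ d) + l1 B * (((2 * b * N : ℕ) : ℝ) ^ d + 1) :=
          add_le_add h3 hGsR
      _ = _ := by ring
  have hprodR : (b : ℝ) ^ n ≤ |((RR b P n : ℤ) : ℝ)| *
      ∏ k ∈ S, ((b : ℝ) * (|((P.coeff k : ℤ) : ℝ)| + 1)) := by
    have h1 : (b : ℤ) ^ n ≤ |RR b P n| * ∏ k ∈ S, ((b : ℤ) * (|P.coeff k| + 1)) :=
      hprod.trans (mul_le_mul_of_nonneg_left hprod2 (abs_nonneg _))
    exact_mod_cast h1
  have hRpos : 0 < |((RR b P n : ℤ) : ℝ)| := by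
    rw [abs_pos]
    exact_mod_cast RR_ne b B _ μ hμ h0 n
  have hfac : ∀ k ∈ S, (b : ℝ) * (|((P.coeff k : ℤ) : ℝ)| + 1) ≠ 0 := fun k _ => by positivity
  have hlog := Real.log_le_log (by positivity) hprodR
  rw [Real.log_pow, Real.log_mul hRpos.ne' (prod_ne_zero_iff.2 hfac), Real.log_prod hfac] at hlog
  refine hlog.trans (add_le_add (Real.log_le_log hRpos hR1) ?_)
  have h1 : ∑ k ∈ S, Real.log ((b : ℝ) * (|((P.coeff k : ℤ) : ℝ)| + 1)) =
      S.card * Real.log b + ∑ k ∈ S, Real.log (|((P.coeff k : ℤ) : ℝ)| + 1) := by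
    have : ∀ k ∈ S, Real.log ((b : ℝ) * (|((P.coeff k : ℤ) : ℝ)| + 1)) =
        Real.log b + Real.log (|((P.coeff k : ℤ) : ℝ)| + 1) := fun k _ =>
      Real.log_mul hb0.ne' (by positivity)
    rw [sum_congr rfl this, sum_add_distrib, sum_const, nsmul_eq_mul]
  rw [h1, mul_add]
  apply add_le_add le_rfl
  rcases Nat.eq_zero_or_pos S.card with hS0 | hS0
  · rw [Finset.card_eq_zero.1 hS0]; simp
  · have hSr : (0 : ℝ) < S.card := by exact_mod_cast hS0
    refine (sum_log_le S _ (fun k _ => by positivity)).trans ?_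
    apply mul_le_mul_of_nonneg_left _ hSr.le
    apply Real.log_le_log
    · apply div_pos _ hSr
      apply sum_pos (fun k _ => by positivity) (card_pos.1 hS0)
    · rw [sum_add_distrib, sum_const, nsmul_eq_mul, mul_one, add_div, div_self hSr.ne', add_comm]
      apply add_le_add le_rfl
      apply div_le_div_of_nonneg_right _ hSr.le
      refine le_trans ?_ hGsR
      exact_mod_cast hdom.sum_le S

end Pool.Agent.N503.DR
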