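import Mathlib
import Pool.Agent.N503.DRMain

set_option autoImplicit false

namespace Pool.Agent.N503.DR

open Finset Polynomial

/-- `Q ^ d A (X + P / Q)` -/
noncomputable def shiftPoly (A : ℤ[X]) (P Q : ℤ) : ℤ[X] :=
  ∑ j ∈ range (A.natDegree + 1), C (A.coeff j * Q ^ (A.natDegree - j)) * (C Q * X + C P) ^ j

lemma shiftPoly_aeval (A : ℤ[X]) (P Q : ℤ) (hQ : Q ≠ 0) (z : ℝ) :
    aeval z (shiftPoly A P Q) = (Q : ℝ) ^ A.natDegree * aeval (z + P / Q) A := by
  have hQR : (Q : ℝ) ≠ 0 := by exact_mod_cast hQ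
  unfold shiftPoly
  rw [map_sum, aeval_def (z + (P : ℝ) / Q), eval₂_eq_sum_range, mul_sum]
  apply sum_congr rfl
  intro j hj
  have hj' : j ≤ A.natDegree := by have := mem_range.1 hj; omega
  have e1 : (z + (P : ℝ) / Q) = (Q * z + P) / Q := by field_simp
  rw [e1, div_pow]
  have e2 : aeval z (C (A.coeff j * Q ^ (A.natDegree - j)) * (C Q * X + C P) ^ j) =
      ((A.coeff j : ℝ) * (Q : ℝ) ^ (A.natDegree - j)) * (Q * z + P) ^ j := by
    have hC : ∀ a : ℤ, aeval z (C a) = (a : ℝ) := by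
      intro a; rw [aeval_C]; simp
    rw [map_mul (aeval z), map_pow (aeval z), map_add (aeval z), map_mul (aeval z) (C Q) X, hC, hC,
      hC, aeval_X]
    push_cast
    ring
  have e3 : (Q : ℝ) ^ A.natDegree = (Q : ℝ) ^ (A.natDegree - j) * (Q : ℝ) ^ j := by
    rw [← pow_add, Nat.sub_add_cancel hj']
  rw [e2, e3]
  simp only [algebraMap_int_eq, eq_intCast]
  field_simp

lemma shiftPoly_natDegree (A : ℤ[X]) (P Q : ℤ) : (shiftPoly A P Q).natDegree ≤ A.natDegree := by
  unfold shiftPoly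
  apply natDegree_sum_le_of_forall_le
  intro j hj
  have hj' : j ≤ A.natDegree := by have := mem_range.1 hj; omega
  refine (natDegree_C_mul_le _ _).trans (natDegree_pow_le.trans ?_)
  have h1 : (C Q * X + C P : ℤ[X]).natDegree ≤ 1 := natDegree_linear_le
  calc j * (C Q * X + C P : ℤ[X]).natDegree ≤ j * 1 := Nat.mul_le_mul_left _ h1
    _ ≤ _ := by omega

lemma shiftPoly_mod (A : ℤ[X]) (P Q μ : ℤ) (h : μ ∣ Q) :
    C μ ∣ shiftPoly A P Q - C (A.leadingCoeff * P ^ A.natDegree) := by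
  unfold shiftPoly
  rw [sum_range_succ, Nat.sub_self, pow_zero, mul_one, add_sub_assoc]
  apply dvd_add
  · apply Finset.dvd_sum
    intro j hj
    have hj' := mem_range.1 hj
    apply Dvd.dvd.mul_right
    apply (C.map_dvd)
    apply Dvd.dvd.mul_left
    exact h.trans (dvd_pow_self _ (by omega))
  · rw [show (A.leadingCoeff : ℤ) = A.coeff A.natDegree from rfl, C_mul, ← mul_sub]
    apply Dvd.dvd.mul_left
    rw [C_pow]
    refine dvd_trans ?_ (sub_dvd_pow_sub_pow _ _ _)
    rw [add_sub_cancel_right]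
    exact (C.map_dvd h).mul_right _

lemma shiftPoly_coeff (A : ℤ[X]) (P Q μ : ℤ) (h : μ ∣ Q) (j : ℕ) (hj : 1 ≤ j) :
    μ ∣ (shiftPoly A P Q).coeff j := by
  have h1 := (C_dvd_iff_dvd_coeff _ _).1 (shiftPoly_mod A P Q μ h) j
  rw [coeff_sub, coeff_C, if_neg (by omega), sub_zero] at h1
  exact h1

lemma shiftPoly_coeff_zero (A : ℤ[X]) (P Q μ : ℤ) (h : μ ∣ Q) :
    μ ∣ (shiftPoly A P Q).coeff 0 - A.leadingCoeff * P ^ A.natDegree := by
  have h1 := (C_dvd_iff_dvd_coeff _ _).1 (shiftPoly_mod A P Q μ h) 0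
  rw [coeff_sub, coeff_C, if_pos rfl] at h1
  exact h1

lemma shiftPoly_ne (A : ℤ[X]) (P Q μ : ℤ) (b : ℕ) (h : μ ∣ Q) (hP : IsCoprime μ P)
    (hb : IsCoprime μ (b : ℤ)) (hA : ¬ μ ∣ A.leadingCoeff) (m : ℕ) :
    ¬ μ ∣ (shiftPoly A P Q).coeff 0 * (b : ℤ) ^ m := by
  intro h1
  have h2 : μ ∣ (shiftPoly A P Q).coeff 0 := (hb.pow_right (n := m)).dvd_of_dvd_mul_right h1
  have h3 : μ ∣ A.leadingCoeff * P ^ A.natDegree := by
    have := shiftPoly_coeff_zero A P Q μ h
    have h4 := dvd_sub h2 this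
    simpa using h4
  exact hA ((hP.pow_right (n := A.natDegree)).dvd_of_dvd_mul_right h3)

lemma l1_le_of_dom {B G : ℤ[X]} (h : Dom B G) : l1 B ≤ G.eval 1 := h.sum_le _

lemma shiftPoly_l1 (A : ℤ[X]) (P Q : ℤ) :
    l1 (shiftPoly A P Q) ≤ l1 A * (|Q| + |P|) ^ A.natDegree := by
  have hX : Dom (C Q * X + C P) (C |Q| * X + C |P|) := by
    apply Dom.add
    · apply Dom.mul (Dom.const _)
      intro k
      rw [coeff_X]; split_ifs <;> simp
    · exact Dom.const _
  have hdom : Dom (shiftPoly A P Q) (∑ j ∈ range (A.natDegree + 1),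
      C |A.coeff j * Q ^ (A.natDegree - j)| * (C |Q| * X + C |P|) ^ j) :=
    Dom.sum _ _ _ fun j _ => (Dom.const _).mul (hX.pow j)
  refine (l1_le_of_dom hdom).trans ?_
  rw [eval_finsetSum, l1, sum_mul]
  apply sum_le_sum
  intro j hj
  have hj' : j ≤ A.natDegree := by have := mem_range.1 hj; omega
  simp only [eval_mul, eval_pow, eval_add, eval_C, eval_X, mul_one]
  rw [abs_mul, mul_assoc]
  apply mul_le_mul_of_nonneg_left _ (abs_nonneg _)
  rw [abs_pow]
  calc |Q| ^ (A.natDegree - j) * (|Q| + |P|) ^ j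
      ≤ (|Q| + |P|) ^ (A.natDegree - j) * (|Q| + |P|) ^ j := by
        apply mul_le_mul_of_nonneg_right _ (by positivity)
        apply pow_le_pow_left₀ (abs_nonneg _)
        have := abs_nonneg P
        linarith
    _ = _ := by rw [← pow_add, Nat.sub_add_cancel hj']

/-- the numerical part -/
lemma numeric (d : ℕ) (K : ℝ) (hK : 1 ≤ K) :
    ∃ C : ℝ, 0 < C ∧ ∀ (b : ℕ) (Q L : ℝ) (N V n : ℕ), 2 ≤ b → 1 ≤ Q → 1 ≤ L → L ≤ K * Q ^ d →
      (n : ℝ) * Real.log b ≤ Real.log (L * (d * 4 ^ d + ((2 * b * N : ℕ) : ℝ) ^ d + 1)) +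
        V * (Real.log b + Real.log (1 + L * (((2 * b * N : ℕ) : ℝ) ^ d + 1) / V)) →
      (n : ℝ) * Real.log b ≤ C * ((V + 1) * (Real.log (b * Q) +
        Real.log (2 + (N : ℝ) ^ d / (V + 1)))) := by
  set C0 : ℝ := 2 * (Real.log K + d * Real.log 2 + Real.log (d * 4 ^ d + 2) + Real.log 2) with hC0
  have hl2 : 0 < Real.log 2 := Real.log_pos (by norm_num)
  have hlK : 0 ≤ Real.log K := Real.log_nonneg hK
  have hld : 0 ≤ Real.log (d * 4 ^ d + 2) := Real.log_nonneg (by
    have : (0 : ℝ) ≤ d * 4 ^ d := by positivity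
    linarith)
  have hC0' : 0 ≤ C0 := by rw [hC0]; positivity
  refine ⟨C0 / Real.log 2 + 2 * d + 2, by positivity, ?_⟩
  intro b Q L N V n hb hQ hL hLK h
  refine h.trans ?_
  have hbR : (2 : ℝ) ≤ b := by exact_mod_cast hb
  have hlb : 0 < Real.log b := Real.log_pos (by linarith)
  have hlb2 : Real.log 2 ≤ Real.log b := Real.log_le_log (by norm_num) hbR
  have hlQ : 0 ≤ Real.log Q := Real.log_nonneg hQ
  have hV1 : (0 : ℝ) < (V : ℝ) + 1 := by positivity
  have hND : (0 : ℝ) ≤ (N : ℝ) ^ d := by positivity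
  set l := Real.log (2 + (N : ℝ) ^ d / (V + 1)) with hl
  have hl0 : Real.log 2 ≤ l := Real.log_le_log (by norm_num) (by
    have : (0 : ℝ) ≤ (N : ℝ) ^ d / (V + 1) := by positivity
    linarith)
  have hΛ : Real.log (b * Q) = Real.log b + Real.log Q :=
    Real.log_mul (by positivity) (by positivity)
  have hcast : ((2 * b * N : ℕ) : ℝ) ^ d = (2 * b : ℝ) ^ d * (N : ℝ) ^ d := by
    push_cast; rw [mul_pow]
  have h2b : (1 : ℝ) ≤ (2 * b : ℝ) ^ d := one_le_pow₀ (by linarith)
  have hdd : (0 : ℝ) ≤ (d : ℝ) * 4 ^ d := by positivity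
  have hQd : (1 : ℝ) ≤ Q ^ d := one_le_pow₀ hQ
  -- log of the power
  have hlog2b : Real.log ((2 * b : ℝ) ^ d) = d * (Real.log 2 + Real.log b) := by
    rw [Real.log_pow, Real.log_mul (by norm_num) (by positivity)]
  -- first term
  have hBern : Real.log ((N : ℝ) ^ d + 1) ≤ (V + 1) * l := by
    have h1 : (N : ℝ) ^ d + 1 ≤ (2 + (N : ℝ) ^ d / (V + 1)) ^ (V + 1) := by
      have h2 := one_add_mul_le_pow (a := 1 + (N : ℝ) ^ d / (V + 1)) (by
        have : (0 : ℝ) ≤ (N : ℝ) ^ d / (V + 1) := by positivity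
        linarith) (V + 1)
      have h3 : (1 : ℝ) + (1 + (N : ℝ) ^ d / (V + 1)) = 2 + (N : ℝ) ^ d / (V + 1) := by ring
      rw [h3] at h2
      refine le_trans ?_ h2
      push_cast
      have h4 : ((V : ℝ) + 1) * (1 + (N : ℝ) ^ d / (V + 1)) = V + 1 + (N : ℝ) ^ d := by
        field_simp
      rw [h4]
      have : (0 : ℝ) ≤ V := Nat.cast_nonneg _
      linarith
    have h5 := Real.log_le_log (by positivity) h1
    rw [Real.log_pow] at h5
    push_cast at h5
    exact h5
  have hT1 : Real.log (L * (d * 4 ^ d + ((2 * b * N : ℕ) : ℝ) ^ d + 1)) ≤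
      Real.log K + d * Real.log Q + Real.log (d * 4 ^ d + 2) + d * (Real.log 2 + Real.log b) +
        Real.log ((N : ℝ) ^ d + 1) := by
    have h1 : L * (d * 4 ^ d + ((2 * b * N : ℕ) : ℝ) ^ d + 1) ≤
        K * Q ^ d * ((d * 4 ^ d + 2) * (2 * b : ℝ) ^ d * ((N : ℝ) ^ d + 1)) := by
      apply mul_le_mul hLK _ (by positivity) (by positivity)
      rw [hcast]
      have h2 : (d : ℝ) * 4 ^ d + 1 ≤ (d * 4 ^ d + 1) * (2 * b : ℝ) ^ d :=
        le_mul_of_one_le_right (by positivity) h2b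
      have h3 : (0 : ℝ) ≤ (2 * b : ℝ) ^ d * (d * 4 ^ d + 1) * (N : ℝ) ^ d := by positivity
      nlinarith
    refine (Real.log_le_log (by positivity) h1).trans (le_of_eq ?_)
    rw [Real.log_mul (by positivity) (by positivity), Real.log_mul (by positivity) (by positivity),
      Real.log_mul (by positivity) (by positivity), Real.log_mul (by positivity) (by positivity),
      hlog2b, Real.log_pow]
    ring
  -- second term
  have hT2 : (V : ℝ) * (Real.log b + Real.log (1 + L * (((2 * b * N : ℕ) : ℝ) ^ d + 1) / V)) ≤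
      V * (Real.log b + (Real.log K + d * Real.log Q + d * (Real.log 2 + Real.log b) +
        Real.log 2 + l)) := by
    rcases Nat.eq_zero_or_pos V with h0 | h0
    · rw [h0]; simp
    · have hVr : (1 : ℝ) ≤ V := by exact_mod_cast h0
      apply mul_le_mul_of_nonneg_left _ (by linarith)
      apply add_le_add le_rfl
      have h1 : 1 + L * (((2 * b * N : ℕ) : ℝ) ^ d + 1) / V ≤
          K * Q ^ d * (2 * b : ℝ) ^ d * (2 * (2 + (N : ℝ) ^ d / (V + 1))) := by
        have hKQ : 1 ≤ K * Q ^ d * (2 * b : ℝ) ^ d := by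
          have : (1 : ℝ) ≤ K * Q ^ d := by nlinarith
          nlinarith
        have h2 : L * (((2 * b * N : ℕ) : ℝ) ^ d + 1) ≤
            K * Q ^ d * (2 * b : ℝ) ^ d * ((N : ℝ) ^ d + 1) := by
          rw [hcast, mul_assoc (K * Q ^ d)]
          apply mul_le_mul hLK _ (by positivity) (by positivity)
          nlinarith
        have h3 : ((N : ℝ) ^ d + 1) / V ≤ 2 * (N : ℝ) ^ d / (V + 1) + 1 := by
          have h4 : 2 * (N : ℝ) ^ d / (V + 1) + 1 = (2 * (N : ℝ) ^ d + V + 1) / (V + 1) := by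
            field_simp
            ring
          rw [h4, div_le_div_iff₀ (by linarith) hV1]
          nlinarith
        calc 1 + L * (((2 * b * N : ℕ) : ℝ) ^ d + 1) / V
            ≤ K * Q ^ d * (2 * b : ℝ) ^ d +
              K * Q ^ d * (2 * b : ℝ) ^ d * ((N : ℝ) ^ d + 1) / V := by
              apply add_le_add hKQ
              exact div_le_div_of_nonneg_right h2 (by linarith)
          _ = K * Q ^ d * (2 * b : ℝ) ^ d * (1 + ((N : ℝ) ^ d + 1) / V) := by ring
          _ ≤ K * Q ^ d * (2 * b : ℝ) ^ d * (1 + (2 * (N : ℝ) ^ d / (V + 1) + 1)) := by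
              apply mul_le_mul_of_nonneg_left _ (by positivity)
              linarith
          _ ≤ _ := by
              apply mul_le_mul_of_nonneg_left _ (by positivity)
              have : 2 * (N : ℝ) ^ d / (V + 1) = 2 * ((N : ℝ) ^ d / (V + 1)) := by ring
              linarith
      refine (Real.log_le_log (by positivity) h1).trans (le_of_eq ?_)
      rw [Real.log_mul (by positivity) (by positivity),
        Real.log_mul (by positivity) (by positivity),
        Real.log_mul (by positivity) (by positivity),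
        Real.log_mul (by positivity) (by positivity), hlog2b, Real.log_pow]
      ring
  refine (add_le_add hT1 hT2).trans ?_
  rw [hΛ]
  have hVn : (0 : ℝ) ≤ V := Nat.cast_nonneg _
  have hdn : (0 : ℝ) ≤ d := Nat.cast_nonneg _
  -- collect
  have key : Real.log K + d * Real.log Q + Real.log (d * 4 ^ d + 2) +
      d * (Real.log 2 + Real.log b) + Real.log ((N : ℝ) ^ d + 1) +
      V * (Real.log b + (Real.log K + d * Real.log Q + d * (Real.log 2 + Real.log b) +
        Real.log 2 + l)) ≤ (V + 1) * (C0 + (2 * d + 1) * (Real.log b + Real.log Q) + 2 * l) := by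
    rw [hC0]
    have a1 : 0 ≤ V * Real.log K := by positivity
    have a2 : 0 ≤ V * Real.log 2 := by positivity
    have a3 : 0 ≤ V * Real.log (d * 4 ^ d + 2) := by positivity
    have a4 : 0 ≤ V * (d * Real.log Q) := by positivity
    have a5 : 0 ≤ V * (d * Real.log b) := by positivity
    have a6 : 0 ≤ V * (d * Real.log 2) := by positivity
    have a7 : 0 ≤ (d : ℝ) * Real.log Q := by positivity
    have a8 : 0 ≤ (d : ℝ) * Real.log b := by positivity
    have a9 : 0 ≤ (d : ℝ) * Real.log 2 := by positivity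
    have a10 : 0 ≤ V * Real.log Q := by positivity
    have a11 : 0 ≤ V * l := mul_nonneg hVn (by linarith)
    nlinarith
  refine key.trans ?_
  have h5 : C0 ≤ C0 / Real.log 2 * (Real.log b + Real.log Q) := by
    rw [div_mul_eq_mul_div, le_div_iff₀ hl2]
    apply mul_le_mul_of_nonneg_left _ hC0'
    linarith
  have h6 : 0 ≤ C0 / Real.log 2 := by positivity
  have h7 : C0 + (2 * d + 1) * (Real.log b + Real.log Q) + 2 * l ≤
      (C0 / Real.log 2 + 2 * d + 2) * (Real.log b + Real.log Q + l) := by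
    have b1 : 0 ≤ C0 / Real.log 2 * l := mul_nonneg h6 (by linarith)
    have b2 : 0 ≤ (d : ℝ) * l := mul_nonneg hdn (by linarith)
    nlinarith
  calc (V + 1) * (C0 + (2 * d + 1) * (Real.log b + Real.log Q) + 2 * l)
      ≤ (V + 1) * ((C0 / Real.log 2 + 2 * d + 2) * (Real.log b + Real.log Q + l)) :=
        mul_le_mul_of_nonneg_left h7 hV1.le
    _ = _ := by ring

end Pool.Agent.N503.DR
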