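import Mathlib
import Pool.Agent.N503.DRShift

set_option autoImplicit false

namespace Pool.Agent.N503.DR

open Finset Polynomial

/-- the `k`-th digit of `x` after the point in base `b` -/
noncomputable def digit (b : ℕ) (x : ℝ) (k : ℕ) : ℤ := ⌊x * (b : ℝ) ^ k⌋ % (b : ℤ)

lemma digit_nonneg (b : ℕ) (hb : 2 ≤ b) (x : ℝ) (k : ℕ) : 0 ≤ digit b x k :=
  Int.emod_nonneg _ (by exact_mod_cast (by omega : b ≠ 0))

lemma digit_lt (b : ℕ) (hb : 2 ≤ b) (x : ℝ) (k : ℕ) : digit b x k < b :=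
  Int.emod_lt_of_pos _ (by exact_mod_cast (by omega : 0 < b))

lemma digit_eq (b : ℕ) (hb : 2 ≤ b) (x : ℝ) (k : ℕ) :
    digit b x (k + 1) = ⌊x * (b : ℝ) ^ (k + 1)⌋ - b * ⌊x * (b : ℝ) ^ k⌋ := by
  have hb0 : (0 : ℝ) < b := by positivity
  have h1 : ⌊x * (b : ℝ) ^ (k + 1)⌋ / (b : ℤ) = ⌊x * (b : ℝ) ^ k⌋ := by
    rw [← Int.floor_div_natCast (k := ℝ)]
    congr 1
    rw [pow_succ]; field_simp
  have h2 := Int.emod_add_mul_ediv ⌊x * (b : ℝ) ^ (k + 1)⌋ b
  rw [h1] at h2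
  unfold digit
  linarith

lemma digit_sum (b : ℕ) (hb : 2 ≤ b) (x : ℝ) (n : ℕ) :
    ∑ k ∈ Icc 1 n, (digit b x k : ℝ) / (b : ℝ) ^ k = ⌊x * (b : ℝ) ^ n⌋ / (b : ℝ) ^ n - ⌊x⌋ := by
  have hb0 : (0 : ℝ) < b := by positivity
  induction n with
  | zero => simp
  | succ n ih =>
    rw [sum_Icc_succ_top (by omega), ih, digit_eq b hb]
    push_cast
    rw [pow_succ]
    field_simp
    ring

lemma digit_approx (b : ℕ) (hb : 2 ≤ b) (x : ℝ) (n : ℕ) :
    0 ≤ Int.fract x - ∑ k ∈ Icc 1 n, (digit b x k : ℝ) / (b : ℝ) ^ k ∧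
      Int.fract x - ∑ k ∈ Icc 1 n, (digit b x k : ℝ) / (b : ℝ) ^ k ≤ 1 / (b : ℝ) ^ n := by
  have hb0 : (0 : ℝ) < b := by positivity
  have hp : (0 : ℝ) < (b : ℝ) ^ n := by positivity
  rw [digit_sum b hb, Int.fract]
  have h1 := Int.floor_le (x * (b : ℝ) ^ n)
  have h2 := Int.lt_floor_add_one (x * (b : ℝ) ^ n)
  have e : x - ⌊x⌋ - (⌊x * (b : ℝ) ^ n⌋ / (b : ℝ) ^ n - ⌊x⌋) =
      (x * (b : ℝ) ^ n - ⌊x * (b : ℝ) ^ n⌋) / (b : ℝ) ^ n := by field_simp; ring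
  rw [e]
  constructor
  · apply div_nonneg _ hp.le; linarith
  · exact div_le_div_of_nonneg_right (by linarith) hp.le

lemma sum_le_two (b : ℕ) (hb : 2 ≤ b) (s : ℕ → ℤ) (hs : ∀ k, |s k| ≤ b) (n : ℕ) :
    |∑ k ∈ Icc 1 n, (s k : ℝ) / (b : ℝ) ^ k| ≤ 2 := by
  have hb0 : (0 : ℝ) < b := by positivity
  have hb2 : (2 : ℝ) ≤ b := by exact_mod_cast hb
  suffices h : |∑ k ∈ Icc 1 n, (s k : ℝ) / (b : ℝ) ^ k| ≤ 2 - 2 / (b : ℝ) ^ n by
    have : (0 : ℝ) ≤ 2 / (b : ℝ) ^ n := by positivity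
    linarith
  induction n with
  | zero => simp
  | succ n ih =>
    rw [sum_Icc_succ_top (by omega)]
    have h1 : |(s (n + 1) : ℝ) / (b : ℝ) ^ (n + 1)| ≤ 1 / (b : ℝ) ^ n := by
      rw [abs_div, abs_of_pos (by positivity : (0 : ℝ) < (b : ℝ) ^ (n + 1)),
        div_le_div_iff₀ (by positivity) (by positivity), pow_succ]
      have h2 : |(s (n + 1) : ℝ)| ≤ b := by exact_mod_cast hs (n + 1)
      have h3 : (0 : ℝ) < (b : ℝ) ^ n := by positivity
      nlinarith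
    have h4 : 2 - 2 / (b : ℝ) ^ n + 1 / (b : ℝ) ^ n ≤ 2 - 2 / (b : ℝ) ^ (n + 1) := by
      have h5 : 2 / (b : ℝ) ^ (n + 1) ≤ 1 / (b : ℝ) ^ n := by
        rw [div_le_div_iff₀ (by positivity) (by positivity), pow_succ]
        have h3 : (0 : ℝ) < (b : ℝ) ^ n := by positivity
        nlinarith
      have h6 : 2 / (b : ℝ) ^ n = 1 / (b : ℝ) ^ n + 1 / (b : ℝ) ^ n := by ring
      linarith
    exact (abs_add_le _ _).trans ((add_le_add ih h1).trans h4)

/-- the places in `[1, n]` where the digits of `x` differ from `s` -/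
noncomputable def Diff (b : ℕ) (x : ℝ) (s : ℕ → ℤ) (n : ℕ) : Finset ℕ :=
  (Icc 1 n).filter fun k => digit b x k ≠ s k

theorem main (A : ℤ[X]) (hA : A ≠ 0) (ξ : ℝ) (hξ : aeval ξ A = 0) :
    ∃ C : ℝ, 0 < C ∧ ∀ (b : ℕ) (P : ℤ) (Q : ℕ) (μ : ℤ) (s : ℕ → ℤ) (n : ℕ), 2 ≤ b → 1 ≤ Q →
      μ ∣ Q → IsCoprime μ P → IsCoprime μ (b : ℤ) → ¬ μ ∣ A.leadingCoeff →
      (∀ k, |s k| ≤ b) → |(P : ℝ) / Q| ≤ 2 →
      |∑ k ∈ Icc 1 n, (s k : ℝ) / (b : ℝ) ^ k - P / Q| ≤ 2 / (b : ℝ) ^ n →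
      (n : ℝ) * Real.log b ≤ C * (((Sums (Diff b ξ s n) A.natDegree n).card + 1) *
        (Real.log (b * Q) + Real.log (2 + ((Diff b ξ s n).card : ℝ) ^ A.natDegree /
          ((Sums (Diff b ξ s n) A.natDegree n).card + 1)))) := by
  set d := A.natDegree with hd
  set K : ℝ := l1 A * (4 + |ξ|) ^ d with hK
  have hl1 : (1 : ℝ) ≤ l1 A := by exact_mod_cast l1_pos A hA
  have hK1 : 1 ≤ K := by
    have : (1 : ℝ) ≤ (4 + |ξ|) ^ d := one_le_pow₀ (by have := abs_nonneg ξ; linarith)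
    rw [hK]; nlinarith
  obtain ⟨C, hC, h⟩ := numeric d K hK1
  refine ⟨C, hC, ?_⟩
  intro b P Q μ s n hb hQ hμQ hμP hμb hμA hs hPQ happ
  set P' : ℤ := P + Q * ⌊ξ⌋ with hP'
  set z : ℝ := Int.fract ξ - P / Q with hz
  set B := shiftPoly A P' Q with hB
  have hQR : (0 : ℝ) < Q := by exact_mod_cast hQ
  have hQR1 : (1 : ℝ) ≤ Q := by exact_mod_cast hQ
  have hbR : (2 : ℝ) ≤ b := by exact_mod_cast hb
  have hQZ : (Q : ℤ) ≠ 0 := by exact_mod_cast (by omega : Q ≠ 0)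
  set e : ℕ → ℤ := fun k => digit b ξ k - s k with he
  have hzB : aeval z B = 0 := by
    rw [hB, shiftPoly_aeval A P' Q hQZ]
    have : z + (P' : ℝ) / ((Q : ℤ) : ℝ) = ξ := by
      rw [hz, hP', Int.fract]
      push_cast
      field_simp
      ring
    rw [this, hξ, mul_zero]
  have hcop : IsCoprime μ P' := by
    rw [hP']
    obtain ⟨c, hc⟩ := hμQ
    rw [hc, mul_assoc]
    exact hμP.add_mul_left_right _
  have hsum : ∑ k ∈ Icc 1 n, (e k : ℝ) / (b : ℝ) ^ k =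
      ∑ k ∈ Icc 1 n, (digit b ξ k : ℝ) / (b : ℝ) ^ k - ∑ k ∈ Icc 1 n, (s k : ℝ) / (b : ℝ) ^ k := by
    rw [← sum_sub_distrib]
    apply sum_congr rfl
    intro k _
    rw [he]; push_cast; ring
  obtain ⟨hd1, hd2⟩ := digit_approx b hb ξ n
  have hf0 := Int.fract_nonneg ξ
  have hf1 := (Int.fract_lt_one ξ).le
  have hs2 := sum_le_two b hb s hs n
  have hDn : 0 ≤ ∑ k ∈ Icc 1 n, (digit b ξ k : ℝ) / (b : ℝ) ^ k := by
    apply sum_nonneg
    intro k _
    have : (0 : ℝ) ≤ digit b ξ k := by exact_mod_cast digit_nonneg b hb ξ k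
    positivity
  have hbn : (0 : ℝ) < (b : ℝ) ^ n := by positivity
  have hcore := core b hb B d (shiftPoly_natDegree A P' Q) μ
    (fun j hj => shiftPoly_coeff A P' Q μ hμQ j hj)
    (fun m => shiftPoly_ne A P' Q μ b hμQ hcop hμb hμA m) z hzB e (fun k => by
      have h1 := digit_nonneg b hb ξ k
      have h2 := digit_lt b hb ξ k
      have h3 := abs_le.1 (hs k)
      rw [he, abs_le]
      constructor <;> simp only <;> linarith [h3.1, h3.2]) n
    (by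
      rw [hz]
      have h1 := abs_le.1 hPQ
      rw [abs_le]
      constructor <;> linarith [h1.1, h1.2])
    (by
      rw [hsum]
      have h1 := abs_le.1 hs2
      rw [abs_le]
      constructor <;> linarith [h1.1, h1.2])
    (by
      rw [hsum, hz]
      have h1 := abs_le.1 happ
      have h4 : 4 / (b : ℝ) ^ n = 2 / (b : ℝ) ^ n + 2 * (1 / (b : ℝ) ^ n) := by ring
      have h5 : (0 : ℝ) ≤ 1 / (b : ℝ) ^ n := by positivity
      rw [abs_le]
      constructor <;> linarith [h1.1, h1.2])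
  have hDe : Dset e n = Diff b ξ s n := by
    unfold Dset Diff
    apply filter_congr
    intro k _
    rw [he]
    simp only [ne_eq, sub_eq_zero]
  rw [hDe] at hcore
  have hL1 : (1 : ℝ) ≤ l1 B := by
    have : B ≠ 0 := by
      intro h0
      have h1 := shiftPoly_ne A P' Q μ b hμQ hcop hμb hμA 0
      rw [← hB, h0] at h1
      simp at h1
    exact_mod_cast l1_pos B this
  refine h b Q (l1 B) _ _ n hb hQR1 hL1 ?_ hcore
  have h1 : (l1 B : ℝ) ≤ l1 A * (|(Q : ℝ)| + |(P' : ℝ)|) ^ d := by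
    exact_mod_cast shiftPoly_l1 A P' Q
  refine h1.trans ?_
  rw [hK, mul_assoc, ← mul_pow]
  apply mul_le_mul_of_nonneg_left _ (by linarith)
  apply pow_le_pow_left₀ (by positivity)
  rw [abs_of_pos hQR]
  have h2 : |(P' : ℝ)| ≤ Q * (3 + |ξ|) := by
    have h3 : (P' : ℝ) = Q * (P / Q + ⌊ξ⌋) := by
      rw [hP']; push_cast; field_simp
    rw [h3, abs_mul, abs_of_pos hQR]
    apply mul_le_mul_of_nonneg_left _ hQR.le
    have h4 : |(⌊ξ⌋ : ℝ)| ≤ |ξ| + 1 := by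
      have h5 := Int.floor_le ξ
      have h6 := Int.lt_floor_add_one ξ
      have h7 := abs_le.1 (le_refl |ξ|)
      rw [abs_le]
      constructor <;> linarith [h7.1, h7.2]
    calc |(P : ℝ) / Q + ⌊ξ⌋| ≤ |(P : ℝ) / Q| + |(⌊ξ⌋ : ℝ)| := abs_add_le _ _
      _ ≤ 2 + (|ξ| + 1) := add_le_add hPQ h4
      _ = _ := by ring
  linarith [h2]

/-- there are few sums -/
lemma card_Sums (D : Finset ℕ) (d n : ℕ) : (Sums D d n).card ≤ d * D.card ^ d := by
  classical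
  have hsub : Sums D d n ⊆ (Icc 1 d).biUnion fun j =>
      (Fintype.piFinset fun _ : Fin j => D).image fun f => ∑ i, f i := by
    intro k hk
    rw [Sums, mem_filter, mem_Icc] at hk
    obtain ⟨⟨h1, h2⟩, t, ht1, ht2, ht3⟩ := hk
    rw [mem_biUnion]
    refine ⟨t.card, ?_, ?_⟩
    · rw [mem_Icc]
      refine ⟨?_, ht2⟩
      by_contra h0
      have : t = 0 := Multiset.card_eq_zero.1 (by omega)
      rw [this, Multiset.sum_zero] at ht3
      omega
    · rw [mem_image]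
      refine ⟨fun i => t.toList.get (i.cast (by simp)), ?_, ?_⟩
      · rw [Fintype.mem_piFinset]
        intro i
        apply ht1
        rw [← Multiset.mem_toList]
        exact List.get_mem _ _
      · have : ∑ i : Fin t.card, t.toList.get (i.cast (by simp)) =
            ∑ i : Fin t.toList.length, t.toList.get i := by
          apply Fintype.sum_equiv (finCongr (by simp))
          intro i; rfl
        rw [this, ← ht3]
        conv_rhs => rw [← Multiset.coe_toList t, Multiset.sum_coe]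
        rw [← List.sum_ofFn, List.ofFn_get]
  refine (card_le_card hsub).trans (card_biUnion_le.trans ?_)
  have h1 : ∀ j ∈ Icc 1 d, ((Fintype.piFinset fun _ : Fin j => D).image
      fun f => ∑ i, f i).card ≤ D.card ^ d := by
    intro j hj
    obtain ⟨hj1, hj2⟩ := mem_Icc.1 hj
    refine card_image_le.trans ?_
    rw [Fintype.card_piFinset_const]
    rcases Nat.eq_zero_or_pos D.card with h0 | h0
    · rw [h0, zero_pow (by omega)]; exact Nat.zero_le _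
    · exact Nat.pow_le_pow_right h0 hj2
  refine (sum_le_sum h1).trans (le_of_eq ?_)
  rw [sum_const, Nat.card_Icc, smul_eq_mul, Nat.add_sub_cancel]

/-- from sums to places -/
lemma simple (d : ℕ) (C x l : ℝ) (N V : ℕ) (hC : 0 ≤ C) (hV : V ≤ d * N ^ d)
    (hl : Real.log 2 ≤ l)
    (h : x ≤ C * (((V : ℝ) + 1) * (l + Real.log (2 + (N : ℝ) ^ d / (V + 1))))) :
    x ≤ C * ((d + 1) * (1 + 2 / Real.log 2)) * (((N : ℝ) ^ d + 1) * l) := by
  have hV1 : (0 : ℝ) < (V : ℝ) + 1 := by positivity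
  have hl2 : 0 < Real.log 2 := Real.log_pos (by norm_num)
  have hVR : (V : ℝ) ≤ d * (N : ℝ) ^ d := by exact_mod_cast hV
  have hN : (0 : ℝ) ≤ (N : ℝ) ^ d := by positivity
  have h1 : Real.log (2 + (N : ℝ) ^ d / (V + 1)) ≤ 1 + (N : ℝ) ^ d / (V + 1) := by
    have := Real.log_le_sub_one_of_pos (by positivity : 0 < 2 + (N : ℝ) ^ d / (V + 1))
    linarith
  refine h.trans ?_
  rw [mul_assoc C]
  apply mul_le_mul_of_nonneg_left _ hC
  have h2 : ((V : ℝ) + 1) * (l + Real.log (2 + (N : ℝ) ^ d / (V + 1))) ≤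
      (V + 1) * l + (V + 1) + (N : ℝ) ^ d := by
    calc ((V : ℝ) + 1) * (l + Real.log (2 + (N : ℝ) ^ d / (V + 1)))
        ≤ (V + 1) * (l + (1 + (N : ℝ) ^ d / (V + 1))) := by
          apply mul_le_mul_of_nonneg_left _ hV1.le
          linarith
      _ = _ := by field_simp; ring
  refine h2.trans ?_
  have hd0 : (0 : ℝ) ≤ d := Nat.cast_nonneg _
  have h3 : (V : ℝ) + 1 ≤ (d + 1) * ((N : ℝ) ^ d + 1) := by nlinarith
  have h4 : (1 : ℝ) ≤ l / Real.log 2 := by rw [le_div_iff₀ hl2]; linarith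
  have h5 : (V : ℝ) + 1 + (N : ℝ) ^ d ≤ (d + 1) * ((N : ℝ) ^ d + 1) * 2 := by nlinarith
  have h6 : (0 : ℝ) ≤ (d + 1) * ((N : ℝ) ^ d + 1) := by positivity
  have hl0 : 0 < l := by linarith
  calc (V + 1) * l + (V + 1) + (N : ℝ) ^ d
      ≤ (d + 1) * ((N : ℝ) ^ d + 1) * l + (d + 1) * ((N : ℝ) ^ d + 1) * 2 := by
        have := mul_le_mul_of_nonneg_right h3 hl0.le
        linarith
    _ ≤ (d + 1) * ((N : ℝ) ^ d + 1) * l + (d + 1) * ((N : ℝ) ^ d + 1) * 2 * (l / Real.log 2) := by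
        have : 0 ≤ (d + 1) * ((N : ℝ) ^ d + 1) * 2 := by positivity
        nlinarith
    _ = _ := by field_simp

end Pool.Agent.N503.DR
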