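import Mathlib
import Pool.Agent.N503.DRDig

set_option autoImplicit false

namespace Pool.Agent.N503.DR

open Finset Polynomial Filter

lemma sum_le_two' (b : ℕ) (hb : 2 ≤ b) (s : ℕ → ℤ) (hs : ∀ k, |s k| ≤ b) (n : ℕ) :
    |∑ k ∈ Icc 1 n, (s k : ℝ) / (b : ℝ) ^ k| ≤ 2 - 2 / (b : ℝ) ^ n := by
  have hb0 : (0 : ℝ) < b := by positivity
  have hb2 : (2 : ℝ) ≤ b := by exact_mod_cast hb
  induction n with
  | zero => simp
  | succ n ih =>
    rw [sum_Icc_succ_top (by omega)]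
    have h1 : |(s (n + 1) : ℝ) / (b : ℝ) ^ (n + 1)| ≤ 1 / (b : ℝ) ^ n := by
      rw [abs_div, abs_of_pos (by positivity : (0 : ℝ) < (b : ℝ) ^ (n + 1)),
        div_le_div_iff₀ (by positivity) (by positivity), pow_succ]
      have h2 : |(s (n + 1) : ℝ)| ≤ b := by exact_mod_cast hs (n + 1)
      have h3 : (0 : ℝ) < (b : ℝ) ^ n := by positivity
      nlinarith
    have h4 : 2 - 2 / (b : ℝ) ^ n + 1 / (b : ℝ) ^ n ≤ 2 - 2 / (b : ℝ) ^ (n + 1) := by
      have h5 : 2 / (b : ℝ) ^ (n + 1) ≤ 1 / (b : ℝ) ^ n := by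
        rw [div_le_div_iff₀ (by positivity) (by positivity), pow_succ]
        have h3 : (0 : ℝ) < (b : ℝ) ^ n := by positivity
        nlinarith
      have h6 : 2 / (b : ℝ) ^ n = 1 / (b : ℝ) ^ n + 1 / (b : ℝ) ^ n := by ring
      linarith
    exact (abs_add_le _ _).trans ((add_le_add ih h1).trans h4)

/-- splitting a sum at `n` -/
lemma split (b : ℕ) (hb : 2 ≤ b) (s : ℕ → ℤ) (n m : ℕ) :
    ∑ k ∈ Icc 1 (n + m), (s k : ℝ) / (b : ℝ) ^ k = ∑ k ∈ Icc 1 n, (s k : ℝ) / (b : ℝ) ^ k +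
      (∑ k ∈ Icc 1 m, (s (n + k) : ℝ) / (b : ℝ) ^ k) / (b : ℝ) ^ n := by
  have hb0 : (0 : ℝ) < b := by positivity
  induction m with
  | zero => simp
  | succ m ih =>
    rw [← add_assoc, sum_Icc_succ_top (by omega), ih, sum_Icc_succ_top (by omega : 1 ≤ m + 1)]
    have : (b : ℝ) ^ (n + m + 1) = (b : ℝ) ^ (m + 1) * (b : ℝ) ^ n := by ring
    rw [this, ← add_assoc]
    field_simp
    ring

lemma tail (b : ℕ) (hb : 2 ≤ b) (s : ℕ → ℤ) (hs : ∀ k, |s k| ≤ b) (y : ℝ)
    (h : HasSum (fun k : ℕ => (s (k + 1) : ℝ) / (b : ℝ) ^ (k + 1)) y) (n : ℕ) :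
    |∑ k ∈ Icc 1 n, (s k : ℝ) / (b : ℝ) ^ k - y| ≤ 2 / (b : ℝ) ^ n := by
  have hb0 : (0 : ℝ) < b := by positivity
  have h1 := h.tendsto_sum_nat
  have h2 := ((tendsto_const_nhds (x := ∑ k ∈ Icc 1 n, (s k : ℝ) / (b : ℝ) ^ k)).sub h1).abs
  refine le_of_tendsto h2 ?_
  filter_upwards [eventually_ge_atTop n] with m hm
  obtain ⟨t, rfl⟩ := Nat.exists_eq_add_of_le hm
  have h3 : ∑ k ∈ range (n + t), (s (k + 1) : ℝ) / (b : ℝ) ^ (k + 1) =
      ∑ k ∈ Icc 1 (n + t), (s k : ℝ) / (b : ℝ) ^ k := by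
    rw [range_eq_Ico, Finset.sum_Ico_add' (fun k => (s k : ℝ) / (b : ℝ) ^ k) 0 (n + t) 1]
    rfl
  rw [h3, split b hb s n t, sub_add_cancel_left, abs_neg, abs_div,
    abs_of_pos (by positivity : (0 : ℝ) < (b : ℝ) ^ n)]
  apply div_le_div_of_nonneg_right _ (by positivity)
  exact sum_le_two b hb (fun k => s (n + k)) (fun k => hs _) t

/-- the general theorem, in terms of a rational number -/
theorem gen (A : ℤ[X]) (hA : A ≠ 0) (ξ : ℝ) (hξ : aeval ξ A = 0) :
    ∃ C : ℝ, 0 < C ∧ ∀ (b : ℕ) (y : ℚ) (s : ℕ → ℤ), 2 ≤ b →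
      (∃ m : ℕ, m ∣ y.den ∧ m.Coprime b ∧ ¬ (m : ℤ) ∣ A.leadingCoeff) →
      (∀ k, |s k| ≤ b) →
      (∀ n : ℕ, |∑ k ∈ Icc 1 n, (s k : ℝ) / (b : ℝ) ^ k - y| ≤ 2 / (b : ℝ) ^ n) → ∀ n : ℕ,
      (n : ℝ) * Real.log b ≤ C * (((Sums (Diff b ξ s n) A.natDegree n).card + 1) *
        (Real.log (b * y.den) + Real.log (2 + ((Diff b ξ s n).card : ℝ) ^ A.natDegree /
          ((Sums (Diff b ξ s n) A.natDegree n).card + 1)))) ∧
      (n : ℝ) * Real.log b ≤ C * ((((Diff b ξ s n).card : ℝ) ^ A.natDegree + 1) *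
        Real.log (b * y.den)) := by
  obtain ⟨C, hC, h⟩ := main A hA ξ hξ
  have hl2 : 0 < Real.log 2 := Real.log_pos (by norm_num)
  set K : ℝ := (A.natDegree + 1) * (1 + 2 / Real.log 2) with hK
  have hK1 : 1 ≤ K := by
    have h1 : (0 : ℝ) ≤ A.natDegree := Nat.cast_nonneg _
    have h2 : (0 : ℝ) ≤ 2 / Real.log 2 := by positivity
    rw [hK]; nlinarith
  refine ⟨C * K, by positivity, ?_⟩
  intro b y s hb hm hs happ n
  obtain ⟨m, hm1, hm2, hm3⟩ := hm
  have hyq : ((y.num : ℤ) : ℝ) / (y.den : ℝ) = (y : ℝ) := by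
    exact_mod_cast (Rat.cast_def (K := ℝ) y).symm
  have hden : 1 ≤ y.den := y.den_pos
  have h1 := h b y.num y.den m s n hb hden (by exact_mod_cast hm1)
    (by
      have := (Nat.Coprime.symm y.reduced).coprime_dvd_left hm1
      rw [Int.isCoprime_iff_gcd_eq_one]
      simpa [Int.gcd, Nat.Coprime] using this)
    (by exact_mod_cast Nat.isCoprime_iff_coprime.2 hm2) hm3 hs
    (by
      rw [hyq]
      have := happ 0
      simpa using this)
    (by rw [hyq]; exact happ n)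
  have hbR : (2 : ℝ) ≤ b := by exact_mod_cast hb
  have hdR : (1 : ℝ) ≤ y.den := by exact_mod_cast hden
  have hl : Real.log 2 ≤ Real.log (b * y.den) := by
    apply Real.log_le_log (by norm_num)
    nlinarith
  constructor
  · refine h1.trans ?_
    rw [mul_assoc]
    apply mul_le_mul_of_nonneg_left _ hC.le
    apply le_mul_of_one_le_left _ hK1
    apply mul_nonneg (by positivity)
    have h3 : 0 ≤ Real.log (2 + ((Diff b ξ s n).card : ℝ) ^ A.natDegree /
          ((Sums (Diff b ξ s n) A.natDegree n).card + 1)) := by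
      apply Real.log_nonneg
      have : (0 : ℝ) ≤ ((Diff b ξ s n).card : ℝ) ^ A.natDegree /
          ((Sums (Diff b ξ s n) A.natDegree n).card + 1) := by positivity
      linarith
    linarith
  · exact simple A.natDegree C _ _ _ _ hC.le (card_Sums _ _ _) hl h1

/-- partial sums of digits -/
noncomputable def TT (b : ℕ) (s : ℕ → ℤ) (n : ℕ) : ℤ := ∑ k ∈ Icc 1 n, s k * (b : ℤ) ^ (n - k)

lemma TT_succ (b : ℕ) (s : ℕ → ℤ) (n : ℕ) : TT b s (n + 1) = b * TT b s n + s (n + 1) := by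
  unfold TT
  rw [sum_Icc_succ_top (by omega), mul_sum]
  congr 1
  · apply sum_congr rfl
    intro k hk
    have := (mem_Icc.1 hk).2
    rw [Nat.succ_sub this, pow_succ]; ring
  · simp

lemma TT_real (b : ℕ) (hb : 2 ≤ b) (s : ℕ → ℤ) (n : ℕ) :
    ∑ k ∈ Icc 1 n, (s k : ℝ) / (b : ℝ) ^ k = TT b s n / (b : ℝ) ^ n := by
  have hb0 : (0 : ℝ) < b := by positivity
  induction n with
  | zero => simp [TT]
  | succ n ih =>
    rw [sum_Icc_succ_top (by omega), ih, TT_succ, pow_succ]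
    push_cast
    field_simp

lemma TT_add (b : ℕ) (s : ℕ → ℤ) (n m : ℕ) :
    TT b s (n + m) = (b : ℤ) ^ m * TT b s n + TT b (fun k => s (n + k)) m := by
  induction m with
  | zero => simp [TT]
  | succ m ih =>
    rw [← add_assoc, TT_succ, ih, TT_succ]
    ring

lemma TT_lt (b : ℕ) (s : ℕ → ℤ) (hs : ∀ k, 0 ≤ s k ∧ s k < b) (m : ℕ) :
    0 ≤ TT b s m ∧ TT b s m ≤ (b : ℤ) ^ m - 1 := by
  induction m with
  | zero => simp [TT]
  | succ m ih =>
    rw [TT_succ]
    have h1 := hs (m + 1)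
    have hb0 : (0 : ℤ) ≤ b := Int.natCast_nonneg _
    constructor
    · have := mul_nonneg hb0 ih.1
      linarith [h1.1]
    · have := mul_le_mul_of_nonneg_left ih.2 hb0
      rw [pow_succ]
      have h2 : s (m + 1) + 1 ≤ b := h1.2
      linarith

lemma TT_zero (b : ℕ) (hb : 2 ≤ b) (s : ℕ → ℤ) (hs : ∀ k, 0 ≤ s k ∧ s k < b) (m : ℕ)
    (h : TT b s m = 0) : ∀ k ∈ Icc 1 m, s k = 0 := by
  unfold TT at h
  rw [sum_eq_zero_iff_of_nonneg (fun k _ => mul_nonneg (hs k).1 (by positivity))] at h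
  intro k hk
  have := h k hk
  rcases mul_eq_zero.1 this with h1 | h1
  · exact h1
  · exact absurd h1 (by positivity)

lemma TT_top (b : ℕ) (hb : 2 ≤ b) (s : ℕ → ℤ) (hs : ∀ k, 0 ≤ s k ∧ s k < b) (m : ℕ)
    (h : TT b s m = (b : ℤ) ^ m - 1) : ∀ k ∈ Icc 1 m, s k = b - 1 := by
  have h1 : TT b (fun k => b - 1 - s k) m = 0 := by
    have h2 : TT b (fun k => b - 1 - s k) m = TT b (fun _ => (b : ℤ) - 1) m - TT b s m := by
      unfold TT
      rw [← sum_sub_distrib]
      apply sum_congr rfl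
      intro k _; ring
    have h3 : TT b (fun _ => (b : ℤ) - 1) m = (b : ℤ) ^ m - 1 := by
      clear h h2
      induction m with
      | zero => simp [TT]
      | succ m ih => rw [TT_succ, ih, pow_succ]; ring
    rw [h2, h3, h, sub_self]
  intro k hk
  have := TT_zero b hb (fun k => b - 1 - s k) (fun k => by
    have := hs k
    constructor
    · linarith [this.2]
    · linarith [this.1]) m h1 k hk
  linarith

lemma shift_mul (s : ℕ → ℤ) (p r : ℕ) (hper : ∀ k, r < k → s (k + p) = s k) (j k : ℕ)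
    (hk : r < k) : s (k + j * p) = s k := by
  induction j with
  | zero => simp
  | succ j ih =>
    have : k + (j + 1) * p = (k + j * p) + p := by ring
    rw [this, hper _ (by omega), ih]

/-- an eventually periodic sequence is the expansion of a rational number whose denominator is
not composed of primes dividing the base -/
lemma periodic (b : ℕ) (hb : 2 ≤ b) (s : ℕ → ℤ) (p r : ℕ) (hp : 1 ≤ p)
    (hs : ∀ k, 0 ≤ s k ∧ s k < b) (hper : ∀ k, r < k → s (k + p) = s k)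
    (h0 : ∃ k, r < k ∧ s k ≠ 0) (h1 : ∃ k, r < k ∧ s k ≠ b - 1) :
    ∃ y : ℚ, (∃ m : ℕ, m ∣ y.den ∧ m.Coprime b ∧ m ≠ 1) ∧ y.den ≤ b ^ (r + p) ∧
      ∀ n : ℕ, |∑ k ∈ Icc 1 n, (s k : ℝ) / (b : ℝ) ^ k - y| ≤ 2 / (b : ℝ) ^ n := by
  have hb0 : (0 : ℝ) < b := by positivity
  have hbQ : (0 : ℚ) < b := by positivity
  have hbp : (1 : ℤ) < (b : ℤ) ^ p := one_lt_pow₀ (by exact_mod_cast (by omega : 1 < b)) (by omega)
  set M : ℤ := (b : ℤ) ^ p - 1 with hM
  have hM0 : 0 < M := by rw [hM]; linarith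
  set W : ℤ := TT b (fun k => s (r + k)) p with hW
  have hW01 := TT_lt b (fun k => s (r + k)) (fun k => hs _) p
  rw [← hW] at hW01
  have hres : ∀ k, r < k → ∃ k' ∈ Icc 1 p, s (r + k') = s k := by
    intro k hk
    refine ⟨(k - r - 1) % p + 1, ?_, ?_⟩
    · have := Nat.mod_lt (k - r - 1) (by omega : 0 < p)
      rw [mem_Icc]; omega
    · have h2 := shift_mul s p r hper ((k - r - 1) / p) (r + ((k - r - 1) % p + 1)) (by omega)
      have h3 : r + ((k - r - 1) % p + 1) + (k - r - 1) / p * p = k := by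
        have := Nat.mod_add_div (k - r - 1) p
        rw [mul_comm] at this
        omega
      rw [h3] at h2
      exact h2.symm
  have hW0 : 0 < W := by
    rcases hW01.1.eq_or_lt with h | h
    · exfalso
      obtain ⟨k, hk1, hk2⟩ := h0
      obtain ⟨k', hk'1, hk'2⟩ := hres k hk1
      have := TT_zero b hb (fun k => s (r + k)) (fun k => hs _) p h.symm k' hk'1
      exact hk2 (hk'2 ▸ this)
    · exact h
  have hWM : W < M := by
    rcases hW01.2.eq_or_lt with h | h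
    · exfalso
      obtain ⟨k, hk1, hk2⟩ := h1
      obtain ⟨k', hk'1, hk'2⟩ := hres k hk1
      have := TT_top b hb (fun k => s (r + k)) (fun k => hs _) p h k' hk'1
      exact hk2 (hk'2 ▸ this)
    · rw [hM]; exact h
  set U : ℤ := M * TT b s r + W with hU
  set y : ℚ := (U : ℚ) / (((b : ℤ) ^ r * M : ℤ) : ℚ) with hy
  have hMQ : (0 : ℚ) < M := by exact_mod_cast hM0
  have hyb : (((b : ℤ) ^ r : ℤ) : ℚ) * y = (U : ℚ) / (M : ℚ) := by
    rw [hy]; push_cast; field_simp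
  refine ⟨y, ⟨((((b : ℤ) ^ r : ℤ) : ℚ) * y).den, ?_, ?_, ?_⟩, ?_, ?_⟩
  · have := Rat.mul_den_dvd (((b : ℤ) ^ r : ℤ) : ℚ) y
    rwa [Rat.den_intCast, one_mul] at this
  · rw [hyb]
    have h2 : ((((U : ℚ) / (M : ℚ)).den : ℕ) : ℤ) ∣ M := by
      have := Rat.den_dvd U M
      rwa [Rat.divInt_eq_div] at this
    rw [← Nat.isCoprime_iff_coprime]
    obtain ⟨c, hc⟩ := h2
    refine ⟨-c, (b : ℤ) ^ (p - 1), ?_⟩
    have h3 : (b : ℤ) ^ (p - 1) * b = (b : ℤ) ^ p := by
      rw [← pow_succ]; congr 1; omega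
    rw [h3]
    have h4 : (b : ℤ) ^ p = M + 1 := by rw [hM]; ring
    rw [h4]
    nlinarith [hc]
  · rw [hyb]
    intro h2
    have h3 : (((U : ℚ) / (M : ℚ)).num : ℚ) = (U : ℚ) / (M : ℚ) := by
      have := Rat.num_div_den ((U : ℚ) / (M : ℚ))
      rw [h2] at this
      simpa using this
    have h4 : (((U : ℚ) / (M : ℚ)).num) * M = U := by
      have : ((((U : ℚ) / (M : ℚ)).num : ℤ) : ℚ) * (M : ℚ) = U := by
        rw [h3]; field_simp
      exact_mod_cast this
    set q := ((U : ℚ) / (M : ℚ)).num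
    have h5 : (q - TT b s r) * M = W := by rw [sub_mul, h4, hU]; ring
    have h6 : 0 < q - TT b s r := by
      by_contra h7
      have : (q - TT b s r) * M ≤ 0 := mul_nonpos_of_nonpos_of_nonneg (by omega) hM0.le
      omega
    have h7 : M ≤ (q - TT b s r) * M := le_mul_of_one_le_left hM0.le (by omega)
    omega
  · have h2 : ((y.den : ℕ) : ℤ) ∣ (b : ℤ) ^ r * M := by
      have := Rat.den_dvd U ((b : ℤ) ^ r * M)
      rwa [Rat.divInt_eq_div] at this
    have h3 : (0 : ℤ) < (b : ℤ) ^ r * M := by positivity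
    have h4 := Int.le_of_dvd h3 h2
    have h5 : (b : ℤ) ^ r * M ≤ (b : ℤ) ^ (r + p) := by
      rw [pow_add]
      apply mul_le_mul_of_nonneg_left _ (by positivity)
      rw [hM]; linarith
    exact_mod_cast h4.trans h5
  · intro n
    have hMR : (0 : ℝ) < M := by exact_mod_cast hM0
    have hyR : (y : ℝ) = ((M : ℝ) * TT b s r + W) / ((b : ℝ) ^ r * M) := by
      rw [hy, hU]; push_cast; ring
    -- the tails
    have hδ : ∀ j : ℕ, (b : ℝ) ^ (r + j * p) * y - TT b s (r + j * p) = (W : ℝ) / M := by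
      intro j
      induction j with
      | zero =>
        rw [hyR]; simp only [zero_mul, add_zero]
        field_simp
        ring
      | succ j ih =>
        have e1 : r + (j + 1) * p = (r + j * p) + p := by ring
        rw [e1, TT_add]
        have e2 : TT b (fun k => s (r + j * p + k)) p = W := by
          rw [hW]; unfold TT
          apply sum_congr rfl
          intro k hk
          have := shift_mul s p r hper j (r + k) (by have := (mem_Icc.1 hk).1; omega)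
          have e3 : r + j * p + k = r + k + j * p := by ring
          simp only [e3, this]
        rw [e2, pow_add _ (r + j * p) p]
        push_cast
        have e4 : (b : ℝ) ^ (r + j * p) * y = TT b s (r + j * p) + (W : ℝ) / M := by linarith
        have e5 : (b : ℝ) ^ p = M + 1 := by rw [hM]; push_cast; ring
        have e6 : (b : ℝ) ^ (r + j * p) * (b : ℝ) ^ p * y - ((b : ℝ) ^ p * (TT b s (r + j * p) : ℝ) + W)
            = (b : ℝ) ^ p * ((b : ℝ) ^ (r + j * p) * y) -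
              ((b : ℝ) ^ p * (TT b s (r + j * p) : ℝ) + W) := by ring
        rw [e6, e4, e5]
        field_simp
        ring
    have hnm : n ≤ r + n * p := by nlinarith
    obtain ⟨t, ht⟩ := Nat.exists_eq_add_of_le hnm
    have h2 := hδ n
    have h3 := split b hb s n t
    rw [← ht, TT_real b hb s (r + n * p)] at h3
    have hWM' : |(W : ℝ) / M| ≤ 1 := by
      rw [abs_of_nonneg (by have : (0 : ℝ) < W := by exact_mod_cast hW0
                            positivity)]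
      rw [div_le_one hMR]
      exact_mod_cast hWM.le
    have h4 : ∑ k ∈ Icc 1 n, (s k : ℝ) / (b : ℝ) ^ k - y =
        - ((∑ k ∈ Icc 1 t, (s (n + k) : ℝ) / (b : ℝ) ^ k + ((W : ℝ) / M) / (b : ℝ) ^ t) /
          (b : ℝ) ^ n) := by
      have h5 : (TT b s (r + n * p) : ℝ) / (b : ℝ) ^ (r + n * p) = y -
          ((W : ℝ) / M) / (b : ℝ) ^ (r + n * p) := by
        rw [← h2]; field_simp; ring
      rw [h5] at h3
      have h6 : ∑ k ∈ Icc 1 n, (s k : ℝ) / (b : ℝ) ^ k = y -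
          ((W : ℝ) / M) / (b : ℝ) ^ (r + n * p) -
            (∑ k ∈ Icc 1 t, (s (n + k) : ℝ) / (b : ℝ) ^ k) / (b : ℝ) ^ n := by linarith
      rw [h6, ht, pow_add]
      field_simp
      ring
    rw [h4, abs_neg, abs_div, abs_of_pos (by positivity : (0 : ℝ) < (b : ℝ) ^ n)]
    apply div_le_div_of_nonneg_right _ (by positivity)
    have h7 := sum_le_two' b hb (fun k => s (n + k)) (fun k => by
      have := hs (n + k)
      rw [abs_of_nonneg this.1]; exact this.2.le) t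
    have h8 : |((W : ℝ) / M) / (b : ℝ) ^ t| ≤ 1 / (b : ℝ) ^ t := by
      rw [abs_div, abs_of_pos (by positivity : (0 : ℝ) < (b : ℝ) ^ t)]
      exact div_le_div_of_nonneg_right hWM' (by positivity)
    have h9 : (0 : ℝ) ≤ 1 / (b : ℝ) ^ t := by positivity
    have h10 : 2 / (b : ℝ) ^ t = 1 / (b : ℝ) ^ t + 1 / (b : ℝ) ^ t := by ring
    refine (abs_add_le _ _).trans ?_
    linarith

end Pool.Agent.N503.DR
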