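import Mathlib
import Pool.Agent.N15.RC.Fin

/-!
Willmore energy of slice discs: the mean curvature vector and the densities of the curvatures.
-/

set_option autoImplicit false

namespace Pool.Agent.N503.WI

open scoped ContDiff RealInnerProductSpace ENNReal NNReal Topology
open MeasureTheory Set Metric Filter
open Pool.Agent.Y503.RB Pool.Agent.N503.ML Pool.Agent.N15.RC

/-- The trace of the second derivative with respect to the first fundamental form, halved. Its normal
component is the mean curvature vector. -/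
noncomputable def halfTrace (φ : ℂ → E4) (z : ℂ) : E4 :=
  (2 * fffDet φ z)⁻¹ • (fff φ 1 1 z • d2 φ Complex.I Complex.I z
    - (2 * fff φ 1 Complex.I z) • d2 φ 1 Complex.I z
    + fff φ Complex.I Complex.I z • d2 φ 1 1 z)

/-- The mean curvature vector (half of the trace of the second fundamental form) at `φ z`. -/
noncomputable def meanCurv (φ : ℂ → E4) (z : ℂ) : E4 :=
  (LinearMap.range (fderiv ℝ φ z).toLinearMap)ᗮ.starProjection (halfTrace φ z)

/-- Willmore energy: the integral of the squared length of the mean curvature vector. -/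
noncomputable def willmore (φ : ℂ → E4) : ℝ≥0∞ :=
  ∫⁻ z in ball (0 : ℂ) 1, ENNReal.ofReal (‖meanCurv φ z‖ ^ 2 * √(fffDet φ z))

open Classical in
/-- Density of the upward mean curvature energy: `((H·n)_+)²` where `n₃ > 0`. -/
noncomputable def densU (φ : ℂ → E4) (n : E4) (z : ℂ) : ℝ :=
  if 0 < n 3 then (max ⟪meanCurv φ z, n⟫ 0) ^ 2 * √(fffDet φ z) else 0

open Classical in
/-- Density of the downward mean curvature energy: `((H·n)_-)²` where `n₃ > 0`. -/
noncomputable def densD (φ : ℂ → E4) (n : E4) (z : ℂ) : ℝ :=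
  if 0 < n 3 then (max (-⟪meanCurv φ z, n⟫) 0) ^ 2 * √(fffDet φ z) else 0

/-- Upward mean curvature energy: the integral of `((H·n)_+)²` over the disc and over the circles of
unit normal vectors `n` with `n₃ > 0`. (All `L` in the supremum give the same value.) -/
noncomputable def upE (φ : ℂ → E4) : ℝ≥0∞ :=
  ∫⁻ z in ball (0 : ℂ) 1, ⨆ (L : ℂ →ₗᵢ[ℝ] E4) (_ : ∀ w v : ℂ, ⟪L w, d1 φ v z⟫ = 0),
    ∫⁻ θ in Ico 0 (2 * Real.pi), ENNReal.ofReal (densU φ (L ⟨Real.cos θ, Real.sin θ⟩) z)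

/-- Downward mean curvature energy. -/
noncomputable def downE (φ : ℂ → E4) : ℝ≥0∞ :=
  ∫⁻ z in ball (0 : ℂ) 1, ⨆ (L : ℂ →ₗᵢ[ℝ] E4) (_ : ∀ w v : ℂ, ⟪L w, d1 φ v z⟫ = 0),
    ∫⁻ θ in Ico 0 (2 * Real.pi), ENNReal.ofReal (densD φ (L ⟨Real.cos θ, Real.sin θ⟩) z)

/-! ### The mean curvature in a normal direction -/

theorem inner_meanCurv {φ : ℂ → E4} {z : ℂ} {n : E4} (hn : ∀ v : ℂ, ⟪n, d1 φ v z⟫ = 0) :
    ⟪meanCurv φ z, n⟫ = (2 * fffDet φ z)⁻¹ * (fff φ 1 1 z * sff φ n Complex.I Complex.I z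
      - 2 * fff φ 1 Complex.I z * sff φ n 1 Complex.I z
      + fff φ Complex.I Complex.I z * sff φ n 1 1 z) := by
  have hmem : n ∈ (LinearMap.range (fderiv ℝ φ z).toLinearMap)ᗮ := by
    rw [Submodule.mem_orthogonal]
    rintro x ⟨v, rfl⟩
    rw [real_inner_comm]
    exact hn v
  unfold meanCurv
  rw [Submodule.inner_starProjection_left_eq_right,
    Submodule.starProjection_eq_self_iff.2 hmem]
  unfold halfTrace sff
  rw [real_inner_smul_left, inner_add_left, inner_sub_left, real_inner_smul_left,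
    real_inner_smul_left, real_inner_smul_left, real_inner_comm n, real_inner_comm n,
    real_inner_comm n]

/-- `(trace)² ≥ 4 det · det`. -/
theorem trace_sq {E F G L M N : ℝ} (hE : 0 < E) (hd : 0 ≤ E * G - F ^ 2) :
    4 * (E * G - F ^ 2) * (L * N - M ^ 2) ≤ (E * N - 2 * F * M + G * L) ^ 2 := by
  have h : E ^ 2 * ((E * N - 2 * F * M + G * L) ^ 2 - 4 * (E * G - F ^ 2) * (L * N - M ^ 2)) =
      (E * (E * N - G * L) - 2 * F * (E * M - F * L)) ^ 2 +
        4 * (E * G - F ^ 2) * (E * M - F * L) ^ 2 := by ring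
  have h2 : 0 ≤ E ^ 2 * ((E * N - 2 * F * M + G * L) ^ 2 -
      4 * (E * G - F ^ 2) * (L * N - M ^ 2)) := by
    rw [h]; positivity
  have h3 : 0 < E ^ 2 := by positivity
  have := (mul_nonneg_iff_of_pos_left h3).1 h2
  linarith

/-- sign of the trace. -/
theorem trace_pos {E F G L M N : ℝ} (hE : 0 < E) (hd : 0 < E * G - F ^ 2) (hL : 0 < L)
    (hk : 0 < L * N - M ^ 2) : 0 < E * N - 2 * F * M + G * L := by
  have hG : 0 < G := by
    by_contra h
    have : E * G ≤ 0 := mul_nonpos_of_nonneg_of_nonpos hE.le (not_lt.1 h)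
    nlinarith [sq_nonneg F]
  have hN : 0 < N := by
    by_contra h
    have : L * N ≤ 0 := mul_nonpos_of_nonneg_of_nonpos hL.le (not_lt.1 h)
    nlinarith [sq_nonneg M]
  -- |FM| < sqrt (EG LN) ≤ (EN + GL)/2
  have h1 : (2 * F * M) ^ 2 < (E * N + G * L) ^ 2 := by
    have a1 : F ^ 2 < E * G := by linarith
    have a2 : M ^ 2 < L * N := by linarith
    have a3 : F ^ 2 * M ^ 2 < (E * G) * (L * N) := by
      have := mul_lt_mul'' a1 a2 (sq_nonneg F) (sq_nonneg M)
      exact this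
    nlinarith [sq_nonneg (E * N - G * L)]
  have h2 : 0 < E * N + G * L := by positivity
  have h3 := abs_lt_of_sq_lt_sq h1 h2.le
  have := (abs_lt.1 h3).2
  linarith

theorem dens_bound {φ : ℂ → E4} {z : ℂ} (hi : Function.Injective (fderiv ℝ φ z)) {n : E4}
    (hn : ∀ v : ℂ, ⟪n, d1 φ v z⟫ = 0) :
    kdet φ n z / √(fffDet φ z) ≤ ⟪meanCurv φ z, n⟫ ^ 2 * √(fffDet φ z) := by
  have hd := fffDet_pos hi
  have hE : 0 < fff φ 1 1 z := by
    unfold fff
    rw [real_inner_self_eq_norm_sq]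
    have : d1 φ 1 z ≠ 0 := by
      intro h
      have h0 : fderiv ℝ φ z 1 = fderiv ℝ φ z 0 := by rw [map_zero]; exact h
      exact one_ne_zero (hi h0)
    positivity
  have hd' : 0 < fff φ 1 1 z * fff φ Complex.I Complex.I z - fff φ 1 Complex.I z ^ 2 := hd
  rw [inner_meanCurv hn]
  have hs : 0 < √(fffDet φ z) := Real.sqrt_pos.2 hd
  have hss : √(fffDet φ z) ^ 2 = fffDet φ z := Real.sq_sqrt hd.le
  rw [div_le_iff₀ hs, mul_assoc, ← sq, hss]
  have key := trace_sq (L := sff φ n 1 1 z) (M := sff φ n 1 Complex.I z)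
    (N := sff φ n Complex.I Complex.I z) hE hd'.le
  have e : fffDet φ z = fff φ 1 1 z * fff φ Complex.I Complex.I z - fff φ 1 Complex.I z ^ 2 := rfl
  rw [← e] at key
  have hk : kdet φ n z = sff φ n 1 1 z * sff φ n Complex.I Complex.I z -
    sff φ n 1 Complex.I z ^ 2 := rfl
  rw [← hk] at key
  set T := fff φ 1 1 z * sff φ n Complex.I Complex.I z
      - 2 * fff φ 1 Complex.I z * sff φ n 1 Complex.I z
      + fff φ Complex.I Complex.I z * sff φ n 1 1 z with hT
  have h4 : ((2 * fffDet φ z)⁻¹ * T) ^ 2 * fffDet φ z = T ^ 2 / (4 * fffDet φ z) := by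
    field_simp
    ring
  rw [h4, le_div_iff₀ (by positivity)]
  linarith

theorem inner_pos {φ : ℂ → E4} {z : ℂ} (hi : Function.Injective (fderiv ℝ φ z)) {n : E4}
    (hn : ∀ v : ℂ, ⟪n, d1 φ v z⟫ = 0) (h1 : 0 < sff φ n 1 1 z) (h2 : 0 < kdet φ n z) :
    0 < ⟪meanCurv φ z, n⟫ := by
  have hd := fffDet_pos hi
  have hE : 0 < fff φ 1 1 z := by
    unfold fff
    rw [real_inner_self_eq_norm_sq]
    have : d1 φ 1 z ≠ 0 := by
      intro h
      have h0 : fderiv ℝ φ z 1 = fderiv ℝ φ z 0 := by rw [map_zero]; exact h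
      exact one_ne_zero (hi h0)
    positivity
  rw [inner_meanCurv hn]
  have := trace_pos (G := fff φ Complex.I Complex.I z) (F := fff φ 1 Complex.I z)
    (N := sff φ n Complex.I Complex.I z) (M := sff φ n 1 Complex.I z) hE hd h1 h2
  positivity

theorem sff_neg (φ : ℂ → E4) (n : E4) (u v z : ℂ) : sff φ (-n) u v z = -sff φ n u v z := by
  unfold sff
  rw [inner_neg_left]

theorem kdet_neg (φ : ℂ → E4) (n : E4) (z : ℂ) : kdet φ (-n) z = kdet φ n z := by
  unfold kdet
  rw [sff_neg, sff_neg, sff_neg]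
  ring

theorem densL_le {φ : ℂ → E4} {z : ℂ} (hi : Function.Injective (fderiv ℝ φ z)) {n : E4}
    (hn : ∀ v : ℂ, ⟪n, d1 φ v z⟫ = 0) : densL φ n z ≤ densU φ n z := by
  unfold densL densU
  by_cases h : Cup φ n z
  · rw [if_pos h, if_pos h.1, max_eq_left (inner_pos hi hn h.2.1 h.2.2).le]
    exact dens_bound hi hn
  · rw [if_neg h]
    split_ifs
    · positivity
    · exact le_rfl

theorem densE_le {φ : ℂ → E4} {z : ℂ} (hi : Function.Injective (fderiv ℝ φ z)) {n : E4}
    (hn : ∀ v : ℂ, ⟪n, d1 φ v z⟫ = 0) : densE φ n z ≤ densD φ n z := by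
  unfold densE densD
  by_cases h : Cap φ n z
  · have h3 : 0 < ⟪meanCurv φ z, -n⟫ := by
      refine inner_pos hi (fun v => by rw [inner_neg_left, hn, neg_zero]) ?_ ?_
      · rw [sff_neg]; linarith [h.2.1]
      · rw [kdet_neg]; exact h.2.2
    rw [inner_neg_right] at h3
    rw [if_pos h, if_pos h.1, max_eq_left h3.le, neg_sq]
    exact dens_bound hi hn
  · rw [if_neg h]
    split_ifs
    · positivity
    · exact le_rfl

end Pool.Agent.N503.WI
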