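import Mathlib
import Pool.Agent.N503.WI

/-!
Willmore energy of slice discs: integration.
-/

set_option autoImplicit false

namespace Pool.Agent.N503.WI

open scoped ContDiff RealInnerProductSpace ENNReal NNReal Topology
open MeasureTheory Set Metric Filter
open Pool.Agent.Y503.RB Pool.Agent.N503.ML Pool.Agent.N15.RC

theorem lowE_le {φ : ℂ → E4} (hi : ∀ z ∈ ball (0 : ℂ) 1, Function.Injective (fderiv ℝ φ z)) :
    lowE φ ≤ upE φ := by
  unfold lowE upE
  refine setLIntegral_mono' isOpen_ball.measurableSet fun z hz => ?_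
  unfold curvL
  refine iSup₂_mono fun L hL => ?_
  refine lintegral_mono fun θ => ENNReal.ofReal_le_ofReal ?_
  exact densL_le (hi z hz) (hL _)

theorem uppE_le {φ : ℂ → E4} (hi : ∀ z ∈ ball (0 : ℂ) 1, Function.Injective (fderiv ℝ φ z)) :
    uppE φ ≤ downE φ := by
  unfold uppE downE
  refine setLIntegral_mono' isOpen_ball.measurableSet fun z hz => ?_
  unfold curvE
  refine iSup₂_mono fun L hL => ?_
  refine lintegral_mono fun θ => ENNReal.ofReal_le_ofReal ?_
  exact densE_le (hi z hz) (hL _)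

/-- Integral over a half circle of a square of a linear form. -/
theorem half_circle (a b c d : ℝ) :
    ∫⁻ θ in Ico 0 (2 * Real.pi), ENNReal.ofReal
      (if 0 < c * Real.cos θ + d * Real.sin θ then (a * Real.cos θ + b * Real.sin θ) ^ 2 else 0) ≤
      ENNReal.ofReal (Real.pi / 2 * (a ^ 2 + b ^ 2)) := by
  set f : ℝ → ℝ := fun θ =>
    (if 0 < c * Real.cos θ + d * Real.sin θ then (a * Real.cos θ + b * Real.sin θ) ^ 2 else 0)
    with hf
  have hpi := Real.pi_pos
  have hfm : Measurable f := by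
    refine Measurable.ite ?_ ?_ measurable_const
    · exact measurableSet_lt measurable_const
        (((measurable_const.mul Real.measurable_cos)).add
          ((measurable_const.mul Real.measurable_sin)))
    · fun_prop
  have hsplit : Ico (0 : ℝ) (2 * Real.pi) = Ico 0 Real.pi ∪ Ico Real.pi (2 * Real.pi) :=
    (Ico_union_Ico_eq_Ico hpi.le (by linarith)).symm
  have hshift : ∫⁻ θ in Ico Real.pi (2 * Real.pi), ENNReal.ofReal (f θ) =
      ∫⁻ θ in Ico 0 Real.pi, ENNReal.ofReal (f (θ + Real.pi)) := by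
    have h1 := (measurePreserving_add_right (volume : Measure ℝ) Real.pi).setLIntegral_comp_preimage
      (s := Ico Real.pi (2 * Real.pi)) measurableSet_Ico
      (f := fun θ => ENNReal.ofReal (f θ)) hfm.ennreal_ofReal
    rw [← h1]
    have : (fun x => x + Real.pi) ⁻¹' Ico Real.pi (2 * Real.pi) = Ico 0 Real.pi := by
      rw [Set.preimage_add_const_Ico]
      congr 1 <;> ring
    rw [this]
  rw [hsplit, lintegral_union measurableSet_Ico
    (Ico_disjoint_Ico_same), hshift, ← lintegral_add_left hfm.ennreal_ofReal]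
  have hle : ∀ θ, ENNReal.ofReal (f θ) + ENNReal.ofReal (f (θ + Real.pi)) ≤
      ENNReal.ofReal ((a * Real.cos θ + b * Real.sin θ) ^ 2) := by
    intro θ
    simp only [hf, Real.cos_add_pi, Real.sin_add_pi]
    rcases lt_trichotomy 0 (c * Real.cos θ + d * Real.sin θ) with h | h | h
    · rw [if_pos h, if_neg (by linarith), ENNReal.ofReal_zero, add_zero]
    · rw [if_neg (by linarith), if_neg (by linarith), ENNReal.ofReal_zero, add_zero]
      exact bot_le
    · rw [if_neg (by linarith), if_pos (by linarith), ENNReal.ofReal_zero, zero_add]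
      apply ENNReal.ofReal_le_ofReal
      apply le_of_eq
      ring
  refine (lintegral_mono hle).trans ?_
  have hint : ∫ θ in (0 : ℝ)..Real.pi, (a * Real.cos θ + b * Real.sin θ) ^ 2 =
      Real.pi / 2 * (a ^ 2 + b ^ 2) := by
    have e : ∀ θ : ℝ, (a * Real.cos θ + b * Real.sin θ) ^ 2 =
        a ^ 2 * Real.cos θ ^ 2 + b ^ 2 * Real.sin θ ^ 2 + 2 * a * b * (Real.sin θ * Real.cos θ) := by
      intro θ; ring
    simp_rw [e]
    rw [intervalIntegral.integral_add, intervalIntegral.integral_add,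
      intervalIntegral.integral_const_mul, intervalIntegral.integral_const_mul,
      intervalIntegral.integral_const_mul, integral_cos_sq, integral_sin_sq, integral_sin_mul_cos₁]
    · simp
      ring
    · exact (Continuous.intervalIntegrable (by fun_prop) _ _)
    · exact (Continuous.intervalIntegrable (by fun_prop) _ _)
    · exact (Continuous.intervalIntegrable (by fun_prop) _ _)
    · exact (Continuous.intervalIntegrable (by fun_prop) _ _)
  rw [← hint, intervalIntegral.integral_of_le hpi.le, ← MeasureTheory.integral_Ico_eq_integral_Ioc,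
    ofReal_integral_eq_lintegral_ofReal]
  · have : Continuous fun θ : ℝ => (a * Real.cos θ + b * Real.sin θ) ^ 2 := by fun_prop
    exact (this.integrableOn_Icc (a := 0) (b := Real.pi)).mono_set Ico_subset_Icc_self
  · exact Eventually.of_forall fun θ => sq_nonneg _

theorem frame_op {φ N₁ N₂ : ℂ → E4} {U : Set ℂ} (hF : Frame φ N₁ N₂ U) :
    Frame (opp φ) N₁ N₂ U :=
  ⟨hF.smooth₁, hF.smooth₂, hF.unit₁, hF.unit₂, hF.orth,
    fun z hz v => by rw [d1_opp, inner_neg_right, hF.norm₁ z hz, neg_zero],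
    fun z hz v => by rw [d1_opp, inner_neg_right, hF.norm₂ z hz, neg_zero]⟩

theorem both_le {φ : ℂ → E4} {z : ℂ} (hi : Function.Injective (fderiv ℝ φ z)) {n : E4}
    (hn : ∀ v : ℂ, ⟪n, d1 φ v z⟫ = 0) :
    ENNReal.ofReal (densL φ n z) + ENNReal.ofReal (densE φ n z) ≤
      ENNReal.ofReal (if 0 < n 3 then ⟪meanCurv φ z, n⟫ ^ 2 else 0) *
        ENNReal.ofReal (√(fffDet φ z)) := by
  have hb := dens_bound hi hn
  rw [← ENNReal.ofReal_mul (by split_ifs <;> positivity)]
  by_cases h3 : 0 < n 3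
  · rw [if_pos h3]
    by_cases hL : Cup φ n z
    · have hE : ¬ Cap φ n z := fun h => absurd h.2.1 (not_lt.2 hL.2.1.le)
      unfold densL densE
      rw [if_pos hL, if_neg hE, ENNReal.ofReal_zero, add_zero]
      exact ENNReal.ofReal_le_ofReal hb
    · unfold densL densE
      rw [if_neg hL, ENNReal.ofReal_zero, zero_add]
      apply ENNReal.ofReal_le_ofReal
      split_ifs
      · exact hb
      · positivity
  · have hL : ¬ Cup φ n z := fun h => h3 h.1
    have hE : ¬ Cap φ n z := fun h => h3 h.1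
    unfold densL densE
    rw [if_neg hL, if_neg hE]
    simp

theorem point_le {φ : ℂ → E4} {U : Set ℂ} (hP : IPatch φ U) {z : ℂ} (hz : z ∈ U) :
    curvL φ z + curvE φ z ≤
      ENNReal.ofReal (Real.pi / 2) * ENNReal.ofReal (‖meanCurv φ z‖ ^ 2 * √(fffDet φ z)) := by
  obtain ⟨V, hVU, hzV, hV, N₁, N₂, hF⟩ := local_frame hP hz
  have hPV : IPatch φ V := ⟨hV, hP.smooth.mono hVU, fun w hw => hP.imm w (hVU hw)⟩
  have e1 := ind hPV hF hzV
  have e2 := ind (ipatch_opp hPV) (frame_op hF) hzV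
  rw [curvE_opp] at e2
  simp only [densE_opp] at e2
  rw [← e1, ← e2]
  refine (le_lintegral_add _ _).trans ?_
  have hi := hP.imm z hz
  have hn : ∀ θ : ℝ, ∀ v : ℂ, ⟪nor N₁ N₂ θ z, d1 φ v z⟫ = 0 := by
    intro θ v
    unfold nor
    rw [inner_add_left, real_inner_smul_left, real_inner_smul_left, hF.norm₁ z hzV,
      hF.norm₂ z hzV]
    ring
  refine (lintegral_mono fun θ => both_le hi (hn θ)).trans ?_
  rw [lintegral_mul_const' _ _ ENNReal.ofReal_ne_top]
  have hc : ∀ θ : ℝ, (if 0 < (nor N₁ N₂ θ z) 3 then ⟪meanCurv φ z, nor N₁ N₂ θ z⟫ ^ 2 else 0) =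
      (if 0 < (N₁ z 3) * Real.cos θ + (N₂ z 3) * Real.sin θ then
        (⟪meanCurv φ z, N₁ z⟫ * Real.cos θ + ⟪meanCurv φ z, N₂ z⟫ * Real.sin θ) ^ 2 else 0) := by
    intro θ
    have a1 : (nor N₁ N₂ θ z) 3 = (N₁ z 3) * Real.cos θ + (N₂ z 3) * Real.sin θ := by
      simp [nor]
      ring
    have a2 : ⟪meanCurv φ z, nor N₁ N₂ θ z⟫ =
        ⟪meanCurv φ z, N₁ z⟫ * Real.cos θ + ⟪meanCurv φ z, N₂ z⟫ * Real.sin θ := by
      unfold nor
      rw [inner_add_right, real_inner_smul_right, real_inner_smul_right]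
      ring
    rw [a1, a2]
  simp only [hc]
  have hb : ⟪meanCurv φ z, N₁ z⟫ ^ 2 + ⟪meanCurv φ z, N₂ z⟫ ^ 2 ≤ ‖meanCurv φ z‖ ^ 2 := by
    set H := meanCurv φ z
    have u1 := hF.unit₁ z hzV
    have u2 := hF.unit₂ z hzV
    have o := hF.orth z hzV
    have h0 : 0 ≤ ‖H - (⟪H, N₁ z⟫ • N₁ z + ⟪H, N₂ z⟫ • N₂ z)‖ ^ 2 := by positivity
    have o' : ⟪N₂ z, N₁ z⟫ = (0 : ℝ) := by rw [real_inner_comm]; exact o
    have i11 : ⟪N₁ z, N₁ z⟫ = (1 : ℝ) := by rw [real_inner_self_eq_norm_sq, u1]; norm_num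
    have i22 : ⟪N₂ z, N₂ z⟫ = (1 : ℝ) := by rw [real_inner_self_eq_norm_sq, u2]; norm_num
    rw [← real_inner_self_eq_norm_sq] at h0
    simp only [inner_sub_left, inner_sub_right, inner_add_left, inner_add_right,
      real_inner_smul_left, real_inner_smul_right, i11, i22, o, o',
      real_inner_comm H (N₁ z), real_inner_comm H (N₂ z)] at h0
    rw [real_inner_self_eq_norm_sq] at h0
    nlinarith [h0, real_inner_comm (N₁ z) H, real_inner_comm (N₂ z) H]
  calc _ ≤ ENNReal.ofReal (Real.pi / 2 * (⟪meanCurv φ z, N₁ z⟫ ^ 2 +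
          ⟪meanCurv φ z, N₂ z⟫ ^ 2)) * ENNReal.ofReal (√(fffDet φ z)) :=
        mul_le_mul_left (half_circle _ _ _ _) _
    _ ≤ ENNReal.ofReal (Real.pi / 2 * ‖meanCurv φ z‖ ^ 2) * ENNReal.ofReal (√(fffDet φ z)) := by
        refine mul_le_mul_left (ENNReal.ofReal_le_ofReal ?_) _
        exact mul_le_mul_of_nonneg_left hb (by positivity)
    _ = _ := by
        rw [← ENNReal.ofReal_mul (by positivity), ← ENNReal.ofReal_mul (by positivity), mul_assoc]

theorem sum_le {φ : ℂ → E4} (hP : IPatch φ (ball 0 1)) :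
    lowE φ + uppE φ ≤ ENNReal.ofReal (Real.pi / 2) * willmore φ := by
  unfold lowE uppE willmore
  refine (le_lintegral_add _ _).trans ?_
  rw [← lintegral_const_mul' _ _ ENNReal.ofReal_ne_top]
  exact setLIntegral_mono' isOpen_ball.measurableSet fun z hz => point_le hP hz

end Pool.Agent.N503.WI
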