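import Mathlib
import Pool.Agent.N503.WI2

/-!
Willmore energy of slice discs: main statements.
-/

set_option autoImplicit false

namespace Pool.Agent.N503.WI

open scoped ContDiff RealInnerProductSpace ENNReal NNReal Topology
open MeasureTheory Set Metric Filter
open Pool.Agent.Y503.RB Pool.Agent.N503.ML Pool.Agent.N15.RC

theorem weighted {φ : ℂ → E4} (h : HalfDisc φ) (a b : ℝ≥0) :
    ∃ ψ : ℂ → E4, HalfDisc ψ ∧ (∀ z ∈ sphere (0 : ℂ) 1, ψ z = φ z) ∧ MorseHt ψ ∧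
      ENNReal.ofReal (Real.pi ^ 2) * (a * (nmin ψ : ℝ≥0∞) + b * (nmax ψ : ℝ≥0∞)) ≤
        a * upE φ + b * downE φ := by
  obtain ⟨ψ, h1, h2, h3, h4⟩ := extrema_of_curv h a b
  exact ⟨ψ, h1, h2, h3, h4.trans (add_le_add (mul_le_mul_right (lowE_le h.patch.imm) _)
    (mul_le_mul_right (uppE_le h.patch.imm) _))⟩

theorem total {φ : ℂ → E4} (h : HalfDisc φ) :
    ∃ ψ : ℂ → E4, HalfDisc ψ ∧ (∀ z ∈ sphere (0 : ℂ) 1, ψ z = φ z) ∧ MorseHt ψ ∧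
      ENNReal.ofReal (2 * Real.pi) * ((nmin ψ : ℝ≥0∞) + (nmax ψ : ℝ≥0∞)) ≤ willmore φ := by
  have hpi := Real.pi_pos
  obtain ⟨ψ, h1, h2, h3, h4⟩ := extrema_of_curv h 1 1
  refine ⟨ψ, h1, h2, h3, ?_⟩
  have h5 := sum_le h.patch
  have h6 : ENNReal.ofReal (Real.pi ^ 2) = ENNReal.ofReal (Real.pi / 2) *
      ENNReal.ofReal (2 * Real.pi) := by
    rw [← ENNReal.ofReal_mul (by positivity)]
    congr 1
    ring
  simp only [ENNReal.coe_one, one_mul] at h4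
  rw [h6, mul_assoc] at h4
  have h7 := h4.trans h5
  exact (ENNReal.mul_le_mul_iff_right (by
    rw [Ne, ENNReal.ofReal_eq_zero, not_le]; positivity) ENNReal.ofReal_ne_top).1 h7

theorem few_min {φ : ℂ → E4} (h : HalfDisc φ) (m : ℕ)
    (hU : upE φ < ENNReal.ofReal (Real.pi ^ 2 * (m + 1))) :
    ∃ ψ : ℂ → E4, HalfDisc ψ ∧ (∀ z ∈ sphere (0 : ℂ) 1, ψ z = φ z) ∧ MorseHt ψ ∧
      nmin ψ ≤ m := by
  have key := (tfae_min φ m).out 1 0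
  exact key.1 ⟨φ, h, fun _ _ => rfl, (lowE_le h.patch.imm).trans_lt hU⟩

/-- If the boundary bounds no disc with fewer than `M` local maxima. -/
theorem few_min_willmore {φ : ℂ → E4} (h : HalfDisc φ) (M m : ℕ)
    (hM : ∀ ψ : ℂ → E4, HalfDisc ψ → (∀ z ∈ sphere (0 : ℂ) 1, ψ z = φ z) → MorseHt ψ →
      (M : ℕ∞) ≤ nmax ψ)
    (hW : willmore φ < ENNReal.ofReal (2 * Real.pi * (M + m + 1))) :
    ∃ ψ : ℂ → E4, HalfDisc ψ ∧ (∀ z ∈ sphere (0 : ℂ) 1, ψ z = φ z) ∧ MorseHt ψ ∧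
      nmin ψ ≤ m := by
  have hpi := Real.pi_pos
  obtain ⟨ψ, h1, h2, h3, h4⟩ := total h
  refine ⟨ψ, h1, h2, h3, ?_⟩
  have h5 := hM ψ h1 h2 h3
  have h6 := h4.trans_lt hW
  rw [ENNReal.ofReal_mul (by positivity : (0 : ℝ) ≤ 2 * Real.pi)] at h6
  have h7 : (nmin ψ : ℝ≥0∞) + (nmax ψ : ℝ≥0∞) < ENNReal.ofReal (M + m + 1) :=
    lt_of_mul_lt_mul_left' h6
  have h8 : (nmin ψ : ℝ≥0∞) + (nmax ψ : ℝ≥0∞) < ((M + m + 1 : ℕ) : ℝ≥0∞) := by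
    have : ENNReal.ofReal ((M : ℝ) + m + 1) = ((M + m + 1 : ℕ) : ℝ≥0∞) := by
      rw [← ENNReal.ofReal_natCast]
      push_cast
      rfl
    rwa [this] at h7
  have h9 : nmin ψ + nmax ψ < ((M + m + 1 : ℕ) : ℕ∞) := by
    have e : ((nmin ψ + nmax ψ : ℕ∞) : ℝ≥0∞) < (((M + m + 1 : ℕ) : ℕ∞) : ℝ≥0∞) := by
      push_cast
      push_cast at h8
      exact h8
    exact_mod_cast e
  by_contra hc
  push Not at hc
  have h10 : ((m + 1 : ℕ) : ℕ∞) ≤ nmin ψ := by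
    push_cast
    exact Order.add_one_le_of_lt hc
  have h11 : ((m + 1 : ℕ) : ℕ∞) + (M : ℕ∞) ≤ nmin ψ + nmax ψ := add_le_add h10 h5
  have h12 := h11.trans_lt h9
  have h13 : ((m + 1 + M : ℕ) : ℕ∞) < ((M + m + 1 : ℕ) : ℕ∞) := by
    push_cast at h12 ⊢
    exact h12
  have h14 : m + 1 + M < M + m + 1 := by exact_mod_cast h13
  omega

end Pool.Agent.N503.WI
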