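import Mathlib
import Pool.Agent.N503.WI3
import Pool.Agent.N15.SF.Half

/-!
Mean curvature energies and the Willmore energy of surfaces in a slab and in a half-space.
-/

set_option autoImplicit false

namespace Pool.Agent.N503.WI

open scoped ContDiff RealInnerProductSpace ENNReal NNReal Topology
open MeasureTheory Set Metric Filter
open Pool.Agent.Y503.RB Pool.Agent.N503.ML Pool.Agent.N15.RC Pool.Agent.N15.SF

/-- The integral of `((H·n)_+)²` over the circle of the unit normal vectors `n` with `n₃ > 0` at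
`φ z`, times the area density. (All `L` in the supremum give the same value.) -/
noncomputable def upAt (φ : ℂ → E4) (z : ℂ) : ℝ≥0∞ :=
  ⨆ (L : ℂ →ₗᵢ[ℝ] E4) (_ : ∀ w v : ℂ, ⟪L w, d1 φ v z⟫ = 0),
    ∫⁻ θ in Ico 0 (2 * Real.pi), ENNReal.ofReal (densU φ (L ⟨Real.cos θ, Real.sin θ⟩) z)

/-- The same for `((H·n)_-)²`. -/
noncomputable def downAt (φ : ℂ → E4) (z : ℂ) : ℝ≥0∞ :=
  ⨆ (L : ℂ →ₗᵢ[ℝ] E4) (_ : ∀ w v : ℂ, ⟪L w, d1 φ v z⟫ = 0),
    ∫⁻ θ in Ico 0 (2 * Real.pi), ENNReal.ofReal (densD φ (L ⟨Real.cos θ, Real.sin θ⟩) z)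

/-- The squared length of the mean curvature vector, times the area density. -/
noncomputable def wilAt (φ : ℂ → E4) (z : ℂ) : ℝ≥0∞ :=
  ENNReal.ofReal (‖meanCurv φ z‖ ^ 2 * √(fffDet φ z))

theorem curvL_le_up {φ : ℂ → E4} {z : ℂ} (hi : Function.Injective (fderiv ℝ φ z)) :
    curvL φ z ≤ upAt φ z := by
  unfold curvL upAt
  refine iSup₂_mono fun L hL => ?_
  exact lintegral_mono fun θ => ENNReal.ofReal_le_ofReal (densL_le hi (hL _))

theorem curvE_le_down {φ : ℂ → E4} {z : ℂ} (hi : Function.Injective (fderiv ℝ φ z)) :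
    curvE φ z ≤ downAt φ z := by
  unfold curvE downAt
  refine iSup₂_mono fun L hL => ?_
  exact lintegral_mono fun θ => ENNReal.ofReal_le_ofReal (densE_le hi (hL _))

/-! ### Slabs -/

/-- Upward mean curvature energy of a surface in a slab: the infimum over the coverings by
parametrised pieces of the sum of the integrals. -/
noncomputable def upF (F : Set E4) (H : ℝ) : ℝ≥0∞ :=
  ⨅ (φ : ℕ → ℂ → E4) (U : ℕ → Set ℂ) (A : ℕ → Set ℂ) (_ : Cover F H φ U A),
    ∑' i, ∫⁻ z in A i, upAt (φ i) z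

/-- Downward mean curvature energy. -/
noncomputable def downF (F : Set E4) (H : ℝ) : ℝ≥0∞ :=
  ⨅ (φ : ℕ → ℂ → E4) (U : ℕ → Set ℂ) (A : ℕ → Set ℂ) (_ : Cover F H φ U A),
    ∑' i, ∫⁻ z in A i, downAt (φ i) z

/-- Willmore energy. -/
noncomputable def wilF (F : Set E4) (H : ℝ) : ℝ≥0∞ :=
  ⨅ (φ : ℕ → ℂ → E4) (U : ℕ → Set ℂ) (A : ℕ → Set ℂ) (_ : Cover F H φ U A),
    ∑' i, ∫⁻ z in A i, wilAt (φ i) z

theorem lowF_le (F : Set E4) (H : ℝ) : lowF F H ≤ upF F H := by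
  unfold lowF upF
  refine iInf_mono fun φ => iInf_mono fun U => iInf_mono fun A => iInf_mono fun hC => ?_
  refine ENNReal.tsum_le_tsum fun i => setLIntegral_mono' (hC.meas i) fun z hz => ?_
  exact curvL_le_up ((hC.patch i).imm z (hC.sub' i hz))

theorem uppF_le (F : Set E4) (H : ℝ) : uppF F H ≤ downF F H := by
  unfold uppF downF
  refine iInf_mono fun φ => iInf_mono fun U => iInf_mono fun A => iInf_mono fun hC => ?_
  refine ENNReal.tsum_le_tsum fun i => setLIntegral_mono' (hC.meas i) fun z hz => ?_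
  exact curvE_le_down ((hC.patch i).imm z (hC.sub' i hz))

theorem sumF_le (F : Set E4) (H : ℝ) :
    lowF F H + uppF F H ≤ ENNReal.ofReal (Real.pi / 2) * wilF F H := by
  have hpi := Real.pi_pos
  have h0 : ENNReal.ofReal (Real.pi / 2) ≠ 0 := by
    rw [Ne, ENNReal.ofReal_eq_zero, not_le]; positivity
  have key : ∀ (φ : ℕ → ℂ → E4) (U A : ℕ → Set ℂ), Cover F H φ U A →
      lowF F H + uppF F H ≤ ENNReal.ofReal (Real.pi / 2) * ∑' i, ∫⁻ z in A i, wilAt (φ i) z := by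
    intro φ U A hC
    have h1 : lowF F H ≤ ∑' i, ∫⁻ z in A i, curvL (φ i) z :=
      iInf_le_of_le φ (iInf_le_of_le U (iInf_le_of_le A (iInf_le_of_le hC le_rfl)))
    have h2 : uppF F H ≤ ∑' i, ∫⁻ z in A i, curvE (φ i) z :=
      iInf_le_of_le φ (iInf_le_of_le U (iInf_le_of_le A (iInf_le_of_le hC le_rfl)))
    refine (add_le_add h1 h2).trans ?_
    rw [← ENNReal.tsum_add, ← ENNReal.tsum_mul_left]
    refine ENNReal.tsum_le_tsum fun i => (le_lintegral_add _ _).trans ?_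
    rw [← lintegral_const_mul' _ _ ENNReal.ofReal_ne_top]
    exact setLIntegral_mono' (hC.meas i) fun z hz => point_le (hC.patch i) (hC.sub' i hz)
  unfold wilF
  simp only [ENNReal.mul_iInf_of_ne h0 ENNReal.ofReal_ne_top]
  exact le_iInf fun φ => le_iInf fun U => le_iInf fun A => le_iInf fun hC => key φ U A hC

theorem weightF {Q : Set E4 → ℝ → Prop} (hQ : CCls Q) (a b : ℝ≥0) {F : Set E4} {H : ℝ}
    (h : Q F H) :
    ⨅ (F : Set E4) (H : ℝ) (_ : Q F H ∧ MorseF F H),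
      ENNReal.ofReal (Real.pi ^ 2) * ((a : ℝ≥0∞) * (nminF F H : ℝ≥0∞) +
        b * (nmaxF F H : ℝ≥0∞)) ≤ a * upF F H + b * downF F H := by
  rw [← inf_cls all_A all_B hQ a b]
  refine (inf2_le (fun F H => (a : ℝ≥0∞) * lowF F H + b * uppF F H) h).trans ?_
  exact add_le_add (mul_le_mul_right (lowF_le F H) _) (mul_le_mul_right (uppF_le F H) _)

theorem totalF {Q : Set E4 → ℝ → Prop} (hQ : CCls Q) {F : Set E4} {H : ℝ} (h : Q F H) (m : ℕ)
    (hW : wilF F H < ENNReal.ofReal (2 * Real.pi * (m + 1))) :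
    ∃ F' H', Q F' H' ∧ MorseF F' H' ∧ nminF F' H' + nmaxF F' H' ≤ m := by
  have hpi := Real.pi_pos
  have h0 : ENNReal.ofReal (Real.pi / 2) ≠ 0 := by
    rw [Ne, ENNReal.ofReal_eq_zero, not_le]; positivity
  have h1 : lowF F H + uppF F H < ENNReal.ofReal (Real.pi ^ 2 * (m + 1)) := by
    refine (sumF_le F H).trans_lt ?_
    have h2 : ENNReal.ofReal (Real.pi ^ 2 * (m + 1)) =
        ENNReal.ofReal (Real.pi / 2) * ENNReal.ofReal (2 * Real.pi * (m + 1)) := by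
      rw [← ENNReal.ofReal_mul (by positivity)]
      congr 1
      ring
    rw [h2]
    exact (ENNReal.mul_lt_mul_iff_right h0 ENNReal.ofReal_ne_top).2 hW
  obtain ⟨η, hη, hη2⟩ := exists_eta h1
  obtain ⟨F', H', a1, a2, a3, a4⟩ := all_A F H (hQ.cob _ _ h) 1 1 η hη
  refine ⟨F', H', hQ.closed _ _ _ _ h a1 a2, a3, nat_of_lt ?_⟩
  simp only [ENNReal.coe_one, one_mul] at a4
  push_cast
  exact a4.trans_lt hη2

theorem minF_of_up {Q : Set E4 → ℝ → Prop} (hQ : CCls Q) {F : Set E4} {H : ℝ} (h : Q F H) (m : ℕ)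
    (hU : upF F H < ENNReal.ofReal (Real.pi ^ 2 * (m + 1))) :
    ∃ F' H', Q F' H' ∧ MorseF F' H' ∧ nminF F' H' ≤ m := by
  have key := (tfae_low all_A all_B hQ m).out 1 0
  exact key.1 ⟨F, H, h, (lowF_le F H).trans_lt hU⟩

theorem maxF_of_down {Q : Set E4 → ℝ → Prop} (hQ : CCls Q) {F : Set E4} {H : ℝ} (h : Q F H) (m : ℕ)
    (hD : downF F H < ENNReal.ofReal (Real.pi ^ 2 * (m + 1))) :
    ∃ F' H', Q F' H' ∧ MorseF F' H' ∧ nmaxF F' H' ≤ m := by
  have key := (tfae_upp all_A all_B hQ m).out 1 0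
  exact key.1 ⟨F, H, h, (uppF_le F H).trans_lt hD⟩

end Pool.Agent.N503.WI
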