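import Mathlib
import Pool.Agent.N503.WS

/-!
Mean curvature energies and the Willmore energy of surfaces in a half-space.
-/

set_option autoImplicit false

namespace Pool.Agent.N503.WI

open scoped ContDiff RealInnerProductSpace ENNReal NNReal Topology
open MeasureTheory Set Metric Filter
open Pool.Agent.Y503.RB Pool.Agent.N503.ML Pool.Agent.N15.RC Pool.Agent.N15.SF

/-- Upward mean curvature energy of a surface in the half-space: the infimum over the coverings by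
parametrised pieces of the sum of the integrals. -/
noncomputable def upS (F : Set E4) : ℝ≥0∞ :=
  ⨅ (φ : ℕ → ℂ → E4) (U : ℕ → Set ℂ) (A : ℕ → Set ℂ) (_ : CoverS F φ U A),
    ∑' i, ∫⁻ z in A i, upAt (φ i) z

/-- Downward mean curvature energy. -/
noncomputable def downS (F : Set E4) : ℝ≥0∞ :=
  ⨅ (φ : ℕ → ℂ → E4) (U : ℕ → Set ℂ) (A : ℕ → Set ℂ) (_ : CoverS F φ U A),
    ∑' i, ∫⁻ z in A i, downAt (φ i) z

/-- Willmore energy. -/
noncomputable def wilS (F : Set E4) : ℝ≥0∞ :=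
  ⨅ (φ : ℕ → ℂ → E4) (U : ℕ → Set ℂ) (A : ℕ → Set ℂ) (_ : CoverS F φ U A),
    ∑' i, ∫⁻ z in A i, wilAt (φ i) z

theorem up_eq {F : Set E4} {H : ℝ} (h : ∀ x ∈ F, x 3 < H) : upF F H = upS F := by
  unfold upF upS
  simp only [cover_iff h]

theorem down_eq {F : Set E4} {H : ℝ} (h : ∀ x ∈ F, x 3 < H) : downF F H = downS F := by
  unfold downF downS
  simp only [cover_iff h]

theorem wil_eq {F : Set E4} {H : ℝ} (h : ∀ x ∈ F, x 3 < H) : wilF F H = wilS F := by
  unfold wilF wilS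
  simp only [cover_iff h]

/-- A compact surface which is not contained in the hyperplane has a local maximum of the height. -/
theorem one_le_nmax {F : Set E4} (hc : IsCompact F) (hne : (F ∩ ups).Nonempty) :
    1 ≤ nmaxS F := by
  obtain ⟨q, hq1, hq2⟩ := hne
  obtain ⟨p, hp, hmax⟩ := hc.exists_isMaxOn ⟨q, hq1⟩ cont_three.continuousOn
  have hp3 : 0 < p 3 := lt_of_lt_of_le hq2 (hmax hq1)
  unfold nmaxS
  rw [Set.one_le_encard_iff_nonempty]
  exact ⟨p, ⟨hp, hp3⟩, hmax.localize⟩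

theorem weightS (S : Type) [TopologicalSpace S] (K : Set E4) (a b : ℝ≥0) {F : Set E4}
    (h : HCls S K F) :
    ⨅ (F : Set E4) (_ : HCls S K F ∧ MorseS F),
      ENNReal.ofReal (Real.pi ^ 2) * ((a : ℝ≥0∞) * (nminS F : ℝ≥0∞) + b * (nmaxS F : ℝ≥0∞)) ≤
        a * upS F + b * downS F := by
  rw [← half_inf S K a b]
  have h0 : ⨅ (F : Set E4) (_ : HCls S K F), ((a : ℝ≥0∞) * lowS F + b * uppS F) ≤
      a * lowS F + b * uppS F := iInf_le_of_le F (iInf_le_of_le h le_rfl)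
  refine h0.trans ?_
  obtain ⟨H, hH⟩ := of_hcls h
  have hlt := cls_lt hH
  rw [← low_eq hlt, ← upp_eq hlt, ← up_eq hlt, ← down_eq hlt]
  exact add_le_add (mul_le_mul_right (lowF_le F H) _) (mul_le_mul_right (uppF_le F H) _)

theorem totalS (S : Type) [TopologicalSpace S] (K : Set E4) {F : Set E4} (h : HCls S K F) (m : ℕ)
    (hW : wilS F < ENNReal.ofReal (2 * Real.pi * (m + 1))) :
    ∃ F', HCls S K F' ∧ MorseS F' ∧ nminS F' + nmaxS F' ≤ m := by
  obtain ⟨H, hH⟩ := of_hcls h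
  rw [← wil_eq (cls_lt hH)] at hW
  obtain ⟨F', H', h1, h2, h3⟩ := totalF (cls S K ∅) hH m hW
  have hlt := cls_lt h1
  exact ⟨F', hcls_of h1, (morse_eq hlt).1 h2, by rwa [← nmin_eq hlt, ← nmax_eq hlt]⟩

theorem minS_of_wil (S : Type) [TopologicalSpace S] (K : Set E4) {F : Set E4} (h : HCls S K F)
    (m : ℕ) (hW : wilS F < ENNReal.ofReal (2 * Real.pi * (m + 2))) :
    ∃ F', HCls S K F' ∧ MorseS F' ∧ nminS F' ≤ m := by
  have hW' : wilS F < ENNReal.ofReal (2 * Real.pi * ((m + 1 : ℕ) + 1)) := by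
    refine hW.trans_eq ?_
    congr 1
    push_cast
    ring
  obtain ⟨F', h1, h2, h3⟩ := totalS S K h (m + 1) hW'
  refine ⟨F', h1, h2, ?_⟩
  by_cases h0 : nminS F' = 0
  · rw [h0]; exact bot_le
  · have hne : (F' ∩ ups).Nonempty := by
      have h4 : {p | p ∈ F' ∩ ups ∧ IsLocalMinOn (fun x : E4 => x 3) F' p}.Nonempty := by
        rw [← Set.encard_ne_zero]
        exact h0
      obtain ⟨p, hp, -⟩ := h4
      exact ⟨p, hp⟩
    have h5 := one_le_nmax h1.1.compact hne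
    have h6 : nminS F' + 1 ≤ (m : ℕ∞) + 1 := by
      refine (add_le_add le_rfl h5).trans (h3.trans ?_)
      push_cast
      exact le_rfl
    exact (ENat.add_le_add_iff_right (by simp)).1 h6

theorem minS_of_up (S : Type) [TopologicalSpace S] (K : Set E4) {F : Set E4} (h : HCls S K F)
    (m : ℕ) (hU : upS F < ENNReal.ofReal (Real.pi ^ 2 * (m + 1))) :
    ∃ F', HCls S K F' ∧ MorseS F' ∧ nminS F' ≤ m := by
  obtain ⟨H, hH⟩ := of_hcls h
  rw [← up_eq (cls_lt hH)] at hU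
  obtain ⟨F', H', h1, h2, h3⟩ := minF_of_up (cls S K ∅) hH m hU
  have hlt := cls_lt h1
  exact ⟨F', hcls_of h1, (morse_eq hlt).1 h2, by rwa [← nmin_eq hlt]⟩

end Pool.Agent.N503.WI
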